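import Pool.Agent.W_1b8d5d_p.VMean

/-!
# Track P, section B: good levels (BT), definitions (helper48)

The walk `0 → (N, y)` is cut at the block times `i m`; its backtracking intervals are paid by the lucks of the slabs
`[i m, (i + 1) m]`, which are collected in a partition function over the cells of width `W` of the starting points.
-/

namespace Pool.Agent.W_1b8d5d_h48

open MeasureTheory ProbabilityTheory Finset
open Pool.Agent.W_1b8d5d_h85 (V nm dir Edge Env grid ke wedges cost Bd sh rf)
open Pool.Agent.W_1b8d5d_p

noncomputable section

/-- The weight of one slab, from the cell `c` to the cell `c + r`: the gain is at most the luck `v` of the cell `c`, and at most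
a linear function of the displacement. -/
def kerB (θ g0 g1 ξ v : ℝ) (r : ℤ) : ℝ := Real.exp (θ * min (max v 0 + g0) (g1 - ξ * (|(r : ℝ)| - 1)))

/-- The partition function of `j` slabs of duration `m`, from the block time `T` and the cell `c` (cells of width `W`, cells of
the finite set `I`). -/
def PfB (F : Fm) (d : Dr) (θ g0 g1 ξ : ℝ) (W m : ℕ) (I : Finset ℤ) : ℕ → ℤ → ℤ → Env → ℝ
  | 0, _, _, _ => 1
  | j + 1, T, c, η => ∑ c' ∈ I, kerB θ g0 g1 ξ (VV F d η (T, c * W) m) (c' - c) *
      PfB F d θ g0 g1 ξ W m I j (T + m) c' η

end

end Pool.Agent.W_1b8d5d_h48
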