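import Pool.Agent.W_1b8d5d_h48.BtDefs

/-!
# Track P, section B: good levels (BT), the partition function (helper43)
-/

namespace Pool.Agent.W_1b8d5d_h48

open MeasureTheory ProbabilityTheory Finset
open Pool.Agent.W_1b8d5d_h85 (V nm dir Edge Env grid ke wedges cost Bd sh rf)
open Pool.Agent.W_1b8d5d_p

noncomputable section

variable {F : Fm} {κ : ℝ} {d : Dr}

private theorem kerB_pos (θ g0 g1 ξ v : ℝ) (r : ℤ) : 0 < kerB θ g0 g1 ξ v r := Real.exp_pos _

private theorem kerB_meas (θ g0 g1 ξ : ℝ) (a : Pt) (m : ℕ) (r : ℤ) :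
    Measurable fun η => kerB θ g0 g1 ξ (VV F d η a m) r := by
  unfold kerB
  exact (((((VV_meas F d a m).max measurable_const).add_const _).min measurable_const).const_mul _).exp

private theorem kerB_le {θ g0 g1 ξ : ℝ} (hθ : 0 ≤ θ) (hξ : 0 ≤ ξ) (v : ℝ) (r : ℤ) :
    kerB θ g0 g1 ξ v r ≤ Real.exp (θ * (g1 + ξ)) := by
  unfold kerB
  refine Real.exp_le_exp.2 (mul_le_mul_of_nonneg_left ((min_le_right _ _).trans ?_) hθ)
  have : 0 ≤ |(r : ℝ)| := abs_nonneg _
  nlinarith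

private theorem kerB_shp (θ g0 g1 ξ : ℝ) (a : Pt) (m : ℕ) (r : ℤ) :
    ∫ η, kerB θ g0 g1 ξ (VV F d η a m) r ∂(law F) = ∫ η, kerB θ g0 g1 ξ (VV F d η 0 m) r ∂(law F) := by
  have h : ∀ η, kerB θ g0 g1 ξ (VV F d η a m) r = (fun η => kerB θ g0 g1 ξ (VV F d η 0 m) r) (F.shp a η) := fun η => by
    show _ = kerB θ g0 g1 ξ (VV F d (F.shp a η) 0 m) r
    rw [VV_shp, zero_add]
  simp_rw [h]
  exact shp_int (kerB_meas θ g0 g1 ξ 0 m r) a

private theorem PfB_meas (θ g0 g1 ξ : ℝ) (W m : ℕ) (I : Finset ℤ) (j : ℕ) (T c : ℤ) :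
    Measurable (PfB F d θ g0 g1 ξ W m I j T c) := by
  induction j generalizing T c with
  | zero => exact measurable_const
  | succ j ih =>
    exact Finset.measurable_sum _ fun c' _ => (kerB_meas θ g0 g1 ξ (T, c * W) m (c' - c)).mul (ih (T + m) c')

private theorem PfB_dep (θ g0 g1 ξ : ℝ) (W m : ℕ) (I : Finset ℤ) (j : ℕ) (T c : ℤ) :
    DependsOn (PfB F d θ g0 g1 ξ W m I j T c) (F.co.rows T (T + j * m)) := by
  induction j generalizing T c with
  | zero => intro η η' _; rfl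
  | succ j ih =>
    intro η η' h
    have hj : (0 : ℤ) ≤ (j : ℤ) * m := by positivity
    have e1 : VV F d η (T, c * W) m = VV F d η' (T, c * W) m :=
      VV_dep F d (T, c * W) m fun e he => h e (Co.rows_mono (c := F.co) le_rfl (by push_cast; linarith)
        (Co.slab_subset_rows (c := F.co) T (T + m) he))
    show ∑ c' ∈ I, kerB θ g0 g1 ξ (VV F d η (T, c * W) m) (c' - c) * PfB F d θ g0 g1 ξ W m I j (T + m) c' η =
      ∑ c' ∈ I, kerB θ g0 g1 ξ (VV F d η' (T, c * W) m) (c' - c) * PfB F d θ g0 g1 ξ W m I j (T + m) c' η'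
    refine Finset.sum_congr rfl fun c' _ => ?_
    rw [e1]
    congr 1
    refine ih (T + m) c' fun e he => h e (Co.rows_mono (c := F.co) (by have : (0 : ℤ) ≤ m := Int.natCast_nonneg m; linarith) ?_ he)
    push_cast
    linarith

theorem PfB_mean (_hd : Adm F κ d) {θ g0 g1 ξ : ℝ} (hθ : 0 ≤ θ) (_hg0 : 0 ≤ g0) (hξ : 0 ≤ ξ) {W m : ℕ} (_hm : 1 ≤ m)
    (I : Finset ℤ) {C4 : ℝ} (hC : ∀ S : Finset ℤ, ∑ r ∈ S, ∫ η, kerB θ g0 g1 ξ (VV F d η 0 m) r ∂(law F) ≤ C4)
    (j : ℕ) (T c : ℤ) :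
    Measurable (PfB F d θ g0 g1 ξ W m I j T c) ∧
    (∃ B, ∀ η, 0 ≤ PfB F d θ g0 g1 ξ W m I j T c η ∧ PfB F d θ g0 g1 ξ W m I j T c η ≤ B) ∧
    ∫ η, PfB F d θ g0 g1 ξ W m I j T c η ∂(law F) ≤ C4 ^ j := by
  have hC4 : 0 ≤ C4 := by simpa using hC ∅
  have hbd : ∀ j T c, ∃ B, ∀ η, 0 ≤ PfB F d θ g0 g1 ξ W m I j T c η ∧ PfB F d θ g0 g1 ξ W m I j T c η ≤ B := by
    intro j
    induction j with
    | zero => intro T c; exact ⟨1, fun η => ⟨zero_le_one, le_refl _⟩⟩
    | succ j ih =>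
      intro T c
      choose B hB using fun c' => ih (T + m) c'
      refine ⟨∑ c' ∈ I, Real.exp (θ * (g1 + ξ)) * B c', fun η => ⟨?_, ?_⟩⟩
      · exact Finset.sum_nonneg fun c' _ => mul_nonneg (kerB_pos _ _ _ _ _ _).le (hB c' η).1
      · exact Finset.sum_le_sum fun c' _ => mul_le_mul (kerB_le hθ hξ _ _) (hB c' η).2 (hB c' η).1 (Real.exp_pos _).le
  refine ⟨PfB_meas θ g0 g1 ξ W m I j T c, hbd j T c, ?_⟩
  have hint : ∀ j T c, Integrable (PfB F d θ g0 g1 ξ W m I j T c) (law F) := by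
    intro j T c
    obtain ⟨B, hB⟩ := hbd j T c
    exact (integrable_const B).mono' (PfB_meas θ g0 g1 ξ W m I j T c).aestronglyMeasurable
      (Filter.Eventually.of_forall fun η => by rw [Real.norm_eq_abs, abs_of_nonneg (hB η).1]; exact (hB η).2)
  have hkint : ∀ a r, Integrable (fun η => kerB θ g0 g1 ξ (VV F d η a m) r) (law F) := fun a r =>
    (integrable_const (Real.exp (θ * (g1 + ξ)))).mono' (kerB_meas θ g0 g1 ξ a m r).aestronglyMeasurable
      (Filter.Eventually.of_forall fun η => by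
        rw [Real.norm_eq_abs, abs_of_nonneg (kerB_pos _ _ _ _ _ _).le]; exact kerB_le hθ hξ _ _)
  induction j generalizing T c with
  | zero =>
    show ∫ _, (1 : ℝ) ∂(law F) ≤ _
    simp
  | succ j ih =>
    have hdis : Disjoint (F.co.rows T (T + m)) (F.co.rows (T + m) (T + m + j * m)) := Co.rows_disjoint le_rfl
    have hprod : ∀ c', ∫ η, kerB θ g0 g1 ξ (VV F d η (T, c * W) m) (c' - c) * PfB F d θ g0 g1 ξ W m I j (T + m) c' η ∂(law F) =
        (∫ η, kerB θ g0 g1 ξ (VV F d η 0 m) (c' - c) ∂(law F)) * ∫ η, PfB F d θ g0 g1 ξ W m I j (T + m) c' η ∂(law F) := by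
      intro c'
      rw [← kerB_shp θ g0 g1 ξ (T, c * W) m (c' - c)]
      refine integral_indep (kerB_meas θ g0 g1 ξ (T, c * W) m (c' - c)) (PfB_meas θ g0 g1 ξ W m I j (T + m) c') ?_
        (PfB_dep θ g0 g1 ξ W m I j (T + m) c') hdis
      intro η η' h
      have : VV F d η (T, c * W) m = VV F d η' (T, c * W) m :=
        VV_dep F d (T, c * W) m fun e he => h e (Co.slab_subset_rows (c := F.co) T (T + m) he)
      simp only [this]
    have hI : ∀ c' ∈ I, Integrable (fun η => kerB θ g0 g1 ξ (VV F d η (T, c * W) m) (c' - c) *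
        PfB F d θ g0 g1 ξ W m I j (T + m) c' η) (law F) := by
      intro c' _
      obtain ⟨B, hB⟩ := hbd j (T + m) c'
      refine (integrable_const (Real.exp (θ * (g1 + ξ)) * B)).mono'
        ((kerB_meas θ g0 g1 ξ (T, c * W) m (c' - c)).mul (PfB_meas θ g0 g1 ξ W m I j (T + m) c')).aestronglyMeasurable
        (Filter.Eventually.of_forall fun η => ?_)
      rw [Real.norm_eq_abs, abs_of_nonneg (mul_nonneg (kerB_pos _ _ _ _ _ _).le (hB η).1)]
      exact mul_le_mul (kerB_le hθ hξ _ _) (hB η).2 (hB η).1 (Real.exp_pos _).le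
    show ∫ η, ∑ c' ∈ I, kerB θ g0 g1 ξ (VV F d η (T, c * W) m) (c' - c) * PfB F d θ g0 g1 ξ W m I j (T + m) c' η ∂(law F) ≤ _
    rw [integral_finsetSum _ hI, Finset.sum_congr rfl fun c' _ => hprod c']
    have h1 : ∑ c' ∈ I, (∫ η, kerB θ g0 g1 ξ (VV F d η 0 m) (c' - c) ∂(law F)) *
        ∫ η, PfB F d θ g0 g1 ξ W m I j (T + m) c' η ∂(law F) ≤
        ∑ c' ∈ I, (∫ η, kerB θ g0 g1 ξ (VV F d η 0 m) (c' - c) ∂(law F)) * C4 ^ j :=
      Finset.sum_le_sum fun c' _ => mul_le_mul_of_nonneg_left (ih (T + m) c')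
        (integral_nonneg fun η => (kerB_pos _ _ _ _ _ _).le)
    have h2 := hC (I.image fun c' => c' - c)
    rw [Finset.sum_image (fun x _ y _ h => by simpa using h)] at h2
    rw [← Finset.sum_mul] at h1
    refine h1.trans ?_
    rw [pow_succ, mul_comm (C4 ^ j)]
    exact mul_le_mul_of_nonneg_right h2 (pow_nonneg hC4 j)

/-- The far terms. -/
private theorem far_sum (R1 : ℕ) (S : Finset ℤ) (hS : ∀ r ∈ S, (R1 : ℤ) ≤ |r|) :
    ∑ r ∈ S, Real.exp (-(|(r : ℝ)| - R1)) ≤ 4 := by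
  have hq0 : (0 : ℝ) ≤ Real.exp (-1) := (Real.exp_pos _).le
  have hq : Real.exp (-1) < 1 / 2 := by
    rw [Real.exp_neg, inv_lt_comm₀ (Real.exp_pos _) (by norm_num)]
    have := Real.exp_one_gt_d9
    norm_num; linarith
  have hgeo : Summable fun k : ℕ => Real.exp (-1) ^ k := summable_geometric_of_lt_one hq0 (by linarith)
  have htot : ∑' k : ℕ, Real.exp (-1) ^ k ≤ 2 := by
    rw [tsum_geometric_of_lt_one hq0 (by linarith), inv_le_comm₀ (by linarith) (by norm_num)]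
    linarith
  have hhalf : ∀ P : Finset ℤ, (∀ r ∈ P, (R1 : ℤ) ≤ |r|) → (∀ r ∈ P, ∀ s ∈ P, r.natAbs = s.natAbs → r = s) →
      ∑ r ∈ P, Real.exp (-(|(r : ℝ)| - R1)) ≤ 2 := by
    intro P hP hinj
    have e1 : ∀ r ∈ P, Real.exp (-(|(r : ℝ)| - R1)) = Real.exp (-1) ^ (r.natAbs - R1) := by
      intro r hr
      have h1 := hP r hr
      have h2 : R1 ≤ r.natAbs := by rw [Int.abs_eq_natAbs] at h1; exact_mod_cast h1
      rw [← Real.exp_nat_mul]
      congr 1
      rw [Nat.cast_sub h2, Nat.cast_natAbs]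
      push_cast
      ring
    rw [Finset.sum_congr rfl e1]
    have e2 : ∑ k ∈ P.image (fun r => r.natAbs - R1), Real.exp (-1) ^ k = ∑ r ∈ P, Real.exp (-1) ^ (r.natAbs - R1) := by
      refine Finset.sum_image fun r hr s hs h => hinj r hr s hs ?_
      have h1 := hP r hr
      have h2 := hP s hs
      rw [Int.abs_eq_natAbs] at h1 h2
      have h' : r.natAbs - R1 = s.natAbs - R1 := h
      omega
    rw [← e2]
    exact (hgeo.sum_le_tsum _ fun k _ => pow_nonneg hq0 k).trans htot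
  rw [← Finset.sum_filter_add_sum_filter_not S (fun r => 0 ≤ r)]
  have h1 := hhalf (S.filter fun r => 0 ≤ r) (fun r hr => hS r (Finset.mem_filter.1 hr).1) (fun r hr s hs h => by
    have := (Finset.mem_filter.1 hr).2
    have := (Finset.mem_filter.1 hs).2
    omega)
  have h2 := hhalf (S.filter fun r => ¬ 0 ≤ r) (fun r hr => hS r (Finset.mem_filter.1 hr).1) (fun r hr s hs h => by
    have := (Finset.mem_filter.1 hr).2
    have := (Finset.mem_filter.1 hs).2
    omega)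
  linarith

private theorem far_exp {lam θ m C1 C ε κM Q W R1 x : ℝ} (hθ0 : 0 ≤ θ) (hθm : θ * m = lam) (hl0 : 0 < lam)
    (hmQW : m = Q * W) (hQ : 1 ≤ Q) (hCm : C ≤ ε / 2 * m) (hl1 : 2 * Q ≤ lam * κM)
    (hR2 : (C1 + ε / 2) * (2 * Q) ≤ κM * (R1 - 1)) (hx : R1 ≤ x) :
    θ * (C1 * m + C - κM / 2 * W * (x - 1)) ≤ -(x - R1) := by
  have hQ0 : 0 < Q := by linarith
  have e0 : θ * (C1 * m + C) ≤ lam * (C1 + ε / 2) := by
    calc θ * (C1 * m + C) ≤ θ * (C1 * m + ε / 2 * m) := mul_le_mul_of_nonneg_left (by linarith) hθ0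
      _ = (θ * m) * (C1 + ε / 2) := by ring
      _ = _ := by rw [hθm]
  obtain ⟨s, hs⟩ : ∃ s, s = lam * κM / (2 * Q) := ⟨_, rfl⟩
  have e2 : θ * (κM / 2 * W) = s := by
    rw [hs, eq_div_iff (by positivity), ← hθm, hmQW]
    ring
  have e3 : 1 ≤ s := by rw [hs, le_div_iff₀ (by positivity)]; linarith
  have e4 : lam * (C1 + ε / 2) ≤ s * (R1 - 1) := by
    rw [hs, div_mul_eq_mul_div, le_div_iff₀ (by positivity)]
    have := mul_le_mul_of_nonneg_left hR2 hl0.le
    calc lam * (C1 + ε / 2) * (2 * Q) = lam * ((C1 + ε / 2) * (2 * Q)) := by ring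
      _ ≤ lam * (κM * (R1 - 1)) := this
      _ = _ := by ring
  have e5 : x - R1 ≤ s * (x - R1) := by
    have := mul_le_mul_of_nonneg_right e3 (by linarith : (0 : ℝ) ≤ x - R1)
    linarith
  have e6 : θ * (C1 * m + C - κM / 2 * W * (x - 1)) = θ * (C1 * m + C) - s * (x - 1) := by rw [← e2]; ring
  have e7 : s * (x - 1) = s * (x - R1) + s * (R1 - 1) := by ring
  rw [e6, e7]
  linarith

theorem kerB_sum {F : Fm} {κ : ℝ} (hκ : 0 < κ) {C ε : ℝ} (_hC : 0 ≤ C) (hε : 0 < ε) :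
    ∃ (Q W0 : ℕ) (lam δ : ℝ), 1 ≤ Q ∧ 1 ≤ W0 ∧ 0 < lam ∧ 0 < δ ∧ ∀ W : ℕ, W0 ≤ W → ∀ d, Adm F κ d →
      (law F).real {η | ε * ((Q * W : ℕ) : ℝ) < VV F d η 0 (Q * W)} ≤ δ → ∀ S : Finset ℤ,
      ∑ r ∈ S, ∫ η, kerB (lam / ((Q * W : ℕ) : ℝ)) (2 * F.b * (F.co.M * W) + C) (C1 F * ((Q * W : ℕ) : ℝ) + C)
        (κ * F.co.M / 2 * W) (VV F d η 0 (Q * W)) r ∂(law F) ≤ Real.exp (4 * ε * lam) := by
  have hM : (1 : ℝ) ≤ F.co.M := by exact_mod_cast F.co.M_pos
  have hb := b_pos F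
  have hC1 := C1_pos F
  obtain ⟨Q, hQ⟩ := exists_nat_ge (max 1 (4 * F.b * F.co.M / ε))
  have hQ1 : (1 : ℝ) ≤ Q := (le_max_left _ _).trans hQ
  have hQ2 : 4 * F.b * F.co.M ≤ Q * ε := by
    have := (le_max_right _ _).trans hQ
    rwa [div_le_iff₀ hε] at this
  obtain ⟨W0, hW0⟩ := exists_nat_ge (max 1 (2 * C / ε))
  have hW1 : (1 : ℝ) ≤ W0 := (le_max_left _ _).trans hW0
  have hW2 : 2 * C ≤ W0 * ε := by
    have := (le_max_right _ _).trans hW0
    rwa [div_le_iff₀ hε] at this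
  obtain ⟨R1, hR1⟩ := exists_nat_ge ((C1 F + ε / 2) * (2 * Q) / (κ * F.co.M) + 1)
  have hR2 : (C1 F + ε / 2) * (2 * Q) ≤ κ * F.co.M * (R1 - 1) := by
    have h1 : (C1 F + ε / 2) * (2 * Q) / (κ * F.co.M) ≤ R1 - 1 := by linarith
    rw [div_le_iff₀ (by positivity)] at h1
    linarith
  -- the parameter
  set lam : ℝ := max (2 * Q / (κ * F.co.M)) (Real.log (4 * R1 + 6) / (2 * ε)) with hlam
  have hl1 : 2 * Q ≤ lam * (κ * F.co.M) := by
    have := le_max_left (2 * Q / (κ * F.co.M)) (Real.log (4 * R1 + 6) / (2 * ε))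
    rwa [← hlam, div_le_iff₀ (by positivity)] at this
  have hl0 : 0 < lam := lt_of_lt_of_le (by positivity) (le_max_left (2 * Q / (κ * F.co.M)) _)
  have hl2 : (4 * R1 + 6 : ℝ) ≤ Real.exp (2 * ε * lam) := by
    have := le_max_right (2 * Q / (κ * F.co.M)) (Real.log (4 * R1 + 6) / (2 * ε))
    rw [← hlam, div_le_iff₀ (by positivity)] at this
    rw [← Real.log_le_iff_le_exp (by positivity)]
    linarith
  refine ⟨Q, W0, lam, Real.exp (-(lam * C1 F)), by exact_mod_cast hQ1, by exact_mod_cast hW1, hl0, Real.exp_pos _, ?_⟩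
  intro W hW d hd hp S
  have hWR : (W0 : ℝ) ≤ W := by exact_mod_cast hW
  have hWpos : (1 : ℝ) ≤ W := hW1.trans hWR
  have hm1 : 1 ≤ Q * W := by
    have h1 : 1 ≤ Q := by exact_mod_cast hQ1
    have h2 : 1 ≤ W := by exact_mod_cast hWpos
    exact Nat.mul_pos h1 h2
  set m : ℝ := ((Q * W : ℕ) : ℝ) with hm
  have hmQW : m = Q * W := by rw [hm]; push_cast; ring
  have hmpos : 1 ≤ m := by rw [hm]; exact_mod_cast hm1
  have hm0 : 0 < m := by linarith
  set θ : ℝ := lam / m with hθ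
  have hθ0 : 0 ≤ θ := by positivity
  have hθm : θ * m = lam := by rw [hθ]; field_simp
  set g0 : ℝ := 2 * F.b * (F.co.M * W) + C with hg0
  have hCm : C ≤ ε / 2 * m := by
    rw [hmQW]
    have : (W0 : ℝ) * ε ≤ W * ε := mul_le_mul_of_nonneg_right hWR hε.le
    have h2 : 1 * (W * ε) ≤ Q * (W * ε) := mul_le_mul_of_nonneg_right hQ1 (by positivity)
    nlinarith
  have hg0m : g0 ≤ ε * m := by
    have h1 : 2 * F.b * (F.co.M * W) ≤ ε / 2 * m := by
      rw [hmQW]
      have := mul_le_mul_of_nonneg_right hQ2 (by positivity : (0 : ℝ) ≤ W / 2)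
      nlinarith
    rw [hg0]; linarith
  set ker := fun (η : Env) (r : ℤ) => kerB θ g0 (C1 F * m + C) (κ * F.co.M / 2 * W) (VV F d η 0 (Q * W)) r with hker
  have hξ : 0 ≤ κ * F.co.M / 2 * W := by positivity
  have hkint : ∀ r, Integrable (fun η => ker η r) (law F) := fun r =>
    (integrable_const (Real.exp (θ * ((C1 F * m + C) + κ * F.co.M / 2 * W)))).mono'
      (kerB_meas θ g0 (C1 F * m + C) (κ * F.co.M / 2 * W) 0 (Q * W) r).aestronglyMeasurable
      (Filter.Eventually.of_forall fun η => by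
        rw [Real.norm_eq_abs, abs_of_nonneg (kerB_pos _ _ _ _ _ _).le]; exact kerB_le hθ0 hξ _ _)
  -- near terms
  have hnear : ∀ r, ∫ η, ker η r ∂(law F) ≤ 2 * Real.exp (2 * ε * lam) := by
    intro r
    set E : Set Env := {η | ε * m < VV F d η 0 (Q * W)} with hE
    have hEm : MeasurableSet E := measurableSet_lt measurable_const (VV_meas F d 0 (Q * W))
    have hpt : ∀ η, ker η r ≤ Real.exp (2 * ε * lam) + E.indicator (fun _ => Real.exp (lam * C1 F + ε * lam)) η := by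
      intro η
      have h1 : ker η r ≤ Real.exp (θ * (max (VV F d η 0 (Q * W)) 0 + g0)) :=
        Real.exp_le_exp.2 (mul_le_mul_of_nonneg_left (min_le_left _ _) hθ0)
      have h2 : θ * g0 ≤ ε * lam := by
        calc θ * g0 ≤ θ * (ε * m) := mul_le_mul_of_nonneg_left hg0m hθ0
          _ = ε * (θ * m) := by ring
          _ = ε * lam := by rw [hθm]
      by_cases hη : η ∈ E
      · rw [Set.indicator_of_mem hη]
        have h3 : max (VV F d η 0 (Q * W)) 0 ≤ C1 F * m := by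
          refine max_le (VV_upper hd η 0 hm1) (by positivity)
        have h4 : θ * max (VV F d η 0 (Q * W)) 0 ≤ lam * C1 F := by
          calc θ * max (VV F d η 0 (Q * W)) 0 ≤ θ * (C1 F * m) := mul_le_mul_of_nonneg_left h3 hθ0
            _ = (θ * m) * C1 F := by ring
            _ = lam * C1 F := by rw [hθm]
        have h5 : ker η r ≤ Real.exp (lam * C1 F + ε * lam) := h1.trans (Real.exp_le_exp.2 (by rw [mul_add]; linarith))
        linarith [Real.exp_pos (2 * ε * lam)]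
      · rw [Set.indicator_of_notMem hη, add_zero]
        have h3 : max (VV F d η 0 (Q * W)) 0 ≤ ε * m := by
          refine max_le (not_lt.1 hη) (by positivity)
        have h4 : θ * max (VV F d η 0 (Q * W)) 0 ≤ ε * lam := by
          calc θ * max (VV F d η 0 (Q * W)) 0 ≤ θ * (ε * m) := mul_le_mul_of_nonneg_left h3 hθ0
            _ = ε * (θ * m) := by ring
            _ = ε * lam := by rw [hθm]
        exact h1.trans (Real.exp_le_exp.2 (by rw [mul_add]; linarith))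
    have h6 : ∫ η, ker η r ∂(law F) ≤ ∫ η, (Real.exp (2 * ε * lam) +
        E.indicator (fun _ => Real.exp (lam * C1 F + ε * lam)) η) ∂(law F) :=
      integral_mono (hkint r) ((integrable_const _).add ((integrable_const _).indicator hEm)) hpt
    rw [integral_add (integrable_const _) ((integrable_const _).indicator hEm), integral_const, integral_indicator_const _ hEm,
      probReal_univ, one_smul, smul_eq_mul] at h6
    have h7 : (law F).real E * Real.exp (lam * C1 F + ε * lam) ≤ Real.exp (ε * lam) := by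
      calc (law F).real E * Real.exp (lam * C1 F + ε * lam) ≤ Real.exp (-(lam * C1 F)) * Real.exp (lam * C1 F + ε * lam) :=
            mul_le_mul_of_nonneg_right hp (Real.exp_pos _).le
        _ = Real.exp (ε * lam) := by rw [← Real.exp_add]; congr 1; ring
    have h8 : Real.exp (ε * lam) ≤ Real.exp (2 * ε * lam) := Real.exp_le_exp.2 (by nlinarith)
    linarith
  -- far terms
  have hfar : ∀ r : ℤ, (R1 : ℤ) ≤ |r| → ∫ η, ker η r ∂(law F) ≤ Real.exp (-(|(r : ℝ)| - R1)) := by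
    intro r hr
    have hrR : (R1 : ℝ) ≤ |(r : ℝ)| := by exact_mod_cast hr
    have hpt : ∀ η, ker η r ≤ Real.exp (-(|(r : ℝ)| - R1)) := by
      intro η
      refine Real.exp_le_exp.2 ((mul_le_mul_of_nonneg_left (min_le_right _ _) hθ0).trans ?_)
      exact far_exp hθ0 hθm hl0 hmQW hQ1 hCm hl1 hR2 hrR
    calc ∫ η, ker η r ∂(law F) ≤ ∫ _, Real.exp (-(|(r : ℝ)| - R1)) ∂(law F) := integral_mono (hkint r) (integrable_const _) hpt
      _ = _ := by simp
  -- the sum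
  show ∑ r ∈ S, ∫ η, ker η r ∂(law F) ≤ _
  rw [← Finset.sum_filter_add_sum_filter_not S (fun r => (R1 : ℤ) ≤ |r|)]
  have hA : ∑ r ∈ S.filter (fun r => (R1 : ℤ) ≤ |r|), ∫ η, ker η r ∂(law F) ≤ 4 :=
    (Finset.sum_le_sum fun r hr => hfar r (Finset.mem_filter.1 hr).2).trans
      (far_sum R1 _ fun r hr => (Finset.mem_filter.1 hr).2)
  have hcard : ((S.filter (fun r => ¬ (R1 : ℤ) ≤ |r|)).card : ℝ) ≤ 2 * R1 := by
    have h1 : S.filter (fun r => ¬ (R1 : ℤ) ≤ |r|) ⊆ Finset.Ioo (-(R1 : ℤ)) R1 := by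
      intro r hr
      have := (Finset.mem_filter.1 hr).2
      push Not at this
      rw [Finset.mem_Ioo]
      exact abs_lt.1 this
    have h2 := Finset.card_le_card h1
    rw [Int.card_Ioo] at h2
    have h3 : (S.filter (fun r => ¬ (R1 : ℤ) ≤ |r|)).card ≤ 2 * R1 := by omega
    exact_mod_cast h3
  have hB : ∑ r ∈ S.filter (fun r => ¬ (R1 : ℤ) ≤ |r|), ∫ η, ker η r ∂(law F) ≤ 2 * R1 * (2 * Real.exp (2 * ε * lam)) := by
    refine (Finset.sum_le_sum fun r _ => hnear r).trans ?_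
    rw [Finset.sum_const, nsmul_eq_mul]
    exact mul_le_mul_of_nonneg_right hcard (by positivity)
  have hexp : (1 : ℝ) ≤ Real.exp (2 * ε * lam) := by
    rw [← Real.exp_zero]; exact Real.exp_le_exp.2 (by positivity)
  have hfin : Real.exp (2 * ε * lam) * Real.exp (2 * ε * lam) = Real.exp (4 * ε * lam) := by
    rw [← Real.exp_add]; congr 1; ring
  have hlast : (4 * R1 + 6 : ℝ) * Real.exp (2 * ε * lam) ≤ Real.exp (4 * ε * lam) := by
    rw [← hfin]; exact mul_le_mul_of_nonneg_right hl2 (Real.exp_pos _).le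
  have e1 : Real.exp (2 * ε * lam) * (4 * R1) + 4 ≤ (4 * R1 + 6 : ℝ) * Real.exp (2 * ε * lam) := by linarith
  linarith

end

end Pool.Agent.W_1b8d5d_h48
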