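import Pool.Agent.W_1b8d5d_h48.BtM83
import Pool.Agent.W_1b8d5d_h48.BtP
import Pool.Agent.W_1b8d5d_p.UnitR

/-!
# Track P, section B: the number of bad levels, uniformly over a family of directions (helper43)
-/

namespace Pool.Agent.W_1b8d5d_h48

open MeasureTheory ProbabilityTheory Finset
open Pool.Agent.W_1b8d5d_h85
open Pool.Agent.W_1b8d5d_p

noncomputable section

variable {F : Fm} {κ K : ℝ} {Ds : Set Dr}

/-- The luck of a point is small with large probability. -/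
lemma VV_small43 (hD : Dirs F κ K Ds) (hR : Rate F Ds) {ε δ : ℝ} (hε : 0 < ε) (hδ : 0 < δ) :
    ∃ n0 : ℕ, ∀ d ∈ Ds, ∀ n : ℕ, n0 ≤ n → 1 ≤ n → (law F).real {η | ε * (n : ℝ) < VV F d η 0 n} ≤ δ := by
  obtain ⟨n0, h0⟩ := hR (ε * δ) (by positivity)
  refine ⟨n0, fun d hd n hn hn1 => ?_⟩
  have hadm := hD.adm d hd
  have hnr : (0 : ℝ) < n := by exact_mod_cast hn1
  have h1 : ∫ η, max (VV F d η 0 n) 0 ∂(law F) ≤ EE F d n := by
    have h2 : ∫ η, max (VV F d η 0 n) 0 ∂(law F) ≤ es F d n := le_ciInf fun y => VV_pos_le hadm (hD.touch d hd) hn1 y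
    have h3 := le_EE F d (le_refl n)
    have h4 := Cr_pos F
    linarith
  have h2 := mul_meas_ge_le_integral_of_nonneg (μ := law F) (f := fun η => max (VV F d η 0 n) 0)
    (Filter.Eventually.of_forall fun η => le_max_right _ _) ((VV_integrable hadm 0 hn1).pos_part) (ε * (n : ℝ))
  have h3 : (law F).real {η | ε * (n : ℝ) < VV F d η 0 n} ≤
      (law F).real {η | ε * (n : ℝ) ≤ max (VV F d η 0 n) 0} :=
    measureReal_mono fun η hη => by
      rw [Set.mem_ofPred_eq] at hη ⊢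
      exact hη.le.trans (le_max_left _ _)
  have h4 : ε * (n : ℝ) * (law F).real {η | ε * (n : ℝ) ≤ max (VV F d η 0 n) 0} ≤ ε * δ * n :=
    (h2.trans h1).trans (h0 d hd n hn)
  have h5 : (law F).real {η | ε * (n : ℝ) ≤ max (VV F d η 0 n) 0} ≤ δ := by
    have hp : 0 < ε * (n : ℝ) := by positivity
    refine le_of_mul_le_mul_left (h4.trans (le_of_eq ?_)) hp
    ring
  exact h3.trans h5

/-- **(BT), the main theorem.** -/
theorem bt_main43 (hD : Dirs F κ K Ds) (hR : Rate F Ds) : BtMain F Ds := by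
  intro ε hε
  by_cases hne : Ds.Nonempty
  swap
  · rw [Set.not_nonempty_iff_eq_empty] at hne
    refine ⟨1, 1, 0, 1, le_rfl, le_rfl, one_pos, fun d hd => ?_⟩
    rw [hne] at hd
    exact absurd hd (Set.notMem_empty d)
  obtain ⟨d₀, hd₀⟩ := hne
  have hκ : 0 < κ := (hD.adm d₀ hd₀).κ0
  obtain ⟨ε', hε'⟩ : ∃ ε' : ℝ, ε' = ε * κ / 24 := ⟨_, rfl⟩
  have hε'0 : 0 < ε' := by rw [hε']; positivity
  obtain ⟨Q, W0, lam, δ, hQ, hW0, hlam, hδ, hk⟩ := kerB_sum (F := F) hκ (CBt_nonneg F) hε'0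
  obtain ⟨n0, hn0⟩ := VV_small43 hD hR hε'0 hδ
  obtain ⟨W, hW⟩ : ∃ W : ℕ, W = max W0 n0 := ⟨_, rfl⟩
  have hWW : W0 ≤ W := by rw [hW]; exact le_max_left _ _
  have hWn : n0 ≤ W := by rw [hW]; exact le_max_right _ _
  have hW1 : 1 ≤ W := hW0.trans hWW
  obtain ⟨m, hm⟩ : ∃ m : ℕ, m = Q * W := ⟨_, rfl⟩
  have hmW : W ≤ m := by
    rw [hm]
    exact Nat.le_mul_of_pos_left W (by omega)
  have hm1 : 1 ≤ m := hW1.trans hmW
  have hmr : (1 : ℝ) ≤ m := by exact_mod_cast hm1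
  have hmr0 : (0 : ℝ) < m := by linarith
  have hC0 := CBt_nonneg F
  have hC1 := C1_pos F
  have hb := b_pos F
  have hM : (1 : ℝ) ≤ F.co.M := by exact_mod_cast F.co.M_pos
  obtain ⟨Kc, hKc⟩ : ∃ Kc : ℝ, Kc = Real.exp (lam / m * (C1 F * m + CBt F)) / (lam / m) := ⟨_, rfl⟩
  obtain ⟨N1, hN1⟩ := exists_nat_ge (Kc / ε')
  refine ⟨m, m, max N1 1, ε', hm1, hm1, hε'0, fun d hd N y hN hy => ?_⟩
  have hadm := hD.adm d hd
  have hNN1 : N1 ≤ N := (le_max_left _ _).trans hN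
  have hN1' : 1 ≤ N := (le_max_right _ _).trans hN
  obtain ⟨n, hn⟩ : ∃ n : ℕ, n = (N - 1) / m := ⟨_, rfl⟩
  have hnm : n * m < N := by
    have := Nat.div_mul_le_self (N - 1) m
    rw [← hn] at this
    omega
  have hNn : N ≤ (n + 1) * m := by
    have h1 := Nat.lt_div_mul_add (a := N - 1) (b := m) (by omega)
    rw [← hn] at h1
    have h2 : (n + 1) * m = n * m + m := by ring
    omega
  have hθ : 0 < lam / m := by positivity
  have hker : ∀ S : Finset ℤ, ∑ r ∈ S, ∫ η, kerB (lam / m) (2 * F.b * (F.co.M * W) + CBt F) (C1 F * m + CBt F)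
      (κ * F.co.M / 2 * W) (VV F d η 0 m) r ∂(law F) ≤ Real.exp (4 * ε' * lam) := by
    intro S
    rw [hm]
    refine hk W hWW d hadm ?_ S
    rw [← hm]
    exact hn0 d hd m (hWn.trans hmW) hm1
  have h1 := bt_sel hadm (N := N) (m := m) (n := n) (W := W) (R0 := m) hm1 hW1 hm1 hnm hNn y (θ := lam / m)
    (C := CBt F) (C4 := Real.exp (4 * ε' * lam)) hθ le_rfl (Real.exp_pos _) fun I =>
      PfB_mean hadm hθ.le (by positivity) (by positivity) hm1 I hker n 0 0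
  obtain ⟨Bd, c, bad, h2, h3, h4, h5, h6, h7⟩ := h1
  refine ⟨Bd, c, bad, h2, h3, h4, h5, h6, ?_⟩
  rw [← hn]
  refine h7.trans ?_
  rw [← hKc, Real.log_exp]
  have hnmr : (n : ℝ) * m ≤ N := by exact_mod_cast hnm.le
  have hNr : (0 : ℝ) < N := by exact_mod_cast hN1'
  have e1 : (n : ℝ) * (4 * ε' * lam) / (lam / m) = 4 * ε' * (n * m) := by
    field_simp
  have e2 : Kc ≤ ε' * N := by
    have h8 : Kc / ε' ≤ N := hN1.trans (by exact_mod_cast hNN1)
    rwa [div_le_iff₀ hε'0, mul_comm] at h8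
  have e3 : 4 * ε' * (n * m) ≤ 4 * ε' * N := mul_le_mul_of_nonneg_left hnmr (by positivity)
  rw [e1]
  have e4 : e F d N y + 4 * ε' * (n * m) + Kc ≤ 6 * ε' * N := by linarith
  have e5 : (1 / (m : ℝ) + 1 / m) * (2 / κ * (e F d N y + 4 * ε' * (n * m) + Kc)) ≤
      (1 / (m : ℝ) + 1 / m) * (2 / κ * (6 * ε' * N)) := by
    apply mul_le_mul_of_nonneg_left _ (by positivity)
    exact mul_le_mul_of_nonneg_left e4 (by positivity)
  refine e5.trans (le_of_eq ?_)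
  rw [hε']
  field_simp
  ring

end

end Pool.Agent.W_1b8d5d_h48
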