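import Pool.Agent.W_1b8d5d_h48.BtS

/-!
# Track P, section B: good levels (BT), the statement for a family of directions
-/

namespace Pool.Agent.W_1b8d5d_h48

open MeasureTheory ProbabilityTheory Finset
open Pool.Agent.W_1b8d5d_h85 (V nm dir Edge Env grid ke wedges cost Bd sh rf)
open Pool.Agent.W_1b8d5d_p

noncomputable section

/-- **(BT) for a family.** The positions `c t` of a minimal walk at the levels `t` and the bad levels `bad t`; the sum over the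
multiples of `m0` of the probabilities of being bad is at most `ε N / m0`. -/
def BtMain (F : Fm) (Ds : Set Dr) : Prop :=
  ∀ ε : ℝ, 0 < ε → ∃ (m0 R0 N0 : ℕ) (ε1 : ℝ), 1 ≤ m0 ∧ 1 ≤ R0 ∧ 0 < ε1 ∧ ∀ d ∈ Ds, ∀ (N : ℕ) (y : ℤ), N0 ≤ N →
    e F d N y ≤ ε1 * N →
    ∃ (Bd : ℤ) (c : ℕ → Env → ℤ) (bad : ℕ → Set Env), (∀ t, Measurable (c t)) ∧ (∀ t η, |c t η| ≤ Bd) ∧
      (∀ t, MeasurableSet (bad t)) ∧
      (∀ t η, 1 ≤ t → t < N → η ∉ bad t → X F d η 0 t (c t η) + X F d η ((t : ℤ), c t η) (N - t) (y - c t η) ≤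
        X F d η 0 N y + (CLs F + 2 * F.b * R0)) ∧
      (∀ t η, 1 ≤ t → t < N → ∃ g : grid.Walk (F.co.vt 0) (F.co.vt ((N : ℤ), y)),
        (∀ e ∈ wedges g, e ∈ F.co.slab 0 N) ∧ cost (F.tau η) g = TT F.co (F.tau η) 0 N y ∧
        ∃ u ∈ g.support, F.co.ps u = c t η ∧ F.co.L * (t : ℤ) ≤ F.co.tm u + F.co.M ∧ F.co.tm u < F.co.L * (t : ℤ)) ∧
      ∑ j ∈ range ((N - 1) / m0), (law F).real (bad ((j + 1) * m0)) ≤ ε * (N / m0)

end

end Pool.Agent.W_1b8d5d_h48
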