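import Pool.Agent.W_1b8d5d_h48.BtW

/-!
# Track P, section B: good levels (BT), the selected minimal walk (helper48)
-/

namespace Pool.Agent.W_1b8d5d_h48

open MeasureTheory ProbabilityTheory Finset
open Pool.Agent.W_1b8d5d_h85
open Pool.Agent.W_1b8d5d_p

noncomputable section

/-- A measurable selection from a countable set. -/
lemma exists_sel {α : Type*} [Countable α] {Ω : Type*} [MeasurableSpace Ω] (P : α → Ω → Prop)
    (hP : ∀ a, MeasurableSet {ω | P a ω}) (hex : ∀ ω, ∃ a, P a ω) :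
    ∃ sel : Ω → α, (∀ ω, P (sel ω) ω) ∧ ∀ S : Set α, MeasurableSet (sel ⁻¹' S) := by
  classical
  obtain ⟨f, hf⟩ := Countable.exists_injective_nat α
  have h1 : ∀ ω, ∃ n : ℕ, ∃ a, f a = n ∧ P a ω := fun ω => by
    obtain ⟨a, ha⟩ := hex ω
    exact ⟨f a, a, rfl, ha⟩
  choose sel hs1 hs2 using fun ω => Nat.find_spec (h1 ω)
  have hmin : ∀ ω a, f a < f (sel ω) → ¬P a ω := fun ω a hlt ha => by
    rw [hs1 ω] at hlt
    exact Nat.find_min (h1 ω) hlt ⟨a, rfl, ha⟩
  have hsing : ∀ a, sel ⁻¹' {a} = {ω | P a ω} ∩ ⋂ b ∈ {b : α | f b < f a}, {ω | P b ω}ᶜ := by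
    intro a
    ext ω
    simp only [Set.mem_preimage, Set.mem_singleton_iff, Set.mem_inter_iff, Set.mem_ofPred_eq, Set.mem_iInter,
      Set.mem_compl_iff]
    constructor
    · rintro rfl
      exact ⟨hs2 ω, fun b hb => hmin ω b hb⟩
    · rintro ⟨h2, h3⟩
      by_contra hne
      rcases lt_trichotomy (f (sel ω)) (f a) with h | h | h
      · exact h3 _ h (hs2 ω)
      · exact hne (hf h)
      · exact hmin ω a h h2
  refine ⟨sel, hs2, fun S => ?_⟩
  have h2 : sel ⁻¹' S = ⋃ a ∈ S, sel ⁻¹' {a} := by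
    ext ω
    simp
  rw [h2]
  refine MeasurableSet.biUnion (Set.to_countable S) fun a _ => ?_
  rw [hsing]
  exact (hP a).inter (MeasurableSet.biInter (Set.to_countable _) fun b _ => (hP b).compl)

instance walkCountable (x y : V) : Countable (grid.Walk x y) :=
  Function.Injective.countable (f := fun w : grid.Walk x y => w.support) fun _ _ h => SimpleGraph.Walk.ext_support h

variable {F : Fm} {d : Dr} {κ : ℝ}

/-- The loss at a good level. -/
def CLs (F : Fm) : ℝ := 4 * CBt F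

/-- The decomposition of a walk at a level. -/
lemma exists_dec (c : Co) (R0 : ℕ) {K : ℤ} {x y : V} (w : grid.Walk x y) (hx : c.tm x < K) (hy : K < c.tm y) :
    ∃ (u v : V) (w1 : grid.Walk x u) (w2 : grid.Walk u v) (w3 : grid.Walk v y), w = w1.append (w2.append w3) ∧
      (∀ z ∈ w1.support, c.tm z < K) ∧ (∀ z ∈ w3.support, K < c.tm z) ∧ K ≤ c.tm u + c.M ∧ c.tm v ≤ K + c.M ∧
      (GoodL c R0 K w → w2.length ≤ R0) := by
  by_cases hg : GoodL c R0 K w
  · obtain ⟨u, v, w1, w2, w3, h1, h2, h3, h4, h5, h6⟩ := hg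
    exact ⟨u, v, w1, w2, w3, h1, h2, h3, h4, h5, fun _ => h6⟩
  · obtain ⟨u, v0, u', v', w1, w2, w3, e1, e2, e3, huv, hv, huv', hu'⟩ := three_cut c.tm K w hx hy
    refine ⟨u, v', w1, w2, w3, e1, e2, e3, ?_, ?_, fun h => absurd h hg⟩
    · have := (tm_adj c huv).1
      omega
    · have := (tm_adj c huv').1
      omega

/-- The costs of the two slabs of a decomposition. -/
lemma dec_cost (hd : Adm F κ d) (η : Env) {N t : ℕ} (ht : 1 ≤ t) (htN : t < N) {y : ℤ} {u v : V}
    (w1 : grid.Walk (F.co.vt 0) u) (w2 : grid.Walk u v) (w3 : grid.Walk v (F.co.vt ((N : ℤ), y)))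
    (hw : ∀ e ∈ wedges (w1.append (w2.append w3)), e ∈ F.co.slab 0 N)
    (h1 : ∀ z ∈ w1.support, F.co.tm z < F.co.L * (t : ℤ)) (h3 : ∀ z ∈ w3.support, F.co.L * (t : ℤ) < F.co.tm z)
    (hu : F.co.L * (t : ℤ) ≤ F.co.tm u + F.co.M) (hv : F.co.tm v ≤ F.co.L * (t : ℤ) + F.co.M) :
    X F d η 0 t (F.co.ps u) + X F d η ((t : ℤ), F.co.ps u) (N - t) (y - F.co.ps u) ≤
      cost (F.tau η) (w1.append (w2.append w3)) - d.H (F.co.vt ((N : ℤ), y) - F.co.vt 0) +
        (CLs F + 2 * F.b * w2.length) := by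
  have hb := b_pos F
  have hL := F.co.L_pos
  have hLM := F.co.L_eq
  have hM := F.co.M_pos
  have hM1 : (1 : ℝ) ≤ F.co.M := by exact_mod_cast hM
  have hR1 : (1 : ℝ) ≤ F.co.R := by exact_mod_cast F.co.R_pos
  have hκ0 := hd.κ0
  have hus2 := h1 u w1.end_mem_support
  have hvs2 := h3 v w3.start_mem_support
  have ps0 : F.co.ps (F.co.vt 0) = 0 := by rw [Co.ps_vt]; rfl
  have tm0 : F.co.tm (F.co.vt 0) = 0 := by rw [Co.tm_vt]; simp
  obtain ⟨s, hs⟩ : ∃ s : ℕ, N = t + s := ⟨N - t, by omega⟩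
  subst hs
  have hs1 : 1 ≤ s := by omega
  have hst : t + s - t = s := by omega
  rw [hst]
  have hw1 : ∀ e ∈ wedges w1, e ∈ F.co.slab 0 (0 + (t : ℕ)) := by
    intro e he
    obtain ⟨f1, f2, f3, f4⟩ := hw e (by rw [wedges_append]; exact List.mem_append_left _ he)
    obtain ⟨g1, g2⟩ := wedges_support w1 he
    have g3 := h1 _ g1
    have g4 := h1 _ g2
    rw [zero_add]
    exact ⟨f1, by omega, g3, f4⟩
  have hw3 : ∀ e ∈ wedges w3, e ∈ F.co.slab (t : ℤ) ((t : ℤ) + (s : ℕ)) := by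
    intro e he
    obtain ⟨f1, f2, f3, f4⟩ := hw e (by
      rw [wedges_append, wedges_append]; exact List.mem_append_right _ (List.mem_append_right _ he))
    obtain ⟨g1, g2⟩ := wedges_support w3 he
    have g3 := h3 _ g1
    have g4 := h3 _ g2
    push_cast at f2 f3
    exact ⟨by omega, f2, f3, by omega⟩
  have a1 := piece_X hd η (s := 0) (n := t) ht w1 hw1 (by rw [tm0]; constructor <;> omega)
    (by rw [zero_add]; exact ⟨hu, hus2.le⟩)
  rw [ps0, sub_zero] at a1
  have a3 := piece_X hd η (s := (t : ℤ)) (n := s) hs1 w3 hw3 ⟨hvs2.le, hv⟩ (by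
    rw [Co.tm_vt]
    push_cast
    constructor
    · linarith
    · exact le_rfl)
  rw [Co.ps_vt] at a3
  have a2 := loop_ge hd η w2 (by omega)
  have a4 := ps_walk F.co (t := (t : ℤ)) w2 hu (by omega) (by omega) hv
  have a5 := X_start hd η ((t : ℤ), F.co.ps u) hs1 (y - F.co.ps u) (F.co.ps v - F.co.ps u)
  have e5 : (((t : ℤ), F.co.ps u) : Pt) + (0, F.co.ps v - F.co.ps u) = ((t : ℤ), F.co.ps v) := by
    ext <;> simp
  rw [e5, show y - F.co.ps u - (F.co.ps v - F.co.ps u) = y - F.co.ps v by ring] at a5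
  have a6 : 2 * F.b * (F.co.M * |((F.co.ps v - F.co.ps u : ℤ) : ℝ)|) ≤
      2 * F.b * (w2.length + 2 * (F.co.M * F.co.R)) := by
    push_cast
    exact mul_le_mul_of_nonneg_left a4 (by linarith)
  have hcost : cost (F.tau η) (w1.append (w2.append w3)) - d.H (F.co.vt (((t + s : ℕ) : ℤ), y) - F.co.vt 0) =
      (cost (F.tau η) w1 - d.H (u - F.co.vt 0)) + (cost (F.tau η) w2 - d.H (v - u)) +
        (cost (F.tau η) w3 - d.H (F.co.vt (((t + s : ℕ) : ℤ), y) - v)) := by
    have h1 : F.co.vt (((t + s : ℕ) : ℤ), y) - F.co.vt 0 =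
      (u - F.co.vt 0) + ((v - u) + (F.co.vt (((t + s : ℕ) : ℤ), y) - v)) := by abel
    rw [h1, d.H_add, d.H_add, cost_append, cost_append]
    ring
  rw [hcost]
  have hC00 := C0_nonneg F.co hb.le
  have hCL : CLs F = 4 * (F.b * (F.co.M * F.co.R) + C0 F.co F.b + 4 * (F.b * F.co.M) + 4 * F.b) := rfl
  have h0 : 0 ≤ κ * (w2.length : ℝ) := by positivity
  have h00 : ((0 : ℤ), (0 : ℤ)) = (0 : Pt) := rfl
  rw [h00] at a1
  have hbM : 0 ≤ F.b * (F.co.M : ℝ) := by positivity
  have hbMR : 0 ≤ F.b * (F.co.M * F.co.R : ℝ) := by positivity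
  rw [hCL]
  linarith

/-- The vertices of a walk of the slab are near to its starting point. -/
lemma support_bd (η : Env) {N : ℕ} {y : ℤ} (w : grid.Walk (F.co.vt 0) (F.co.vt ((N : ℤ), y)))
    (hw : cost (F.tau η) w = TT F.co (F.tau η) 0 N y) (hN : 1 ≤ N) :
    ∀ z ∈ w.support, |(F.co.ps z : ℝ)| ≤ F.co.R * (F.b * (nm (F.co.vt ((N : ℤ), y)) + 4) / F.a) := by
  classical
  intro z hz
  have hb := b_pos F
  have hR1 : (1 : ℝ) ≤ F.co.R := by exact_mod_cast F.co.R_pos
  have h1 := F.co.abs_ps_le z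
  have h2 := nm_le_length (w.takeUntil z hz)
  have h20 : z - F.co.vt 0 = z := by rw [Co.vt_zero, sub_zero]
  rw [h20] at h2
  have h3 : ((w.takeUntil z hz).length : ℝ) ≤ w.length := by exact_mod_cast w.length_takeUntil_le_length hz
  have h4 := le_cost (F.bd η) w
  have h5 := TT_upper (c := F.co) (F.bd η) F.a0.le hb.le 0 hN y
  rw [hw] at h4
  have h6 : (w.length : ℝ) ≤ F.b * (nm (F.co.vt ((N : ℤ), y)) + 4) / F.a := by
    rw [le_div_iff₀ F.a0]
    linarith
  exact h1.trans (mul_le_mul_of_nonneg_left (by linarith) (by linarith))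

/-- **(BT)**: the positions of the selected minimal walk at the levels, and the number of its bad levels. -/
theorem bt_sel (hd : Adm F κ d) {N m n W R0 : ℕ} (hm : 1 ≤ m) (hW : 1 ≤ W) (hR0 : 1 ≤ R0) (hnN : n * m < N)
    (hNn : N ≤ (n + 1) * m) (y : ℤ) {θ C C4 : ℝ} (hθ : 0 < θ) (hC : CBt F ≤ C) (hC4 : 0 < C4)
    (hP : ∀ I : Finset ℤ, Measurable (PfB F d θ (2 * F.b * (F.co.M * W) + C) (C1 F * m + C) (κ * F.co.M / 2 * W) W m I n 0 0) ∧
      (∃ B, ∀ η, 0 ≤ PfB F d θ (2 * F.b * (F.co.M * W) + C) (C1 F * m + C) (κ * F.co.M / 2 * W) W m I n 0 0 η ∧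
        PfB F d θ (2 * F.b * (F.co.M * W) + C) (C1 F * m + C) (κ * F.co.M / 2 * W) W m I n 0 0 η ≤ B) ∧
      ∫ η, PfB F d θ (2 * F.b * (F.co.M * W) + C) (C1 F * m + C) (κ * F.co.M / 2 * W) W m I n 0 0 η ∂(law F) ≤ C4 ^ n) :
    ∃ (Bd : ℤ) (c : ℕ → Env → ℤ) (bad : ℕ → Set Env), (∀ t, Measurable (c t)) ∧ (∀ t η, |c t η| ≤ Bd) ∧
      (∀ t, MeasurableSet (bad t)) ∧
      (∀ t η, 1 ≤ t → t < N → η ∉ bad t → X F d η 0 t (c t η) + X F d η ((t : ℤ), c t η) (N - t) (y - c t η) ≤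
        X F d η 0 N y + (CLs F + 2 * F.b * R0)) ∧
      (∀ t η, 1 ≤ t → t < N → ∃ g : grid.Walk (F.co.vt 0) (F.co.vt ((N : ℤ), y)),
        (∀ e ∈ wedges g, e ∈ F.co.slab 0 N) ∧ cost (F.tau η) g = TT F.co (F.tau η) 0 N y ∧
        ∃ u ∈ g.support, F.co.ps u = c t η ∧ F.co.L * (t : ℤ) ≤ F.co.tm u + F.co.M ∧ F.co.tm u < F.co.L * (t : ℤ)) ∧
      ∑ j ∈ range n, (law F).real (bad ((j + 1) * m)) ≤ (1 / R0 + 1 / m) * (2 / κ * (e F d N y +
        n * Real.log C4 / θ + Real.exp (θ * (C1 F * m + C)) / θ)) := by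
  classical
  have hb := b_pos F
  have hκ0 := hd.κ0
  have hN1 : 1 ≤ N := by omega
  have hL := F.co.L_pos
  have hM := F.co.M_pos
  have tm0 : F.co.tm (F.co.vt 0) = 0 := by rw [Co.tm_vt]; simp
  have hTT : ∀ τ, TT F.co τ 0 N y = TR (F.co.slab 0 N) τ (F.co.vt 0) (F.co.vt ((N : ℤ), y)) := by
    intro τ
    unfold TT
    simp only [Prod.fst_zero, zero_add]
  have hne : Nonempty (WK (F.co.slab 0 N) (F.co.vt 0) (F.co.vt ((N : ℤ), y))) := by
    have := Co.ne_vt (c := F.co) 0 hN1 y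
    simpa only [Prod.fst_zero, zero_add] using this
  obtain ⟨sel, hsel, hselm⟩ := exists_sel (α := WK (F.co.slab 0 N) (F.co.vt 0) (F.co.vt ((N : ℤ), y))) (Ω := Env)
    (fun w η => cost (F.tau η) w.1 = TT F.co (F.tau η) 0 N y)
    (fun w => measurableSet_eq_fun ((cost_meas w.1).comp (tau_meas F)) ((TT_meas F.co 0 N y).comp (tau_meas F)))
    (fun η => by
      obtain ⟨w, -, h2, h3⟩ := TR_min (F.bd η) F.a0 hne
      exact ⟨⟨w, h2⟩, by rw [h3, hTT]⟩)
  have hdec : ∀ (w : WK (F.co.slab 0 N) (F.co.vt 0) (F.co.vt ((N : ℤ), y))) (t : ℕ), ∃ k : ℤ, (1 ≤ t → t < N →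
      ∃ (u v : V) (w1 : grid.Walk (F.co.vt 0) u) (w2 : grid.Walk u v) (w3 : grid.Walk v (F.co.vt ((N : ℤ), y))),
        w.1 = w1.append (w2.append w3) ∧
        (∀ z ∈ w1.support, F.co.tm z < F.co.L * (t : ℤ)) ∧ (∀ z ∈ w3.support, F.co.L * (t : ℤ) < F.co.tm z) ∧
        F.co.L * (t : ℤ) ≤ F.co.tm u + F.co.M ∧ F.co.tm v ≤ F.co.L * (t : ℤ) + F.co.M ∧ F.co.ps u = k ∧
        (GoodL F.co R0 (F.co.L * (t : ℤ)) w.1 → w2.length ≤ R0)) ∧ (¬(1 ≤ t ∧ t < N) → k = 0) := by
    intro w t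
    by_cases ht : 1 ≤ t ∧ t < N
    · obtain ⟨u, v, w1, w2, w3, h1, h2, h3, h4, h5, h6⟩ := exists_dec F.co R0 (K := F.co.L * (t : ℤ)) w.1
        (by rw [tm0]; have : (1 : ℤ) ≤ t := by exact_mod_cast ht.1
            nlinarith)
        (by
          have h0 : (t : ℤ) < N := by exact_mod_cast ht.2
          rw [Co.tm_vt]
          exact mul_lt_mul_of_pos_left h0 (by omega))
      exact ⟨F.co.ps u, fun _ _ => ⟨u, v, w1, w2, w3, h1, h2, h3, h4, h5, rfl, h6⟩, fun h => absurd ht h⟩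
    · exact ⟨0, fun h1 h2 => absurd ⟨h1, h2⟩ ht, fun _ => rfl⟩
  choose pos hpos hpos0 using hdec
  obtain ⟨Bd, hBd⟩ : ∃ Bd : ℕ, F.co.R * (F.b * (nm (F.co.vt ((N : ℤ), y)) + 4) / F.a) ≤ Bd := exists_nat_ge _
  have hsupp : ∀ η, ∀ z ∈ (sel η).1.support, |F.co.ps z| ≤ Bd := fun η z hz => by
    have h1 := (support_bd η (sel η).1 (hsel η) hN1 z hz).trans hBd
    rw [← Int.cast_abs] at h1
    exact_mod_cast h1
  refine ⟨Bd, fun t η => pos (sel η) t, fun t => {η | ¬GoodL F.co R0 (F.co.L * (t : ℤ)) (sel η).1}, ?_, ?_, ?_, ?_, ?_, ?_⟩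
  · intro t
    exact measurable_to_countable' fun k => hselm {w | pos w t = k}
  · intro t η
    show |pos (sel η) t| ≤ _
    by_cases ht : 1 ≤ t ∧ t < N
    · obtain ⟨u, v, w1, w2, w3, h1, h2, h3, h4, h5, h6, h7⟩ := hpos (sel η) t ht.1 ht.2
      rw [← h6]
      refine hsupp η u ?_
      rw [h1, SimpleGraph.Walk.mem_support_append_iff]
      exact Or.inl w1.end_mem_support
    · rw [hpos0 (sel η) t ht]
      simp
  · intro t
    exact hselm {w | ¬GoodL F.co R0 (F.co.L * (t : ℤ)) w.1}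
  · intro t η ht1 htN hη
    obtain ⟨u, v, w1, w2, w3, h1, h2, h3, h4, h5, h6, h7⟩ := hpos (sel η) t ht1 htN
    have h8 : GoodL F.co R0 (F.co.L * (t : ℤ)) (sel η).1 := by
      by_contra hc
      exact hη hc
    have h9 := h7 h8
    have h10 := dec_cost hd η ht1 htN w1 w2 w3 (by rw [← h1]; exact (sel η).2) h2 h3 h4 h5
    rw [← h1, hsel η] at h10
    have h11 : TT F.co (F.tau η) 0 N y - d.H (F.co.vt ((N : ℤ), y) - F.co.vt 0) = X F d η 0 N y := by
      rw [X_eq, Co.vt_zero, sub_zero]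
    rw [h11] at h10
    have h12 : 2 * F.b * (w2.length : ℝ) ≤ 2 * F.b * R0 :=
      mul_le_mul_of_nonneg_left (by exact_mod_cast h9) (by linarith)
    show X F d η 0 t (pos (sel η) t) + X F d η ((t : ℤ), pos (sel η) t) (N - t) (y - pos (sel η) t) ≤ _
    rw [← h6]
    linarith
  · intro t η ht1 htN
    obtain ⟨u, v, w1, w2, w3, h1, h2, h3, h4, h5, h6, h7⟩ := hpos (sel η) t ht1 htN
    refine ⟨(sel η).1, (sel η).2, hsel η, u, ?_, h6, h4, h2 u w1.end_mem_support⟩
    rw [h1, SimpleGraph.Walk.mem_support_append_iff]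
    exact Or.inl w1.end_mem_support
  · -- counting
    set I : Finset ℤ := Finset.Icc (-(Bd : ℤ)) Bd with hI
    obtain ⟨hPm, ⟨B, hPB⟩, hPi⟩ := hP I
    set G : Env → ℝ := PfB F d θ (2 * F.b * (F.co.M * W) + C) (C1 F * m + C) (κ * F.co.M / 2 * W) W m I n 0 0 with hG
    have hGi : Integrable G (law F) := (integrable_const B).mono' hPm.aestronglyMeasurable
      (Filter.Eventually.of_forall fun η => by
        rw [Real.norm_eq_abs, abs_of_nonneg (hPB η).1]
        exact (hPB η).2)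
    have hmr : (0 : ℝ) < m := by exact_mod_cast hm
    have hRr : (0 : ℝ) < R0 := by exact_mod_cast hR0
    have hC4n : 0 < C4 ^ n := pow_pos hC4 n
    have hpt : ∀ η, ∑ j ∈ range n, ({η | ¬GoodL F.co R0 (F.co.L * (((j + 1) * m : ℕ) : ℤ)) (sel η).1} : Set Env).indicator
        (fun _ => (1 : ℝ)) η ≤ (1 / R0 + 1 / m) * (2 / κ * (X F d η 0 N y +
        n * Real.log C4 / θ + Real.exp (θ * (C1 F * m + C)) / (θ * C4 ^ n) * G η)) := by
      intro η
      have e0 : (((0 * m : ℕ)) : ℤ) = 0 := by simp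
      obtain ⟨S, hS1, hS2⟩ := bt_walk hd η (N := N) (m := m) (n := n) (W := W) (R0 := R0) hm hW hR0 hnN hNn hθ.le hC I y
        n 0 (by omega) (F.co.vt 0) (sel η).1 (by rw [tm0, e0]; simp) (by rw [tm0, e0]; simp; omega)
        (by rw [e0]; exact (sel η).2) (by
          intro z hz
          have h1 := hsupp η z hz
          rw [hI, Finset.mem_Icc]
          obtain ⟨h2, h3⟩ := abs_le.1 h1
          have hWz : (0 : ℤ) < W := by exact_mod_cast hW
          have hBd0 : (0 : ℤ) ≤ Bd := by positivity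
          constructor
          · refine Int.le_ediv_of_mul_le hWz ?_
            nlinarith
          · refine (Int.ediv_le_of_le_mul hWz ?_)
            nlinarith)
      rw [e0] at hS2
      have e1 : F.co.ps (F.co.vt 0) / W = 0 := by rw [Co.ps_vt]; simp
      rw [e1, hsel η] at hS2
      have h11 : TT F.co (F.tau η) 0 N y - d.H (F.co.vt ((N : ℤ), y) - F.co.vt 0) = X F d η 0 N y := by
        rw [X_eq, Co.vt_zero, sub_zero]
      rw [h11] at hS2
      have h3 : ∑ j ∈ range n, ({η | ¬GoodL F.co R0 (F.co.L * (((j + 1) * m : ℕ) : ℤ)) (sel η).1} : Set Env).indicator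
          (fun _ => (1 : ℝ)) η = badN F.co R0 m 0 n (sel η).1 := by
        unfold badN
        rw [Finset.card_filter, Nat.cast_sum]
        refine Finset.sum_congr rfl fun j _ => ?_
        rw [Set.indicator_apply, Nat.cast_ite, Nat.cast_one, Nat.cast_zero]
        simp only [Set.mem_ofPred_eq, zero_add]
        have e3 : (j + 1) * m = (1 + j) * m := by ring
        rw [e3]
      rw [h3]
      refine hS1.trans ?_
      rw [mul_comm (S : ℝ)]
      refine mul_le_mul_of_nonneg_left ?_ (by positivity)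
      have h4 : θ * (κ / 2 * S - X F d η 0 N y) - n * Real.log C4 ≤
          Real.exp (θ * (C1 F * m + C)) / C4 ^ n * G η := by
        have h5 := (Real.add_one_le_exp (θ * (κ / 2 * S - X F d η 0 N y) - n * Real.log C4))
        have h6 : Real.exp (θ * (κ / 2 * S - X F d η 0 N y) - n * Real.log C4) =
            Real.exp (θ * (κ / 2 * S - X F d η 0 N y)) / C4 ^ n := by
          have h60 : Real.exp (n * Real.log C4) = C4 ^ n := by
            rw [mul_comm (n : ℝ), Real.exp_mul, Real.exp_log hC4, Real.rpow_natCast]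
          rw [Real.exp_sub, h60]
        have h7 := div_le_div_of_nonneg_right hS2 hC4n.le
        have h8 : G η * Real.exp (θ * (C1 F * m + C)) / C4 ^ n = Real.exp (θ * (C1 F * m + C)) / C4 ^ n * G η := by
          ring
        rw [← hG] at h7
        linarith
      have h5 : κ / 2 * S ≤ X F d η 0 N y + n * Real.log C4 / θ + Real.exp (θ * (C1 F * m + C)) / (θ * C4 ^ n) * G η := by
        have h6 : Real.exp (θ * (C1 F * m + C)) / (θ * C4 ^ n) * G η =
            Real.exp (θ * (C1 F * m + C)) / C4 ^ n * G η / θ := by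
          field_simp
        rw [h6]
        have h7 : κ / 2 * S = X F d η 0 N y + n * Real.log C4 / θ +
            (θ * (κ / 2 * S - X F d η 0 N y) - n * Real.log C4) / θ := by
          field_simp
          ring
        rw [h7]
        linarith [div_le_div_of_nonneg_right h4 hθ.le]
      have h9 : (S : ℝ) = 2 / κ * (κ / 2 * S) := by field_simp
      rw [h9]
      exact mul_le_mul_of_nonneg_left h5 (by positivity)
    have hXi := X_integrable hd 0 hN1 y
    have hint : ∫ η, ∑ j ∈ range n, ({η | ¬GoodL F.co R0 (F.co.L * (((j + 1) * m : ℕ) : ℤ)) (sel η).1} : Set Env).indicator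
        (fun _ => (1 : ℝ)) η ∂(law F) ≤ ∫ η, (1 / R0 + 1 / m) * (2 / κ * (X F d η 0 N y +
        n * Real.log C4 / θ + Real.exp (θ * (C1 F * m + C)) / (θ * C4 ^ n) * G η)) ∂(law F) := by
      refine integral_mono ?_ ?_ hpt
      · refine integrable_finsetSum _ fun j _ => ?_
        exact (integrable_const (1 : ℝ)).indicator (hselm {w | ¬GoodL F.co R0 (F.co.L * (((j + 1) * m : ℕ) : ℤ)) w.1})
      · exact (((hXi.add (integrable_const _)).add (hGi.const_mul _)).const_mul _).const_mul _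
    rw [integral_finsetSum] at hint
    · simp_rw [integral_const_mul] at hint
      have hI2 : ∫ η, (X F d η 0 N y + n * Real.log C4 / θ + Real.exp (θ * (C1 F * m + C)) / (θ * C4 ^ n) * G η) ∂(law F) =
          e F d N y + n * Real.log C4 / θ + Real.exp (θ * (C1 F * m + C)) / (θ * C4 ^ n) * ∫ η, G η ∂(law F) := by
        rw [integral_add (f := fun η => X F d η 0 N y + n * Real.log C4 / θ)
          (g := fun η => Real.exp (θ * (C1 F * m + C)) / (θ * C4 ^ n) * G η)
          (hXi.add (integrable_const _)) (hGi.const_mul _), integral_add hXi (integrable_const _),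
          integral_const_mul, integral_const, probReal_univ, one_smul]
        rfl
      rw [hI2] at hint
      refine le_trans (le_of_eq ?_) (hint.trans ?_)
      · refine Finset.sum_congr rfl fun j _ => ?_
        have hms : MeasurableSet {η | ¬GoodL F.co R0 (F.co.L * (((j + 1) * m : ℕ) : ℤ)) (sel η).1} :=
          hselm {w | ¬GoodL F.co R0 (F.co.L * (((j + 1) * m : ℕ) : ℤ)) w.1}
        exact (integral_indicator_one hms).symm
      · refine mul_le_mul_of_nonneg_left (mul_le_mul_of_nonneg_left ?_ (by positivity)) (by positivity)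
        have h1 : Real.exp (θ * (C1 F * m + C)) / (θ * C4 ^ n) * ∫ η, G η ∂(law F) ≤
            Real.exp (θ * (C1 F * m + C)) / (θ * C4 ^ n) * C4 ^ n := mul_le_mul_of_nonneg_left hPi (by positivity)
        have h2 : Real.exp (θ * (C1 F * m + C)) / (θ * C4 ^ n) * C4 ^ n = Real.exp (θ * (C1 F * m + C)) / θ := by
          field_simp
        rw [h2] at h1
        linarith
    · intro j _
      exact (integrable_const (1 : ℝ)).indicator (hselm {w | ¬GoodL F.co R0 (F.co.L * (((j + 1) * m : ℕ) : ℤ)) w.1})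

end

end Pool.Agent.W_1b8d5d_h48
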