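import Pool.Agent.W_1b8d5d_h48.StepT

/-!
# Track P, section B: many steps (helper48)
-/

namespace Pool.Agent.W_1b8d5d_h48

open MeasureTheory ProbabilityTheory Finset
open Pool.Agent.W_1b8d5d_h85 (V nm dir Edge Env grid ke wedges cost Bd sh rf)
open Pool.Agent.W_1b8d5d_p
open Pool.Agent.W_7d29a1_f21 (lw mp_integral mp_reindex)
open Pool.Agent.W_7d29a1_h48 (Lip bint bmul bdmul)

noncomputable section

/-- The selection of insertion points for the walk `0 → (N, y)`: at least `J` times, at mutual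
distance `≥ M`; positions `c t` which are outside of the window of the cells `- Z ≤ z < Z` of width
`wc` with probability `≤ δ`, losses `lo t` with `E min (lo t) osc ≤ lam`. -/
structure Sel (F : Fm) (d : Dr) (M J Z : ℕ) (wc : ℤ) (δ lam osc : ℝ) (N : ℕ) (y : ℤ)
    (Js : Finset ℕ) (cen : ℕ → ℤ) (Bd : ℤ) (c : ℕ → Env → ℤ) (lo : ℕ → Env → ℝ) : Prop where
  card : J ≤ Js.card
  mem : ∀ t ∈ Js, 1 ≤ t ∧ t < N
  dist : ∀ t ∈ Js, ∀ t' ∈ Js, t < t' → t + M ≤ t'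
  cmeas : ∀ t ∈ Js, Measurable (c t)
  cbd : ∀ t ∈ Js, ∀ η, |c t η| ≤ Bd
  lmeas : ∀ t ∈ Js, Measurable (lo t)
  lint : ∀ t ∈ Js, Integrable (lo t) (law F)
  lnn : ∀ t ∈ Js, ∀ η, 0 ≤ lo t η
  sel : ∀ t ∈ Js, ∀ η, X F d η 0 t (c t η) + X F d η ((t : ℤ), c t η) (N - t) (y - c t η) ≤
    X F d η 0 N y + lo t η
  conf : ∀ t ∈ Js, 1 - δ ≤
    (law F).real {η | -(Z : ℤ) ≤ (c t η - cen t) / wc ∧ (c t η - cen t) / wc < Z}
  loss : ∀ t ∈ Js, ∫ η, min (lo t η) osc ∂(law F) ≤ lam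

variable {F : Fm} {d : Dr} {sl b Y : ℝ} {M : ℕ} {k : ℤ} {E : Set Env} {D : Finset Edge} {κ0 : ℝ}

lemma clip_osc (c : ℝ) {H : ℝ} (hH : 0 ≤ H) (u v : ℝ) : clip c H u ≤ clip c H v + 2 * H := by
  linarith [clip_le c hH u, clip_ge c H v]

/-- **Many steps.** -/
theorem manyT (hd : Adm F κ0 d) (hg : Antitone F.g) (hE : CoreEv F d sl b Y M k E D)
    {m N₀ J Z q Ms : ℕ} {wc uo y₀ : ℤ} (hN₀ : 1 ≤ N₀) (hm : 1 ≤ m) (hM : 1 ≤ M) (hwc : 0 < wc)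
    (hq1 : 0 < q) (hq : 2 * b < q * wc) (hZ : 1 ≤ Z) (hY : 0 < Y)
    {p A x δ lam β s E₀ : ℝ} (hp0 : 0 < p) (hp : p ≤ (law F).real E)
    (hA : ∀ u : ℤ, |u - uo| ≤ wc → ∫ η, max (X F d η 0 m u) 0 ∂(law F) ≤ A)
    (hx : ∫ η, max (X F d η 0 (m + M + m) (uo + k + uo)) 0 ∂(law F) ≤ x)
    (hδ1 : δ ≤ 1 / 8) (hβ1 : β ≤ 1 / 8) (hs : 0 ≤ s)
    (hsel : ∀ i < Ms, ∃ (Js : Finset ℕ) (cen : ℕ → ℤ) (Bd : ℤ) (c : ℕ → Env → ℤ)
      (lo : ℕ → Env → ℝ), Sel F d M J Z wc δ lam (2 * (8 * (Y + s))) (N₀ + i * (m + M + m))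
        (y₀ + i * (uo + k + uo)) Js cen Bd c lo)
    (hcon : ∀ i ≤ Ms, (law F).real {η | s ≤ |-X F d η 0 (N₀ + i * (m + M + m))
      (y₀ + i * (uo + k + uo)) - ∫ ξ, -X F d ξ 0 (N₀ + i * (m + M + m))
        (y₀ + i * (uo + k + uo)) ∂(law F)|} ≤ β)
    (hsmall : Real.log (2 * Z) + 1 + 2 * A + x * δ + lam ≤ Y / 8)
    (hE₀ : e F d N₀ y₀ - e F d (N₀ + Ms * (m + M + m)) (y₀ + Ms * (uo + k + uo)) ≤ E₀)
    (hbig : E₀ + 2 * s + 2 * (8 * (Y + s)) / 7 < Ms * Y / 4) :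
    p * J * (Y / 8) ^ 2 / (2 * Z) ≤ q * (s ^ 2 + (2 * (8 * (Y + s))) ^ 2 * β) := by
  by_contra hcontra
  rw [not_le] at hcontra
  obtain ⟨l, hl⟩ : ∃ l : ℕ, l = m + M + m := ⟨_, rfl⟩
  obtain ⟨kk, hkk⟩ : ∃ kk : ℤ, kk = uo + k + uo := ⟨_, rfl⟩
  obtain ⟨H, hH⟩ : ∃ H : ℝ, H = 8 * (Y + s) := ⟨_, rfl⟩
  rw [← hl, ← hkk] at hsel hcon hE₀
  rw [← hH] at hcontra hbig hsel
  have hH0 : 0 < H := by rw [hH]; linarith
  have hZ0 : (0 : ℝ) < Z := by exact_mod_cast (lt_of_lt_of_le one_pos hZ)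
  obtain ⟨f, hf⟩ : ∃ f : ℕ → Env → ℝ, ∀ i, f i =
    fun η => -X F d η 0 (N₀ + i * l) (y₀ + i * kk) := ⟨_, fun _ => rfl⟩
  have hfm : ∀ i, Measurable (f i) := fun i => by
    rw [hf]
    exact (X_meas F d _ _ _).neg
  have hfi : ∀ i, Integrable (f i) (law F) := fun i => by
    rw [hf]
    exact (X_integrable hd 0 (by omega) _).neg
  have hfint : ∀ i, ∫ ξ, f i ξ ∂(law F) = -e F d (N₀ + i * l) (y₀ + i * kk) := fun i => by
    rw [hf]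
    show ∫ ξ, -X F d ξ 0 (N₀ + i * l) (y₀ + i * kk) ∂(law F) = _
    rw [integral_neg]
    rfl
  refine chain_abs (P := law F) (Ms := Ms) (Y := Y) (δ := δ) (β := β) (s := s) (H := H)
    (E₀ := E₀) (F := f) hH hfm hfi hY hδ1 hβ1 hs
    (fun i hi => by
      rw [hf]
      exact hcon i hi)
    (fun i hi c g hg1 => ?_)
    (by
      rw [hfint, hfint]
      have e1 : N₀ + 0 * l = N₀ := by ring
      have e2 : y₀ + ((0 : ℕ) : ℤ) * kk = y₀ := by simp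
      rw [e1, e2]
      linarith) hbig
  by_contra hc
  rw [not_le] at hc
  obtain ⟨Js, cen, Bd, cc, lo, hS⟩ := hsel i hi
  have e1 : N₀ + i * l + l = N₀ + (i + 1) * l := by ring
  have e2 : y₀ + (i : ℤ) * kk + kk = y₀ + ((i + 1 : ℕ) : ℤ) * kk := by
    push_cast
    ring
  have h1 := stepT (F := F) (d := d) hd hg hE (m := m) (N := N₀ + i * l) (Z := Z) (q := q)
    (wc := wc) (uo := uo) (y := y₀ + i * kk) (Bd := Bd) hm hM hwc hq1 hq hZ hY (p := p) (A := A)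
    (x := x) (δ := δ) (lam := lam) (osc := 2 * H) hp0 hp hA hx Js hS.mem hS.dist cen cc hS.cmeas
    hS.cbd lo hS.lmeas hS.lint hS.lnn hS.sel hS.conf hS.loss (clip_lip c H)
    (clip_osc c hH0.le) (g := g) (K := Y / 8) (by rw [hf] at hg1; exact hg1) (by linarith)
    (by
      rw [← hl, ← hkk, e1, e2]
      rw [hf, hf] at hc
      linarith)
  rw [← hl, ← hkk, e1, e2] at h1
  have h2 := var_clip (P := law F) (hfm (i + 1)) (c := c) (H := H) (s := s) (β := β)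
    (m := ∫ ξ, f (i + 1) ξ ∂(law F)) hH0.le (by
      rw [hf]
      exact hcon (i + 1) hi)
  have h3 := mul_le_mul_of_nonneg_left h2 (Nat.cast_nonneg (α := ℝ) q)
  have h4 : p * J * (Y / 8) ^ 2 / (2 * Z) ≤ p * Js.card * (Y / 8) ^ 2 / (2 * Z) := by
    refine div_le_div_of_nonneg_right ?_ (by positivity)
    refine mul_le_mul_of_nonneg_right ?_ (sq_nonneg _)
    refine mul_le_mul_of_nonneg_left ?_ hp0.le
    exact_mod_cast hS.card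
  rw [hf] at h3
  linarith

end

end Pool.Agent.W_1b8d5d_h48
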