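import Pool.Agent.W_1b8d5d_h48.BtS
import Pool.Agent.W_1b8d5d_h48.BtP
import Pool.Agent.W_1b8d5d_h48.ManyT

/-!
# Track P, section B: good levels (BT), the uniform statement and the selection of the insertion levels (helper48)
-/

namespace Pool.Agent.W_1b8d5d_h48

open MeasureTheory ProbabilityTheory Finset
open Pool.Agent.W_1b8d5d_h85
open Pool.Agent.W_1b8d5d_p

noncomputable section

variable {F : Fm} {d : Dr} {κ : ℝ}

/-- The positions of a selected minimal walk of the slab `[0, N]` at the levels, and the bad events. -/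
structure BtD (F : Fm) (d : Dr) (N : ℕ) (y : ℤ) (R0 : ℕ) (Bd : ℤ) (c : ℕ → Env → ℤ) (bad : ℕ → Set Env) : Prop where
  cm : ∀ t, Measurable (c t)
  cb : ∀ t η, |c t η| ≤ Bd
  bm : ∀ t, MeasurableSet (bad t)
  cost : ∀ t η, 1 ≤ t → t < N → η ∉ bad t →
    X F d η 0 t (c t η) + X F d η ((t : ℤ), c t η) (N - t) (y - c t η) ≤ X F d η 0 N y + (CLs F + 2 * F.b * R0)
  pos : ∀ t η, 1 ≤ t → t < N → ∃ g : grid.Walk (F.co.vt 0) (F.co.vt ((N : ℤ), y)),
    (∀ e ∈ wedges g, e ∈ F.co.slab 0 N) ∧ Pool.Agent.W_1b8d5d_h85.cost (F.tau η) g = TT F.co (F.tau η) 0 N y ∧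
    ∃ u ∈ g.support, F.co.ps u = c t η ∧ F.co.L * (t : ℤ) ≤ F.co.tm u + F.co.M ∧ F.co.tm u < F.co.L * (t : ℤ)

/-- **(BT), uniform.** -/
theorem bt_main (hκ : 0 < κ) {A : Set Dr} (hA : ∀ d ∈ A, Adm F κ d)
    (hVV : ∀ ε > (0 : ℝ), ∀ δ > (0 : ℝ), ∃ m0 : ℕ, ∀ d ∈ A, ∀ m : ℕ, m0 ≤ m →
      (law F).real {η | ε * m < VV F d η 0 m} ≤ δ) {ε : ℝ} (hε : 0 < ε) :
    ∃ (m R0 N0 : ℕ) (ε1 : ℝ), 1 ≤ m ∧ 1 ≤ R0 ∧ 0 < ε1 ∧ ∀ d ∈ A, ∀ N : ℕ, N0 ≤ N → ∀ y : ℤ, e F d N y ≤ ε1 * N →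
      ∃ (Bd : ℤ) (c : ℕ → Env → ℤ) (bad : ℕ → Set Env), BtD F d N y R0 Bd c bad ∧
        ∑ j ∈ range ((N - 1) / m), (law F).real (bad ((j + 1) * m)) ≤ ε * (N / m) := by
  obtain ⟨ε', hε'⟩ : ∃ ε', ε' = ε * κ / 24 := ⟨_, rfl⟩
  have hε'0 : 0 < ε' := by rw [hε']; positivity
  have hC := CBt_nonneg F
  have hC1 := C1_pos F
  obtain ⟨Q, W0, lam, δ, hQ, hW0, hlam, hδ, hker⟩ := kerB_sum (F := F) hκ hC hε'0
  obtain ⟨m0, hm0⟩ := hVV ε' hε'0 δ hδ
  obtain ⟨W, hW⟩ : ∃ W, W = max W0 m0 + 1 := ⟨_, rfl⟩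
  have hW1 : 1 ≤ W := by omega
  have hWW : W0 ≤ W := by rw [hW]; exact (le_max_left _ _).trans (Nat.le_succ _)
  obtain ⟨m, hm⟩ : ∃ m, m = Q * W := ⟨_, rfl⟩
  have hm1 : 1 ≤ m := by rw [hm]; exact Nat.mul_pos (by omega) (by omega)
  have hmm0 : m0 ≤ m := by
    have h1 : m0 ≤ W := by rw [hW]; exact (le_max_right _ _).trans (Nat.le_succ _)
    have h2 : W ≤ m := by rw [hm]; exact Nat.le_mul_of_pos_left W (by omega)
    omega
  have hmr : (0 : ℝ) < m := by exact_mod_cast hm1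
  obtain ⟨θ, hθ⟩ : ∃ θ, θ = lam / m := ⟨_, rfl⟩
  have hθ0 : 0 < θ := by rw [hθ]; positivity
  obtain ⟨K1, hK1⟩ : ∃ K1, K1 = Real.exp (θ * (C1 F * m + CBt F)) / θ := ⟨_, rfl⟩
  obtain ⟨N1, hN1⟩ := exists_nat_ge (K1 / ε')
  refine ⟨m, m, max N1 1, ε', hm1, hm1, hε'0, fun d hd N hN y he => ?_⟩
  have hN2 : N1 ≤ N := (le_max_left _ _).trans hN
  have hN3 : 1 ≤ N := (le_max_right _ _).trans hN
  obtain ⟨n, hn⟩ : ∃ n, n = (N - 1) / m := ⟨_, rfl⟩
  have hn1 : n * m < N := by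
    have := Nat.div_mul_le_self (N - 1) m
    rw [← hn] at this
    omega
  have hn2 : N ≤ (n + 1) * m := by
    have h3 := Nat.lt_mul_div_succ (N - 1) hm1
    rw [← hn] at h3
    have h4 : m * (n + 1) = (n + 1) * m := by ring
    omega
  have hadm := hA d hd
  have hV := hm0 d hd m hmm0
  rw [hm] at hV
  have hS := hker W hWW d hadm hV
  rw [← hm] at hS
  obtain ⟨Bd, c, bad, h1, h2, h3, h4, h5, h6⟩ := bt_sel hadm (N := N) (m := m) (n := n) (W := W) (R0 := m) hm1 hW1 hm1 hn1 hn2 y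
    (θ := θ) (C := CBt F) (C4 := Real.exp (4 * ε' * lam)) hθ0 le_rfl (Real.exp_pos _) (fun I =>
      PfB_mean hadm hθ0.le (by have := b_pos F; have hM : (1 : ℝ) ≤ F.co.M := by exact_mod_cast F.co.M_pos
                               positivity)
        (by have hM : (1 : ℝ) ≤ F.co.M := by exact_mod_cast F.co.M_pos
            positivity) hm1 I (by rw [hθ]; exact hS) n 0 0)
  refine ⟨Bd, c, bad, ⟨h1, h2, h3, h4, h5⟩, ?_⟩
  rw [← hn]
  refine h6.trans ?_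
  rw [Real.log_exp, ← hK1]
  have e1 : (n : ℝ) * (4 * ε' * lam) / θ = 4 * ε' * (n * m) := by
    rw [hθ]
    field_simp
  rw [e1]
  have e2 : (n : ℝ) * m ≤ N := by exact_mod_cast hn1.le
  have e3 : K1 ≤ ε' * N := by
    have h7 : K1 / ε' ≤ N := hN1.trans (by exact_mod_cast hN2)
    rwa [div_le_iff₀' hε'0] at h7
  have e4 : e F d N y + 4 * ε' * (n * m) + K1 ≤ 6 * ε' * N := by nlinarith
  have e5 : (1 / (m : ℝ) + 1 / m) * (2 / κ * (e F d N y + 4 * ε' * (n * m) + K1)) ≤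
      (1 / (m : ℝ) + 1 / m) * (2 / κ * (6 * ε' * N)) :=
    mul_le_mul_of_nonneg_left (mul_le_mul_of_nonneg_left e4 (by positivity)) (by positivity)
  refine e5.trans (le_of_eq ?_)
  rw [hε']
  field_simp
  ring

/-- A set of integers contains a separated subset. -/
lemma exists_sep (G : Finset ℕ) {D : ℕ} (hD : 1 ≤ D) : ∃ G' ⊆ G, G.card ≤ D * G'.card ∧
    ∀ i ∈ G', ∀ j ∈ G', i < j → i + D ≤ j := by
  classical
  obtain ⟨r, hr, hmax⟩ := Finset.exists_max_image (Finset.range D) (fun r => (G.filter fun j => j % D = r).card)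
    ⟨0, by rw [Finset.mem_range]; omega⟩
  refine ⟨G.filter fun j => j % D = r, Finset.filter_subset _ _, ?_, ?_⟩
  · have h1 : G.card = ∑ r ∈ Finset.range D, (G.filter fun j => j % D = r).card :=
      Finset.card_eq_sum_card_fiberwise fun j _ => by
        simp only [Finset.coe_range, Set.mem_Iio]
        exact Nat.mod_lt _ hD
    rw [h1]
    calc ∑ r ∈ Finset.range D, (G.filter fun j => j % D = r).card
        ≤ ∑ _ ∈ Finset.range D, (G.filter fun j => j % D = r).card := Finset.sum_le_sum hmax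
      _ = D * (G.filter fun j => j % D = r).card := by rw [Finset.sum_const, Finset.card_range, smul_eq_mul]
  · intro i hi j hj hij
    rw [Finset.mem_filter] at hi hj
    have h1 : (j - i) % D = 0 := by
      have h2 : i ≡ j [MOD D] := by
        unfold Nat.ModEq
        rw [hi.2, hj.2]
      exact Nat.sub_mod_eq_zero_of_mod_eq (by rw [hi.2, hj.2])
    have h2 : D ∣ j - i := Nat.dvd_of_mod_eq_zero h1
    have h3 := Nat.le_of_dvd (by omega) h2
    omega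

/-- The loss of the cut at the position `c t`. -/
def loT (F : Fm) (d : Dr) (N : ℕ) (y : ℤ) (c : ℕ → Env → ℤ) (t : ℕ) (η : Env) : ℝ :=
  max (X F d η 0 t (c t η) + X F d η ((t : ℤ), c t η) (N - t) (y - c t η) - X F d η 0 N y) 0

section lo

variable {N R0 : ℕ} {y Bd : ℤ} {c : ℕ → Env → ℤ} {bad : ℕ → Set Env}

lemma rand_meas {f : Env → ℤ → ℝ} (hf : ∀ k, Measurable fun η => f η k) {c : Env → ℤ} (hc : Measurable c) :
    Measurable fun η => f η (c η) := by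
  have h1 : Measurable (Function.uncurry f) := measurable_from_prod_countable_left hf
  exact h1.comp (measurable_id.prodMk hc)

set_option maxHeartbeats 400000 in
lemma loT_meas (hB : BtD F d N y R0 Bd c bad) (t : ℕ) : Measurable (loT F d N y c t) := by
  have h1 := rand_meas (f := fun η k => X F d η 0 t k) (fun k => X_meas F d 0 t k) (hB.cm t)
  have h2 := rand_meas (f := fun η k => X F d η ((t : ℤ), k) (N - t) (y - k))
    (fun k => X_meas F d ((t : ℤ), k) (N - t) (y - k)) (hB.cm t)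
  have h3 := (h1.add h2).sub (X_meas F d 0 N y)
  exact Measurable.max h3 measurable_const

set_option maxHeartbeats 400000 in
lemma loT_int (hd : Adm F κ d) (hB : BtD F d N y R0 Bd c bad) {t : ℕ} (ht1 : 1 ≤ t) (htN : t < N) :
    Integrable (loT F d N y c t) (law F) := by
  have hb := b_pos F
  have hM : (1 : ℝ) ≤ F.co.M := by exact_mod_cast F.co.M_pos
  obtain ⟨K, hK⟩ : ∃ K : ℝ, K = (C1 F * t + 2 * F.b * (F.co.M * Bd) + 4 * F.b) +
    (C1 F * (N - t : ℕ) + 2 * F.b * (F.co.M * (|(y : ℝ)| + Bd)) + 4 * F.b) +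
    (C1 F * N + 2 * F.b * (F.co.M * |(y : ℝ)|) + 4 * F.b) := ⟨_, rfl⟩
  refine (integrable_const K).mono' (loT_meas hB t).aestronglyMeasurable (Filter.Eventually.of_forall fun η => ?_)
  have hcb : |(c t η : ℝ)| ≤ Bd := by
    rw [← Int.cast_abs]
    exact_mod_cast hB.cb t η
  have h1 := abs_X_le hd η 0 ht1 (c t η)
  have h2 := abs_X_le hd η ((t : ℤ), c t η) (n := N - t) (by omega) (y - c t η)
  have h3 := abs_X_le hd η 0 (n := N) (by omega) y
  have h5 : |((y - c t η : ℤ) : ℝ)| ≤ |(y : ℝ)| + Bd := by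
    push_cast
    exact (abs_sub _ _).trans (by linarith)
  have h6 : 2 * F.b * (F.co.M * |(c t η : ℝ)|) ≤ 2 * F.b * (F.co.M * Bd) :=
    mul_le_mul_of_nonneg_left (mul_le_mul_of_nonneg_left hcb (by linarith)) (by linarith)
  have h7 : 2 * F.b * (F.co.M * |((y - c t η : ℤ) : ℝ)|) ≤ 2 * F.b * (F.co.M * (|(y : ℝ)| + Bd)) :=
    mul_le_mul_of_nonneg_left (mul_le_mul_of_nonneg_left h5 (by linarith)) (by linarith)
  have h8 := abs_le.1 h1
  have h9 := abs_le.1 h2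
  have h10 := abs_le.1 h3
  have a1 := abs_nonneg (X F d η 0 t (c t η))
  have a2 := abs_nonneg (X F d η ((t : ℤ), c t η) (N - t) (y - c t η))
  have a3 := abs_nonneg (X F d η 0 N y)
  have hK0 : 0 ≤ K := by
    rw [hK]
    linarith
  unfold loT
  rw [Real.norm_eq_abs, abs_of_nonneg (le_max_right _ _)]
  refine max_le ?_ hK0
  rw [hK]
  linarith [h8.2, h9.2, h10.1]

set_option maxHeartbeats 400000 in
lemma loT_loss (hd : Adm F κ d) (hB : BtD F d N y R0 Bd c bad) {t : ℕ} (ht1 : 1 ≤ t) (htN : t < N) {δ1 lam osc : ℝ}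
    (hosc : 0 ≤ osc) (hbt : (law F).real (bad t) ≤ δ1) (hlam : CLs F + 2 * F.b * R0 + osc * δ1 ≤ lam) :
    ∫ η, min (loT F d N y c t η) osc ∂(law F) ≤ lam := by
  have hb := b_pos F
  have hHc := CBt_nonneg F
  have hCLs : 0 ≤ CLs F := by unfold CLs; linarith
  have hR0 : 0 ≤ 2 * F.b * (R0 : ℝ) := by positivity
  have h1 : ∀ η, min (loT F d N y c t η) osc ≤
      (CLs F + 2 * F.b * R0) + osc * (bad t).indicator (fun _ => (1 : ℝ)) η := by
    intro η
    by_cases hη : η ∈ bad t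
    · rw [Set.indicator_of_mem hη]
      exact (min_le_right _ _).trans (by linarith)
    · rw [Set.indicator_of_notMem hη]
      refine (min_le_left _ _).trans (max_le ?_ (by linarith))
      have := hB.cost t η ht1 htN hη
      linarith
  have h2 : Integrable (fun η => min (loT F d N y c t η) osc) (law F) := (loT_int hd hB ht1 htN).inf (integrable_const osc)
  have hi : Integrable (fun η => (bad t).indicator (fun _ => (1 : ℝ)) η) (law F) :=
    (integrable_const (1 : ℝ)).indicator (hB.bm t)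
  have h3 : Integrable (fun η => (CLs F + 2 * F.b * R0) + osc * (bad t).indicator (fun _ => (1 : ℝ)) η) (law F) :=
    (integrable_const _).add (hi.const_mul osc)
  refine (integral_mono h2 h3 h1).trans ?_
  rw [integral_add (integrable_const _) (hi.const_mul osc), integral_const, probReal_univ, one_smul, integral_const_mul]
  have h4 : ∫ η, (bad t).indicator (fun _ => (1 : ℝ)) η ∂(law F) = (law F).real (bad t) :=
    integral_indicator_one (hB.bm t)
  rw [h4]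
  have := mul_le_mul_of_nonneg_left hbt hosc
  linarith

set_option maxHeartbeats 400000 in
lemma btD_conf (hB : BtD F d N y R0 Bd c bad) {t : ℕ} (ht1 : 1 ≤ t) (htN : t < N) {ρ δ : ℝ} {Bt : Set Env}
    (hBt : (law F).real Bt ≤ δ)
    (htube : ∀ η, η ∉ Bt → ∀ g : grid.Walk (F.co.vt 0) (F.co.vt ((N : ℤ), y)), (∀ e ∈ wedges g, e ∈ F.co.slab 0 N) →
      cost (F.tau η) g = TT F.co (F.tau η) 0 N y →
      ∀ v ∈ g.support, |(F.co.ps v : ℝ) - d.v * ((F.co.tm v : ℝ) / F.co.L)| ≤ ρ)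
    {Z : ℕ} {wc : ℤ} (hwc : 0 < wc) (hZ : ρ + |d.v| + 1 < Z * wc) :
    1 - δ ≤ (law F).real {η | -(Z : ℤ) ≤ (c t η - ⌊d.v * t⌋) / wc ∧ (c t η - ⌊d.v * t⌋) / wc < Z} := by
  have hL := F.co.L_pos
  have hLr : (0 : ℝ) < F.co.L := by exact_mod_cast (by omega : 0 < F.co.L)
  have key : ∀ η, η ∉ Bt → |c t η - ⌊d.v * t⌋| < Z * wc := by
    intro η hη
    obtain ⟨g, hg1, hg2, u, hu, hu1, hu2, hu3⟩ := hB.pos t η ht1 htN
    have h2 := htube η hη g hg1 hg2 u hu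
    rw [hu1] at h2
    have h3 : |d.v * ((F.co.tm u : ℝ) / F.co.L) - d.v * t| ≤ |d.v| := by
      rw [← mul_sub, abs_mul]
      refine mul_le_of_le_one_right (abs_nonneg _) ?_
      have h4 : (F.co.tm u : ℝ) / F.co.L - t = ((F.co.tm u : ℝ) - F.co.L * t) / F.co.L := by
        field_simp
      rw [h4, abs_div, abs_of_pos hLr, div_le_one hLr]
      have h5 : ((F.co.tm u : ℤ) : ℝ) < F.co.L * t := by exact_mod_cast hu3
      have h6 : (F.co.L : ℝ) * t ≤ F.co.tm u + F.co.M := by exact_mod_cast hu2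
      have h7 : (F.co.M : ℝ) ≤ F.co.L := by
        have := F.co.L_eq
        exact_mod_cast (by omega : F.co.M ≤ F.co.L)
      rw [abs_of_nonpos (by linarith)]
      linarith
    have h5 := Int.floor_le (d.v * t)
    have h6 := Int.lt_floor_add_one (d.v * t)
    have h7 : |d.v * t - ⌊d.v * t⌋| ≤ 1 := by
      rw [abs_of_nonneg (by linarith)]
      linarith
    have h8 : (c t η : ℝ) - ⌊d.v * t⌋ = ((c t η : ℝ) - d.v * ((F.co.tm u : ℝ) / F.co.L)) +
        ((d.v * ((F.co.tm u : ℝ) / F.co.L) - d.v * t) + (d.v * t - ⌊d.v * t⌋)) := by ring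
    have h4 : |(c t η : ℝ) - ⌊d.v * t⌋| ≤ ρ + |d.v| + 1 := by
      rw [h8]
      refine (abs_add_le _ _).trans ?_
      have h9 := abs_add_le (d.v * ((F.co.tm u : ℝ) / F.co.L) - d.v * t) (d.v * t - ⌊d.v * t⌋)
      linarith
    have h10 : ((|c t η - ⌊d.v * t⌋| : ℤ) : ℝ) < ((Z * wc : ℤ) : ℝ) := by
      push_cast
      exact h4.trans_lt hZ
    exact_mod_cast h10
  have h1 : (Set.univ : Set Env) ⊆ {η | -(Z : ℤ) ≤ (c t η - ⌊d.v * t⌋) / wc ∧ (c t η - ⌊d.v * t⌋) / wc < Z} ∪ Bt := by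
    intro η _
    by_cases hη : η ∈ Bt
    · exact Or.inr hη
    · left
      obtain ⟨h7, h8⟩ := abs_lt.1 (key η hη)
      exact ⟨Int.le_ediv_of_mul_le hwc (by linarith), Int.ediv_lt_of_lt_mul hwc h8⟩
  have h2 := measureReal_mono (μ := law F) h1
  rw [probReal_univ] at h2
  have h3 := measureReal_union_le (μ := law F)
    {η | -(Z : ℤ) ≤ (c t η - ⌊d.v * t⌋) / wc ∧ (c t η - ⌊d.v * t⌋) / wc < Z} Bt
  linarith

set_option maxHeartbeats 400000 in
/-- The good levels. -/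
lemma exists_levels {P : ℕ → ℝ} (hP : ∀ t, 0 ≤ P t) {m J D Mc : ℕ} (hm : 1 ≤ m) (hD : 1 ≤ D) (hMc : Mc ≤ D * m)
    {ε δ1 : ℝ} (hδ1 : 0 < δ1) (hbad : ∑ j ∈ range ((N - 1) / m), P ((j + 1) * m) ≤ ε * (N / m)) (hε : 4 * ε ≤ δ1)
    (hN : 4 * m ≤ N) (hJ : 2 * (J * (D * m)) ≤ N) :
    ∃ Js : Finset ℕ, J ≤ Js.card ∧ (∀ t ∈ Js, 1 ≤ t ∧ t < N ∧ P t ≤ δ1) ∧
      ∀ t ∈ Js, ∀ t' ∈ Js, t < t' → t + Mc ≤ t' := by
  classical
  have hmr : (0 : ℝ) < m := by exact_mod_cast hm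
  obtain ⟨n, hn⟩ : ∃ n, n = (N - 1) / m := ⟨_, rfl⟩
  rw [← hn] at hbad
  have hn1 : n * m < N := by
    have := Nat.div_mul_le_self (N - 1) m
    rw [← hn] at this
    omega
  have hn2 : N ≤ (n + 1) * m := by
    have h3 := Nat.lt_mul_div_succ (N - 1) hm
    rw [← hn] at h3
    have h4 : m * (n + 1) = (n + 1) * m := by ring
    omega
  obtain ⟨G, hG⟩ : ∃ G, G = (Finset.range n).filter fun j => P ((j + 1) * m) ≤ δ1 := ⟨_, rfl⟩
  obtain ⟨Gc, hGc⟩ : ∃ Gc, Gc = (Finset.range n).filter fun j => ¬P ((j + 1) * m) ≤ δ1 := ⟨_, rfl⟩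
  have hcards : G.card + Gc.card = n := by
    rw [hG, hGc, Finset.card_filter_add_card_filter_not, Finset.card_range]
  have hGc1 : (Gc.card : ℝ) * δ1 ≤ ε * (N / m) := by
    refine le_trans ?_ hbad
    have h1 : (Gc.card : ℝ) * δ1 = ∑ _ ∈ Gc, δ1 := by rw [Finset.sum_const, nsmul_eq_mul]
    rw [h1]
    refine le_trans (Finset.sum_le_sum (f := fun _ => δ1) (g := fun j => P ((j + 1) * m)) fun j hj => ?_) ?_
    · rw [hGc, Finset.mem_filter] at hj
      exact (not_le.1 hj.2).le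
    · exact Finset.sum_le_sum_of_subset_of_nonneg (by rw [hGc]; exact Finset.filter_subset _ _)
        fun j _ _ => hP _
  have hGc2 : 4 * (Gc.card : ℝ) * m ≤ N := by
    have h0 : (0 : ℝ) ≤ N / m := by positivity
    have h1 : 4 * ((Gc.card : ℝ) * δ1) ≤ δ1 * (N / m) := by nlinarith
    have h2 : 4 * (Gc.card : ℝ) ≤ N / m := by
      have : δ1 * (4 * (Gc.card : ℝ)) ≤ δ1 * (N / m) := by linarith
      exact le_of_mul_le_mul_left this hδ1
    rwa [le_div_iff₀ hmr] at h2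
  obtain ⟨G', hG'1, hG'2, hG'3⟩ := exists_sep G hD
  have hcardJ : J ≤ G'.card := by
    by_contra hc
    push Not at hc
    have h1 : G.card ≤ D * (J - 1) := hG'2.trans (Nat.mul_le_mul_left D (by omega))
    have h3 : (n : ℝ) = G.card + Gc.card := by exact_mod_cast hcards.symm
    have h4 : (N : ℝ) ≤ (n + 1) * m := by exact_mod_cast hn2
    have h5 : (G.card : ℝ) ≤ D * (J - 1) := by
      have h51 : ((J - 1 : ℕ) : ℝ) = J - 1 := by
        rw [Nat.cast_sub (by omega : 1 ≤ J)]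
        simp
      rw [← h51]
      exact_mod_cast h1
    have h6 : 2 * ((J : ℝ) * (D * m)) ≤ N := by exact_mod_cast hJ
    have h7 : 4 * (m : ℝ) ≤ N := by exact_mod_cast hN
    have hDr : (1 : ℝ) ≤ D := by exact_mod_cast hD
    have h8 : (G.card : ℝ) * m ≤ D * (J - 1) * m := mul_le_mul_of_nonneg_right h5 hmr.le
    have h9 : (m : ℝ) ≤ D * m := le_mul_of_one_le_left hmr.le hDr
    have h10 : (N : ℝ) ≤ (G.card : ℝ) * m + (Gc.card : ℝ) * m + m := by
      rw [h3] at h4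
      linarith
    have h11 : (D : ℝ) * (J - 1) * m = J * (D * m) - D * m := by ring
    rw [h11] at h8
    linarith
  refine ⟨G'.image fun j => (j + 1) * m, ?_, ?_, ?_⟩
  · have hinj : Function.Injective fun j : ℕ => (j + 1) * m := fun i j h => by
      have : i + 1 = j + 1 := Nat.eq_of_mul_eq_mul_right hm h
      omega
    rwa [Finset.card_image_of_injective _ hinj]
  · intro t ht
    rw [Finset.mem_image] at ht
    obtain ⟨j, hj, rfl⟩ := ht
    have h1 := hG'1 hj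
    rw [hG, Finset.mem_filter, Finset.mem_range] at h1
    refine ⟨Nat.mul_pos (by omega) hm, ?_, h1.2⟩
    have h2 : (j + 1) * m ≤ n * m := Nat.mul_le_mul_right m (by omega)
    omega
  · intro t ht t' ht' htt
    rw [Finset.mem_image] at ht ht'
    obtain ⟨i, hi, rfl⟩ := ht
    obtain ⟨j, hj, rfl⟩ := ht'
    have h1 : i < j := by
      by_contra hc
      have := Nat.mul_le_mul_right m (show j + 1 ≤ i + 1 by omega)
      omega
    have h2 := hG'3 i hi j hj h1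
    calc (i + 1) * m + Mc ≤ (i + 1) * m + D * m := by omega
      _ = (i + 1 + D) * m := by ring
      _ ≤ (j + 1) * m := Nat.mul_le_mul_right m (by omega)

set_option maxHeartbeats 400000 in
/-- **The selection of the insertion levels.** -/
theorem sel_of (hd : Adm F κ d) {m J D Mc Z : ℕ} {wc : ℤ}
    (hB : BtD F d N y R0 Bd c bad) (hm : 1 ≤ m) (hD : 1 ≤ D) (hMc : Mc ≤ D * m) {ε δ1 : ℝ} (hδ1 : 0 < δ1)
    (hbad : ∑ j ∈ range ((N - 1) / m), (law F).real (bad ((j + 1) * m)) ≤ ε * (N / m)) (hε : 4 * ε ≤ δ1)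
    (hN : 4 * m ≤ N) (hJ : 2 * (J * (D * m)) ≤ N) (hwc : 0 < wc) {ρ δ lam osc : ℝ} (hosc : 0 ≤ osc)
    {Bt : Set Env} (hBt : (law F).real Bt ≤ δ)
    (htube : ∀ η, η ∉ Bt → ∀ g : grid.Walk (F.co.vt 0) (F.co.vt ((N : ℤ), y)), (∀ e ∈ wedges g, e ∈ F.co.slab 0 N) →
      cost (F.tau η) g = TT F.co (F.tau η) 0 N y →
      ∀ v ∈ g.support, |(F.co.ps v : ℝ) - d.v * ((F.co.tm v : ℝ) / F.co.L)| ≤ ρ)
    (hZ : ρ + |d.v| + 1 < Z * wc) (hlam : CLs F + 2 * F.b * R0 + osc * δ1 ≤ lam) :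
    ∃ (Js : Finset ℕ) (cen : ℕ → ℤ) (Bd : ℤ) (c : ℕ → Env → ℤ) (lo : ℕ → Env → ℝ),
      Sel F d Mc J Z wc δ lam osc N y Js cen Bd c lo := by
  obtain ⟨Js, hJ1, hJ2, hJ3⟩ := exists_levels (P := fun t => (law F).real (bad t)) (fun t => measureReal_nonneg) hm hD hMc
    hδ1 hbad hε hN hJ
  refine ⟨Js, fun t => ⌊d.v * t⌋, Bd, c, loT F d N y c, ?_⟩
  refine ⟨hJ1, fun t ht => ⟨(hJ2 t ht).1, (hJ2 t ht).2.1⟩, hJ3, fun t _ => hB.cm t, fun t _ η => hB.cb t η,
    fun t _ => loT_meas hB t, fun t ht => loT_int hd hB (hJ2 t ht).1 (hJ2 t ht).2.1, fun t _ η => le_max_right _ _,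
    fun t _ η => ?_, fun t ht => btD_conf hB (hJ2 t ht).1 (hJ2 t ht).2.1 hBt htube hwc hZ,
    fun t ht => loT_loss hd hB (hJ2 t ht).1 (hJ2 t ht).2.1 hosc (hJ2 t ht).2.2 hlam⟩
  have := le_max_left (X F d η 0 t (c t η) + X F d η ((t : ℤ), c t η) (N - t) (y - c t η) - X F d η 0 N y) 0
  unfold loT
  linarith

end lo

end

end Pool.Agent.W_1b8d5d_h48
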