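import Pool.Agent.W_1b8d5d_h48.BtDefs

/-!
# Track P, section B: good levels (BT), the walk (helper48)
-/

namespace Pool.Agent.W_1b8d5d_h48

open MeasureTheory ProbabilityTheory Finset
open Pool.Agent.W_1b8d5d_h85
open Pool.Agent.W_1b8d5d_p

noncomputable section

/-- Between the first visit of the times `≥ K` and the last visit of the times `≤ K` the walk has at most `R0` steps. -/
def GoodL (c : Co) (R0 : ℕ) (K : ℤ) {x y : V} (w : grid.Walk x y) : Prop :=
  ∃ (u v : V) (w1 : grid.Walk x u) (w2 : grid.Walk u v) (w3 : grid.Walk v y), w = w1.append (w2.append w3) ∧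
    (∀ z ∈ w1.support, c.tm z < K) ∧ (∀ z ∈ w3.support, K < c.tm z) ∧ K ≤ c.tm u + c.M ∧ c.tm v ≤ K + c.M ∧
    w2.length ≤ R0

/-- The constant of the cuts. -/
def CBt (F : Fm) : ℝ := F.b * (F.co.M * F.co.R) + C0 F.co F.b + 4 * (F.b * F.co.M) + 4 * F.b

lemma CBt_ge (F : Fm) : C0 F.co F.b ≤ CBt F := by
  have hb := b_pos F
  have h1 : (1 : ℝ) ≤ F.co.M := by exact_mod_cast F.co.M_pos
  have h2 : (1 : ℝ) ≤ F.co.R := by exact_mod_cast F.co.R_pos
  have h3 : 0 ≤ F.b * (F.co.M * F.co.R) := by positivity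
  have h4 : 0 ≤ 4 * (F.b * F.co.M) := by positivity
  unfold CBt
  linarith

lemma CBt_nonneg (F : Fm) : 0 ≤ CBt F := (C0_nonneg F.co (b_pos F).le).trans (CBt_ge F)

variable {F : Fm} {d : Dr} {κ : ℝ}

/-- The rounding of a vertex to a block time. -/
lemma nm_round_le (c : Co) (t : ℤ) (z : V) (h1 : c.L * t ≤ c.tm z + c.M) (h2 : c.tm z ≤ c.L * t + c.M) :
    nm (c.vt (t, c.ps z) - z) ≤ c.M * c.R := by
  have hR1 : (1 : ℝ) ≤ c.R := by exact_mod_cast c.R_pos
  have h3 : |((c.L * t - c.tm z : ℤ) : ℝ)| ≤ c.M := by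
    have h4 : |(c.L * t - c.tm z : ℤ)| ≤ c.M := by
      rw [abs_le]
      constructor <;> omega
    rw [← Int.cast_abs]
    exact_mod_cast h4
  rw [nm_round, Int.cast_abs, mul_comm]
  exact mul_le_mul_of_nonneg_right h3 (by linarith)

/-- A walk of a slab, from the first rows to the last rows, in terms of `X`. -/
lemma piece_X (hd : Adm F κ d) (η : Env) {s : ℤ} {n : ℕ} (hn : 1 ≤ n) {x u : V} (w : grid.Walk x u)
    (hw : ∀ e ∈ wedges w, e ∈ F.co.slab s (s + n))
    (hx : F.co.L * s ≤ F.co.tm x ∧ F.co.tm x ≤ F.co.L * s + F.co.M)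
    (hu : F.co.L * (s + n) ≤ F.co.tm u + F.co.M ∧ F.co.tm u ≤ F.co.L * (s + n)) :
    X F d η (s, F.co.ps x) n (F.co.ps u - F.co.ps x) ≤
      cost (F.tau η) w - d.H (u - x) + C0 F.co F.b := by
  have hb := b_pos F
  have hL := F.co.L_pos
  have hLM := F.co.L_eq
  have hM := F.co.M_pos
  have hst : s < s + n := by omega
  have hLn : F.co.L * s + F.co.L ≤ F.co.L * (s + n) := by
    have : F.co.L * (s + 1) ≤ F.co.L * (s + n) := mul_le_mul_of_nonneg_left (by omega) (by omega)
    linarith [mul_add F.co.L s 1]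
  obtain ⟨p0, hp0, lp0⟩ := Co.slab_conn (c := F.co) (s := s) (t := s + n) hst (x := F.co.vt (s, F.co.ps x)) (y := x)
    (by rw [Co.tm_vt]; exact ⟨le_rfl, (by omega : F.co.L * s ≤ F.co.L * (s + n))⟩) ⟨hx.1, by omega⟩
  obtain ⟨p1, hp1, lp1⟩ := Co.slab_conn (c := F.co) (s := s) (t := s + n) hst (x := u)
    (y := F.co.vt (s + n, F.co.ps u)) ⟨by omega, hu.2⟩
    (by rw [Co.tm_vt]; exact ⟨(by omega : F.co.L * s ≤ F.co.L * (s + n)), le_rfl⟩)
  have n0 := nm_round_le F.co s x (by omega) hx.2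
  have n1 := nm_round_le F.co (s + n) u hu.1 (by omega)
  have h0 : nm (x - F.co.vt (s, F.co.ps x)) ≤ F.co.M * F.co.R := by rw [nm_sub_comm]; exact n0
  have hT := TR_le (F.bd η) F.a0.le (p0.append (w.append p1)) (S := F.co.slab s (s + n)) (by
    intro e he
    rw [wedges_append, wedges_append, List.mem_append,
      List.mem_append] at he
    exact he.elim (hp0 e) (fun h => h.elim (hw e) (hp1 e)))
  rw [cost_append, cost_append] at hT
  have c0 := cost_le (F.bd η) p0
  have c1 := cost_le (F.bd η) p1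
  have c2 : F.b * p0.length ≤ F.b * (F.co.M * F.co.R + 4) := mul_le_mul_of_nonneg_left (by linarith) hb.le
  have c3 : F.b * p1.length ≤ F.b * (F.co.M * F.co.R + 4) := mul_le_mul_of_nonneg_left (by linarith) hb.le
  have e1 : ((s, F.co.ps x) : Pt) + ((n : ℤ), F.co.ps u - F.co.ps x) = (s + n, F.co.ps u) := by
    ext <;> simp
  rw [X_eq]
  unfold TT
  rw [e1]
  have e2 : F.co.vt ((n : ℤ), F.co.ps u - F.co.ps x) =
      (F.co.vt (s + n, F.co.ps u) - u) + ((u - x) + (x - F.co.vt (s, F.co.ps x))) := by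
    have h2 : (((n : ℤ), F.co.ps u - F.co.ps x) : Pt) = (s + n, F.co.ps u) - (s, F.co.ps x) := by
      ext <;> simp
    rw [h2, Co.vt_sub]
    abel
  rw [e2, d.H_add, d.H_add]
  have H1 := hd.H_le (F.co.vt (s + n, F.co.ps u) - u)
  have H2 := hd.H_le (x - F.co.vt (s, F.co.ps x))
  have H3 : F.b * nm (F.co.vt (s + n, F.co.ps u) - u) ≤ F.b * (F.co.M * F.co.R) :=
    mul_le_mul_of_nonneg_left n1 hb.le
  have H4 : F.b * nm (x - F.co.vt (s, F.co.ps x)) ≤ F.b * (F.co.M * F.co.R) := mul_le_mul_of_nonneg_left h0 hb.le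
  have H5 := (abs_le.1 H1).1
  have H6 := (abs_le.1 H2).1
  simp only at hT ⊢
  unfold C0
  linarith

/-- The excess of a walk which makes almost no progress in time. -/
lemma loop_ge (hd : Adm F κ d) (η : Env) {u v : V} (w : grid.Walk u v) (h : F.co.tm v ≤ F.co.tm u + 2 * F.co.M) :
    κ * w.length - 4 * (F.b * F.co.M) ≤ cost (F.tau η) w - d.H (v - u) := by
  have hM := F.co.M_pos
  have h1 := hd.back' (z := v - u) (t := (2 * F.co.M).toNat) (by
    rw [F.co.tm_sub, Int.toNat_of_nonneg (by omega)]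
    linarith)
  have h2 : (((2 * F.co.M).toNat : ℕ) : ℝ) = 2 * F.co.M := by
    have := Int.toNat_of_nonneg (a := 2 * F.co.M) (by omega)
    exact_mod_cast this
  rw [h2] at h1
  have h3 := le_cost (F.bd η) w
  have h4 := nm_le_length w
  have h5 : κ * (w.length - nm (v - u)) ≤ F.a * (w.length - nm (v - u)) :=
    mul_le_mul_of_nonneg_right hd.κ_lt (by linarith)
  nlinarith

/-- The time of a walk grows by at most `M` per step. -/
lemma tm_walk (c : Co) {u v : V} (w : grid.Walk u v) : ∀ z ∈ w.support, c.tm z ≤ c.tm u + c.M * w.length := by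
  induction w with
  | @nil u =>
    intro z hz
    rw [SimpleGraph.Walk.support_nil, List.mem_singleton] at hz
    subst hz
    simp
  | @cons u v' v h w ih =>
    intro z hz
    have hM := c.M_pos
    rw [SimpleGraph.Walk.support_cons, List.mem_cons] at hz
    have h1 := (tm_adj c h).1
    rw [SimpleGraph.Walk.length_cons]
    push_cast
    rcases hz with rfl | hz
    · have : (0 : ℤ) ≤ c.M * (w.length + 1) := by positivity
      linarith
    · have := ih z hz
      linarith [mul_add c.M (w.length : ℤ) 1]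

/-- The lateral distance of the ends of a walk. -/
lemma ps_walk (c : Co) {t : ℤ} {u v : V} (w : grid.Walk u v) (h1 : c.L * t ≤ c.tm u + c.M)
    (h2 : c.tm u ≤ c.L * t + c.M) (h3 : c.L * t ≤ c.tm v + c.M) (h4 : c.tm v ≤ c.L * t + c.M) :
    c.M * |(c.ps v : ℝ) - c.ps u| ≤ w.length + 2 * (c.M * c.R) := by
  have n1 := nm_round_le c t u h1 h2
  have n2 := nm_round_le c t v h3 h4
  have n3 := nm_le_length w
  have h5 : c.vt (0, c.ps v - c.ps u) = (c.vt (t, c.ps v) - v) + ((v - u) + (u - c.vt (t, c.ps u))) := by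
    have h2 : ((0 : ℤ), c.ps v - c.ps u) = ((t, c.ps v) : Pt) - (t, c.ps u) := by ext <;> simp
    rw [h2, Co.vt_sub]
    abel
  have h6 := c.nm_lat (c.ps v - c.ps u)
  rw [h5] at h6
  have h7 := nm_add_le (c.vt (t, c.ps v) - v) ((v - u) + (u - c.vt (t, c.ps u)))
  have h8 := nm_add_le (v - u) (u - c.vt (t, c.ps u))
  have h9 : nm (u - c.vt (t, c.ps u)) ≤ c.M * c.R := by rw [nm_sub_comm]; exact n1
  push_cast at h6
  linarith

/-- The number of the bad levels `L ((i + 1 + j) m)`, `j < r`. -/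
def badN (c : Co) (R0 m i r : ℕ) {x y : V} (w : grid.Walk x y) : ℕ := by
  classical exact ((Finset.range r).filter fun j => ¬GoodL c R0 (c.L * (((i + 1 + j) * m : ℕ) : ℤ)) w).card

lemma card_small (m n r : ℕ) (hm : 1 ≤ m) : m * ((Finset.range r).filter fun j => (j + 1) * m ≤ n).card ≤ n := by
  have h1 : ((Finset.range r).filter fun j => (j + 1) * m ≤ n) ⊆ Finset.range (n / m) := by
    intro j hj
    rw [Finset.mem_filter] at hj
    rw [Finset.mem_range]
    have := (Nat.le_div_iff_mul_le (by omega)).2 hj.2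
    omega
  have h2 := Finset.card_le_card h1
  rw [Finset.card_range] at h2
  calc m * _ ≤ m * (n / m) := Nat.mul_le_mul_left m h2
    _ ≤ n := Nat.mul_div_le n m

/-- The bad levels of a walk are the bad levels of the piece after the last visit of the first level, up to the levels which are
reached by the loop at the first level. -/
lemma badN_step (c : Co) {R0 m i r : ℕ} {x u v y : V} (w1 : grid.Walk x u) (w2 : grid.Walk u v)
    (w3 : grid.Walk v y) (h1 : ∀ z ∈ w1.support, c.tm z < c.L * (((i + 1) * m : ℕ) : ℤ))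
    (h3 : ∀ z ∈ w3.support, c.L * (((i + 1) * m : ℕ) : ℤ) < c.tm z)
    (hu : c.L * (((i + 1) * m : ℕ) : ℤ) ≤ c.tm u + c.M) (hv : c.tm v ≤ c.L * (((i + 1) * m : ℕ) : ℤ) + c.M) :
    badN c R0 m i (r + 1) (w1.append (w2.append w3)) ≤ (if R0 < w2.length then 1 else 0) +
      ((Finset.range r).filter fun j => (j + 1) * m ≤ w2.length).card + badN c R0 m (i + 1) r w3 := by
  classical
  have hM := c.M_pos
  have hL := c.L_eq
  unfold badN
  set P : ℕ → Prop := fun j => ¬GoodL c R0 (c.L * (((i + 1 + j) * m : ℕ) : ℤ)) (w1.append (w2.append w3)) with hP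
  have hsub : (Finset.range (r + 1)).filter P ⊆ ((if R0 < w2.length then {0} else ∅ : Finset ℕ)) ∪
      (((Finset.range r).filter fun j => (j + 1) * m ≤ w2.length).image (· + 1)) ∪
      (((Finset.range r).filter fun j => ¬GoodL c R0 (c.L * (((i + 1 + 1 + j) * m : ℕ) : ℤ)) w3).image (· + 1)) := by
    intro j hj
    rw [Finset.mem_filter, Finset.mem_range] at hj
    obtain ⟨hj1, hj2⟩ := hj
    rw [Finset.mem_union, Finset.mem_union]
    rcases Nat.eq_zero_or_pos j with h0 | h0
    · left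
      left
      subst h0
      by_cases hlen : R0 < w2.length
      · rw [if_pos hlen]
        simp
      · exfalso
        apply hj2
        refine ⟨u, v, w1, w2, w3, rfl, ?_, ?_, ?_, ?_, by omega⟩
        · simpa using h1
        · simpa using h3
        · simpa using hu
        · simpa using hv
    · obtain ⟨k, rfl⟩ : ∃ k, j = k + 1 := ⟨j - 1, by omega⟩
      by_cases hk : (k + 1) * m ≤ w2.length
      · left
        right
        rw [Finset.mem_image]
        exact ⟨k, by rw [Finset.mem_filter, Finset.mem_range]; exact ⟨by omega, hk⟩, rfl⟩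
      · right
        rw [Finset.mem_image]
        refine ⟨k, ?_, rfl⟩
        rw [Finset.mem_filter, Finset.mem_range]
        refine ⟨by omega, fun hg => hj2 ?_⟩
        have e1 : (i + 1 + (k + 1)) * m = (i + 1) * m + (k + 1) * m := by ring
        have e2 : (i + 1 + 1 + k) * m = (i + 1) * m + (k + 1) * m := by ring
        rw [e2] at hg
        rw [e1]
        obtain ⟨u', v', w1', w2', w3', f1, f2, f3, f4, f5, f6⟩ := hg
        refine ⟨u', v', w1.append (w2.append w1'), w2', w3', ?_, ?_, f3, f4, f5, f6⟩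
        · rw [f1]
          simp only [SimpleGraph.Walk.append_assoc]
        · intro z hz
          have hbase : c.L * (((i + 1) * m : ℕ) : ℤ) + c.M * w2.length < c.L * (((i + 1) * m + (k + 1) * m : ℕ) : ℤ) := by
            push Not at hk
            have g1 : (w2.length : ℤ) < (k + 1) * m := by exact_mod_cast hk
            push_cast
            have g3 : c.M * (w2.length : ℤ) ≤ c.L * w2.length := by
              rw [hL, add_mul]
              have : (0 : ℤ) ≤ w2.length := by positivity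
              linarith
            have g4 : c.L * (w2.length : ℤ) < c.L * (((k : ℤ) + 1) * m) :=
              mul_lt_mul_of_pos_left g1 (by omega)
            nlinarith
          have hnn : 0 ≤ c.M * (w2.length : ℤ) := by positivity
          rw [SimpleGraph.Walk.mem_support_append_iff, SimpleGraph.Walk.mem_support_append_iff] at hz
          rcases hz with hz | hz | hz
          · have := h1 z hz
            omega
          · have := tm_walk c w2 z hz
            have h5 := h1 u w1.end_mem_support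
            omega
          · exact f2 z hz
  have h4 := Finset.card_le_card hsub
  refine h4.trans ((Finset.card_union_le _ _).trans ?_)
  refine add_le_add ((Finset.card_union_le _ _).trans (add_le_add ?_ Finset.card_image_le)) Finset.card_image_le
  split_ifs <;> simp

lemma PfB_nonneg (F : Fm) (d : Dr) (θ g0 g1 ξ : ℝ) (W m : ℕ) (I : Finset ℤ) (j : ℕ) (T c : ℤ) (η : Env) :
    0 ≤ PfB F d θ g0 g1 ξ W m I j T c η := by
  induction j generalizing T c with
  | zero => simp [PfB]
  | succ j ih =>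
    unfold PfB
    exact Finset.sum_nonneg fun c' _ => mul_nonneg (Real.exp_pos _).le (ih _ _)

/-- **The walk.** -/
theorem bt_walk (hd : Adm F κ d) (η : Env) {N m n W R0 : ℕ} (hm : 1 ≤ m) (hW : 1 ≤ W) (hR0 : 1 ≤ R0) (hnN : n * m < N)
    (hNn : N ≤ (n + 1) * m) {θ C : ℝ} (hθ : 0 ≤ θ) (hC : CBt F ≤ C) (I : Finset ℤ) (y : ℤ) :
    ∀ (r i : ℕ), i + r = n → ∀ (x : V) (w : grid.Walk x (F.co.vt ((N : ℤ), y))),
      F.co.L * ((i * m : ℕ) : ℤ) ≤ F.co.tm x → F.co.tm x ≤ F.co.L * ((i * m : ℕ) : ℤ) + F.co.M →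
      (∀ e ∈ wedges w, e ∈ F.co.slab ((i * m : ℕ) : ℤ) N) → (∀ z ∈ w.support, F.co.ps z / W ∈ I) →
      ∃ S : ℕ, (badN F.co R0 m i r w : ℝ) ≤ S * (1 / R0 + 1 / m) ∧
        Real.exp (θ * (κ / 2 * S - (cost (F.tau η) w - d.H (F.co.vt ((N : ℤ), y) - x)))) ≤
          PfB F d θ (2 * F.b * (F.co.M * W) + C) (C1 F * m + C) (κ * F.co.M / 2 * W) W m I r ((i * m : ℕ) : ℤ)
            (F.co.ps x / W) η * Real.exp (θ * (C1 F * m + C)) := by
  have hb := b_pos F
  have hL := F.co.L_pos
  have hLM := F.co.L_eq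
  have hM := F.co.M_pos
  have hM1 : (1 : ℝ) ≤ F.co.M := by exact_mod_cast hM
  have hR1 : (1 : ℝ) ≤ F.co.R := by exact_mod_cast F.co.R_pos
  have hC1 := C1_pos F
  have hκ0 := hd.κ0
  have hCn := CBt_nonneg F
  have hWr : (1 : ℝ) ≤ W := by exact_mod_cast hW
  have hWz : (0 : ℤ) < W := by exact_mod_cast hW
  intro r
  induction r with
  | zero =>
    intro i hi x w hx1 hx2 hw _
    refine ⟨0, by simp [badN], ?_⟩
    obtain rfl : i = n := by omega
    obtain ⟨n', hn'⟩ : ∃ n' : ℕ, N = i * m + n' := ⟨N - i * m, by omega⟩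
    have hn1 : 1 ≤ n' := by omega
    have hn2 : n' ≤ m := by
      have : (i + 1) * m = i * m + m := by ring
      omega
    subst hn'
    have h1 := piece_X hd η (s := ((i * m : ℕ) : ℤ)) (n := n') hn1 w (by push_cast at hw ⊢; exact hw) ⟨hx1, hx2⟩
      (by rw [Co.tm_vt]; push_cast; constructor <;> omega)
    have h2 := X_lower hd η (((i * m : ℕ) : ℤ), F.co.ps x) hn1
      (F.co.ps (F.co.vt (((i * m + n' : ℕ) : ℤ), y)) - F.co.ps x)
    have h3 : 0 ≤ κ * (F.co.M * |((F.co.ps (F.co.vt (((i * m + n' : ℕ) : ℤ), y)) - F.co.ps x : ℤ) : ℝ)|) := by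
      positivity
    have h4 : C1 F * n' ≤ C1 F * m := mul_le_mul_of_nonneg_left (by exact_mod_cast hn2) hC1.le
    have h5 := CBt_ge F
    unfold PfB
    rw [one_mul]
    apply Real.exp_le_exp.2
    apply mul_le_mul_of_nonneg_left _ hθ
    push_cast at h1 h2 h3 ⊢
    linarith
  | succ r ih =>
    intro i hi x w hx1 hx2 hw hI
    have hKe : F.co.L * (((i + 1) * m : ℕ) : ℤ) = F.co.L * ((i * m : ℕ) : ℤ) + F.co.L * m := by push_cast; ring
    have hLm : F.co.L ≤ F.co.L * m := by
      have : (1 : ℤ) ≤ m := by exact_mod_cast hm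
      nlinarith
    have hNi : (i + 1) * m < N := lt_of_le_of_lt (Nat.mul_le_mul_right m (by omega)) hnN
    have hNi' : F.co.L * (((i + 1) * m : ℕ) : ℤ) < F.co.L * (N : ℤ) :=
      mul_lt_mul_of_pos_left (by exact_mod_cast hNi) (by omega)
    have hNi2 : F.co.L * (((i + 1) * m : ℕ) : ℤ) + F.co.L ≤ F.co.L * (N : ℤ) := by
      have h0 : (((i + 1) * m : ℕ) : ℤ) + 1 ≤ N := by exact_mod_cast hNi
      have := mul_le_mul_of_nonneg_left h0 (by omega : 0 ≤ F.co.L)
      linarith [mul_add F.co.L (((i + 1) * m : ℕ) : ℤ) 1]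
    obtain ⟨u, v0, u', v', w1, w2, w3, e1, e2, e3, huv, hv, huv', hu'⟩ :=
      three_cut F.co.tm (F.co.L * (((i + 1) * m : ℕ) : ℤ)) w (by omega) (by rw [Co.tm_vt]; exact hNi')
    have hsub1 : ∀ e ∈ wedges w1, e ∈ wedges w := by
      intro e he; rw [e1, wedges_append]; exact List.mem_append_left _ he
    have hsub3 : ∀ e ∈ wedges w3, e ∈ wedges w := by
      intro e he
      rw [e1, wedges_append, wedges_append]
      exact List.mem_append_right _ (List.mem_append_right _ he)
    have hsup3 : ∀ z ∈ w3.support, z ∈ w.support := by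
      intro z hz
      rw [e1, SimpleGraph.Walk.mem_support_append_iff, SimpleGraph.Walk.mem_support_append_iff]
      exact Or.inr (Or.inr hz)
    have hus : F.co.L * (((i + 1) * m : ℕ) : ℤ) ≤ F.co.tm u + F.co.M := by
      have := (tm_adj F.co huv).1
      omega
    have hus2 := e2 u w1.end_mem_support
    have hvs : F.co.tm v' ≤ F.co.L * (((i + 1) * m : ℕ) : ℤ) + F.co.M := by
      have := (tm_adj F.co huv').1
      omega
    have hvs2 := e3 v' w3.start_mem_support
    have hsm : ∀ e ∈ wedges w1, e ∈ F.co.slab ((i * m : ℕ) : ℤ) (((i * m : ℕ) : ℤ) + (m : ℕ)) := by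
      intro e he
      obtain ⟨f1, f2, f3, f4⟩ := hw e (hsub1 e he)
      obtain ⟨g1, g2⟩ := wedges_support w1 he
      have g3 := e2 _ g1
      have g4 := e2 _ g2
      have g5 : F.co.L * (((i * m : ℕ) : ℤ) + (m : ℕ)) = F.co.L * (((i + 1) * m : ℕ) : ℤ) := by push_cast; ring
      exact ⟨f1, by omega, by omega, f4⟩
    have hs3 : ∀ e ∈ wedges w3, e ∈ F.co.slab (((i + 1) * m : ℕ) : ℤ) N := by
      intro e he
      obtain ⟨f1, f2, f3, f4⟩ := hw e (hsub3 e he)
      obtain ⟨g1, g2⟩ := wedges_support w3 he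
      have g3 := e3 _ g1
      have g4 := e3 _ g2
      exact ⟨by omega, f2, f3, by omega⟩
    obtain ⟨S', hS1, hS2⟩ := ih (i + 1) (by omega) v' w3 hvs2.le hvs hs3 (fun z hz => hI z (hsup3 z hz))
    refine ⟨w2.length + S', ?_, ?_⟩
    · have h1 := badN_step F.co (R0 := R0) (m := m) (i := i) (r := r) w1 w2 w3 e2 e3 hus hvs
      rw [← e1] at h1
      have h2 : (((if R0 < w2.length then 1 else 0 : ℕ)) : ℝ) ≤ w2.length * (1 / R0) := by
        have hR : (0 : ℝ) < R0 := by exact_mod_cast hR0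
        split_ifs with hlt
        · rw [mul_one_div, le_div_iff₀ hR]
          have : (R0 : ℝ) < w2.length := by exact_mod_cast hlt
          push_cast
          linarith
        · push_cast
          positivity
      have h3 := card_small m w2.length r hm
      have h4 : ((((Finset.range r).filter fun j => (j + 1) * m ≤ w2.length).card : ℕ) : ℝ) ≤
          w2.length * (1 / m) := by
        have hmr : (0 : ℝ) < m := by exact_mod_cast hm
        rw [mul_one_div, le_div_iff₀ hmr]
        have : ((m * ((Finset.range r).filter fun j => (j + 1) * m ≤ w2.length).card : ℕ) : ℝ) ≤ w2.length := by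
          exact_mod_cast h3
        push_cast at this
        linarith
      have h5 : (badN F.co R0 m i (r + 1) w : ℝ) ≤ (((if R0 < w2.length then 1 else 0 : ℕ)) : ℝ) +
          ((((Finset.range r).filter fun j => (j + 1) * m ≤ w2.length).card : ℕ) : ℝ) +
          badN F.co R0 m (i + 1) r w3 := by exact_mod_cast h1
      push_cast
      linarith
    · -- the costs
      set cc := F.co.ps x / W with hcc
      set c' := F.co.ps v' / W with hc'
      have hXa := piece_X hd η (s := ((i * m : ℕ) : ℤ)) (n := m) hm w1 hsm ⟨hx1, hx2⟩ (by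
        have g5 : F.co.L * (((i * m : ℕ) : ℤ) + (m : ℕ)) = F.co.L * (((i + 1) * m : ℕ) : ℤ) := by push_cast; ring
        rw [g5]
        exact ⟨hus, hus2.le⟩)
      have hloop := loop_ge hd η w2 (by omega)
      have hps := ps_walk F.co (t := (((i + 1) * m : ℕ) : ℤ)) w2 hus (by omega) (by omega) hvs
      -- the luck
      have hr0 : 0 ≤ F.co.ps x - cc * W := by
        have := Int.ediv_mul_le (F.co.ps x) (ne_of_gt hWz)
        rw [← hcc] at this
        linarith
      have hr1 : F.co.ps x - cc * W < W := by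
        have := Int.lt_ediv_add_one_mul_self (F.co.ps x) hWz
        rw [← hcc] at this
        linarith [add_mul cc 1 (W : ℤ)]
      have hXs := X_start hd η (((i * m : ℕ) : ℤ), cc * W) hm
        (F.co.ps u - F.co.ps x + (F.co.ps x - cc * W)) (F.co.ps x - cc * W)
      have hpt : ((((i * m : ℕ) : ℤ), cc * W) : Pt) + (0, F.co.ps x - cc * W) =
          (((i * m : ℕ) : ℤ), F.co.ps x) := by
        ext <;> simp
      rw [hpt, add_sub_cancel_right] at hXs
      have hVV := neg_X_le_VV hd η (((i * m : ℕ) : ℤ), cc * W) hm (F.co.ps u - F.co.ps x + (F.co.ps x - cc * W))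
      have hρ : |((F.co.ps x - cc * W : ℤ) : ℝ)| ≤ W := by
        rw [← Int.cast_abs, abs_of_nonneg hr0]
        exact_mod_cast hr1.le
      have hρ2 : 2 * F.b * (F.co.M * |((F.co.ps x - cc * W : ℤ) : ℝ)|) ≤ 2 * F.b * (F.co.M * W) :=
        mul_le_mul_of_nonneg_left (mul_le_mul_of_nonneg_left hρ (by linarith)) (by linarith)
      have hlow := X_lower hd η (((i * m : ℕ) : ℤ), F.co.ps x) hm (F.co.ps u - F.co.ps x)
      -- the displacement of the cells
      have hr0' : 0 ≤ F.co.ps v' - c' * W := by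
        have := Int.ediv_mul_le (F.co.ps v') (ne_of_gt hWz)
        rw [← hc'] at this
        linarith
      have hr1' : F.co.ps v' - c' * W < W := by
        have := Int.lt_ediv_add_one_mul_self (F.co.ps v') hWz
        rw [← hc'] at this
        linarith [add_mul c' 1 (W : ℤ)]
      have hcell : (W : ℝ) * (|((c' - cc : ℤ) : ℝ)| - 1) ≤ |(F.co.ps v' : ℝ) - F.co.ps x| := by
        have h1 : (W : ℝ) * ((c' - cc : ℤ) : ℝ) = ((F.co.ps v' : ℝ) - F.co.ps x) +
            (((F.co.ps x - cc * W : ℤ) : ℝ) - ((F.co.ps v' - c' * W : ℤ) : ℝ)) := by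
          push_cast
          ring
        have h2 : |((F.co.ps x - cc * W : ℤ) : ℝ) - ((F.co.ps v' - c' * W : ℤ) : ℝ)| ≤ W := by
          have g1 : (0 : ℝ) ≤ ((F.co.ps x - cc * W : ℤ) : ℝ) := by exact_mod_cast hr0
          have g2 : ((F.co.ps x - cc * W : ℤ) : ℝ) ≤ W := by exact_mod_cast hr1.le
          have g3 : (0 : ℝ) ≤ ((F.co.ps v' - c' * W : ℤ) : ℝ) := by exact_mod_cast hr0'
          have g4 : ((F.co.ps v' - c' * W : ℤ) : ℝ) ≤ W := by exact_mod_cast hr1'.le
          rw [abs_le]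
          constructor <;> linarith
        have h3 : (W : ℝ) * |((c' - cc : ℤ) : ℝ)| = |(W : ℝ) * ((c' - cc : ℤ) : ℝ)| := by
          rw [abs_mul, abs_of_nonneg (by linarith : (0 : ℝ) ≤ W)]
        rw [mul_sub, mul_one, h3, h1]
        linarith [abs_add_le ((F.co.ps v' : ℝ) - F.co.ps x)
          (((F.co.ps x - cc * W : ℤ) : ℝ) - ((F.co.ps v' - c' * W : ℤ) : ℝ))]
      have htri : |(F.co.ps v' : ℝ) - F.co.ps x| ≤ |(F.co.ps v' : ℝ) - F.co.ps u| + |((F.co.ps u - F.co.ps x : ℤ) : ℝ)| := by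
        push_cast
        exact abs_sub_le _ _ _
      have hcost : cost (F.tau η) w - d.H (F.co.vt ((N : ℤ), y) - x) = (cost (F.tau η) w1 - d.H (u - x)) +
          (cost (F.tau η) w2 - d.H (v' - u)) + (cost (F.tau η) w3 - d.H (F.co.vt ((N : ℤ), y) - v')) := by
        have h1 : F.co.vt ((N : ℤ), y) - x = (u - x) + ((v' - u) + (F.co.vt ((N : ℤ), y) - v')) := by abel
        rw [h1, d.H_add, d.H_add]
        rw [e1, cost_append, cost_append]
        ring
      have hCB : CBt F = F.b * (F.co.M * F.co.R) + C0 F.co F.b + 4 * (F.b * F.co.M) + 4 * F.b := rfl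
      have hkb : κ * (F.co.M * F.co.R) ≤ F.b * (F.co.M * F.co.R) :=
        mul_le_mul_of_nonneg_right (hd.κ_lt.trans F.ab) (by positivity)
      have hps2 : κ / 2 * (F.co.M * |(F.co.ps v' : ℝ) - F.co.ps u|) ≤ κ / 2 * (w2.length + 2 * (F.co.M * F.co.R)) :=
        mul_le_mul_of_nonneg_left hps (by linarith)
      have hgain : κ / 2 * ((w2.length + S' : ℕ) : ℝ) - (cost (F.tau η) w - d.H (F.co.vt ((N : ℤ), y) - x)) ≤
          min (max (VV F d η (((i * m : ℕ) : ℤ), cc * W) m) 0 + (2 * F.b * (F.co.M * W) + C))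
            ((C1 F * m + C) - κ * F.co.M / 2 * W * (|((c' - cc : ℤ) : ℝ)| - 1)) +
          (κ / 2 * S' - (cost (F.tau η) w3 - d.H (F.co.vt ((N : ℤ), y) - v'))) := by
        rw [hcost]
        have hkey : κ / 2 * ((w2.length + S' : ℕ) : ℝ) - ((cost (F.tau η) w1 - d.H (u - x)) +
            (cost (F.tau η) w2 - d.H (v' - u)) + (cost (F.tau η) w3 - d.H (F.co.vt ((N : ℤ), y) - v'))) ≤
            (-X F d η (((i * m : ℕ) : ℤ), F.co.ps x) m (F.co.ps u - F.co.ps x) -
              κ / 2 * (F.co.M * |(F.co.ps v' : ℝ) - F.co.ps u|) + (C - 4 * F.b)) +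
            (κ / 2 * S' - (cost (F.tau η) w3 - d.H (F.co.vt ((N : ℤ), y) - v'))) := by
          rw [Nat.cast_add w2.length S']
          linarith
        refine hkey.trans (add_le_add_left (le_min ?_ ?_) _)
        · have h1 : 0 ≤ κ / 2 * (F.co.M * |(F.co.ps v' : ℝ) - F.co.ps u|) := by positivity
          have h2 := le_max_left (VV F d η (((i * m : ℕ) : ℤ), cc * W) m) 0
          linarith
        · have h1 : κ / 2 * (F.co.M * |(F.co.ps v' : ℝ) - F.co.ps x|) ≤
              κ / 2 * (F.co.M * (|(F.co.ps v' : ℝ) - F.co.ps u| + |((F.co.ps u - F.co.ps x : ℤ) : ℝ)|)) :=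
            mul_le_mul_of_nonneg_left (mul_le_mul_of_nonneg_left htri (by linarith)) (by linarith)
          have h2 : κ / 2 * (F.co.M * ((W : ℝ) * (|((c' - cc : ℤ) : ℝ)| - 1))) ≤
              κ / 2 * (F.co.M * |(F.co.ps v' : ℝ) - F.co.ps x|) :=
            mul_le_mul_of_nonneg_left (mul_le_mul_of_nonneg_left hcell (by linarith)) (by linarith)
          have h3 : 0 ≤ κ * (F.co.M * |((F.co.ps u - F.co.ps x : ℤ) : ℝ)|) := by positivity
          have h4 : κ * F.co.M / 2 * W * (|((c' - cc : ℤ) : ℝ)| - 1) =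
              κ / 2 * (F.co.M * ((W : ℝ) * (|((c' - cc : ℤ) : ℝ)| - 1))) := by ring
          rw [h4]
          linarith [mul_add (F.co.M : ℝ) |(F.co.ps v' : ℝ) - F.co.ps u| |((F.co.ps u - F.co.ps x : ℤ) : ℝ)|]
      have hterm : Real.exp (θ * (κ / 2 * ((w2.length + S' : ℕ) : ℝ) -
          (cost (F.tau η) w - d.H (F.co.vt ((N : ℤ), y) - x)))) ≤
          kerB θ (2 * F.b * (F.co.M * W) + C) (C1 F * m + C) (κ * F.co.M / 2 * W)
            (VV F d η (((i * m : ℕ) : ℤ), cc * W) m) (c' - cc) *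
          (PfB F d θ (2 * F.b * (F.co.M * W) + C) (C1 F * m + C) (κ * F.co.M / 2 * W) W m I r
            (((i + 1) * m : ℕ) : ℤ) c' η * Real.exp (θ * (C1 F * m + C))) := by
        refine (Real.exp_le_exp.2 (mul_le_mul_of_nonneg_left hgain hθ)).trans ?_
        rw [mul_add, Real.exp_add]
        exact mul_le_mul_of_nonneg_left hS2 (Real.exp_pos _).le
      refine hterm.trans ?_
      rw [← mul_assoc]
      refine mul_le_mul_of_nonneg_right ?_ (Real.exp_pos _).le
      have hcI : c' ∈ I := hI v' (hsup3 v' w3.start_mem_support)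
      have eT : (((i + 1) * m : ℕ) : ℤ) = ((i * m : ℕ) : ℤ) + (m : ℕ) := by push_cast; ring
      rw [eT]
      exact Finset.single_le_sum (f := fun c' => kerB θ (2 * F.b * (F.co.M * W) + C) (C1 F * m + C)
          (κ * F.co.M / 2 * W) (VV F d η (((i * m : ℕ) : ℤ), cc * W) m) (c' - cc) *
          PfB F d θ (2 * F.b * (F.co.M * W) + C) (C1 F * m + C) (κ * F.co.M / 2 * W) W m I r
            (((i * m : ℕ) : ℤ) + (m : ℕ)) c' η)
        (fun c _ => mul_nonneg (Real.exp_pos _).le (PfB_nonneg _ _ _ _ _ _ _ _ _ _ _ _ _)) hcI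

end

end Pool.Agent.W_1b8d5d_h48
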