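import Pool.Agent.W_7d29a1_h48.InsA

/-!
# Track P, section B, pure part: the slab insertion at zero temperature, abstract form (helper48)
-/

namespace Pool.Agent.W_1b8d5d_h48

open MeasureTheory ProbabilityTheory Finset Pool.Agent.W_7d29a1_f21
open Pool.Agent.W_7d29a1_h48 (Lip bint bmul bdmul MonoOn ins_abs)

noncomputable section

variable {ι : Type*} {μ : Measure ℝ} [IsProbabilityMeasure μ]

/-- **The slab insertion lemma at zero temperature**, abstract form. `c`: position of the insertion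
in the outer environment; `F`: luck of the outer environment; `lo`: loss at the insertion (loops);
`R p`: cost of the crossing of the slab at `p`; `Q z p`: cost of the two connections of the core of
the block `z`; `G z`: the lucky event of the block `z`; `L`: luck of the whole environment. -/
theorem ins0 {π κ : Type*} (P : Finset π) (Zs : Finset κ) (hZs : Zs.Nonempty)
    (I : κ → Finset π) (hI : ∀ z ∈ Zs, I z ⊆ P)
    (hId : ∀ z ∈ Zs, ∀ z' ∈ Zs, z ≠ z' → Disjoint (I z) (I z'))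
    {c : (ι → ℝ) → π} (hcP : ∀ g, c g ∈ P) (hcm : ∀ p ∈ P, MeasurableSet {g | c g = p})
    (O : Set ι) (hcO : DependsOn c O)
    {F lo L : (ι → ℝ) → ℝ} {R : π → (ι → ℝ) → ℝ} {Q : κ → π → (ι → ℝ) → ℝ} {Φ : ℝ → ℝ}
    (hFm : Measurable F) (hFi : Integrable F (lw ι μ)) (hFO : DependsOn F O)
    (hlm : Measurable lo) (hli : Integrable lo (lw ι μ)) (hl0 : ∀ g, 0 ≤ lo g)
    (hlO : DependsOn lo O) (hΦ : Lip Φ) {osc : ℝ} (hosc : ∀ u v, Φ u ≤ Φ v + osc)
    (hRm : ∀ p ∈ P, Measurable (R p)) (hR0 : ∀ p ∈ P, ∀ g, 0 ≤ R p g)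
    (hRi : ∀ p ∈ P, Integrable (R p) (lw ι μ))
    (hQm : ∀ z ∈ Zs, ∀ p ∈ I z, Measurable (Q z p))
    (hQ0 : ∀ z ∈ Zs, ∀ p ∈ I z, ∀ g, 0 ≤ Q z p g)
    (hQi : ∀ z ∈ Zs, ∀ p ∈ I z, Integrable (Q z p) (lw ι μ))
    (hRO : ∀ p ∈ P, DependsOn (R p) Oᶜ)
    (hQO : ∀ z ∈ Zs, ∀ p ∈ I z, DependsOn (Q z p) Oᶜ)
    (D : κ → Finset ι) (hDO : ∀ z ∈ Zs, (D z : Set ι) ⊆ Oᶜ)
    (hQD : ∀ z ∈ Zs, ∀ p ∈ I z, DependsOn (Q z p) (D z : Set ι)ᶜ)
    {G : κ → (ι → ℝ) → ℝ} (hG : ∀ z ∈ Zs, Measurable (G z)) (hG0 : ∀ z ∈ Zs, ∀ g, 0 ≤ G z g)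
    (hG1 : ∀ z ∈ Zs, ∀ g, G z g ≤ 1) (hGm : ∀ z ∈ Zs, MonoOn (D z : Set ι) (G z))
    (hGd : ∀ z ∈ Zs, DependsOn (G z) (D z : Set ι)) (hGp : ∀ z ∈ Zs, 0 < ∫ g, G z g ∂(lw ι μ))
    (hLm : Measurable L) (hLmo : ∀ z ∈ Zs, MonoOn (D z : Set ι) L) (hLi : Integrable L (lw ι μ))
    {Y a x : ℝ}
    (h1 : ∀ g, F g - lo g - R (c g) g ≤ L g)
    (h2 : ∀ z ∈ Zs, ∀ g, G z g ≠ 0 → c g ∈ I z → F g - lo g + Y - Q z (c g) g ≤ L g)
    (ha : ∀ z ∈ Zs, ∀ p ∈ I z, ∫ g, Q z p g ∂(lw ι μ) ≤ a)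
    (hx : ∀ p ∈ P, ∫ g, R p g ∂(lw ι μ) ≤ x)
    {ν : (ι → ℝ) → ℝ}
    (hν : ∀ g, ν g = ∑ z ∈ Zs, ∑ p ∈ I z, Set.indicator {g | c g = p} (fun _ => (1 : ℝ)) g) :
    ∫ g, ν g * (Φ (F g + Y) - Φ (F g)) ∂(lw ι μ) + ∫ g, Φ (F g) ∂(lw ι μ) -
        ∫ g, Φ (L g) ∂(lw ι μ) - Real.log Zs.card - 1 - a * ∫ g, ν g ∂(lw ι μ) -
        x * (1 - ∫ g, ν g ∂(lw ι μ)) - ∫ g, min (lo g) osc ∂(lw ι μ) ≤
      ∑ z ∈ Zs, ((∫ g, G z g * Φ (L g) ∂(lw ι μ)) / (∫ g, G z g ∂(lw ι μ)) -
        ∫ g, Φ (L g) ∂(lw ι μ)) := by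
  classical
  obtain ⟨U, hU⟩ : ∃ U : π → (ι → ℝ) → ℝ, ∀ p g, U p g =
    Set.indicator {g | c g = p} (fun g => Real.exp (F g - lo g)) g := ⟨_, fun _ _ => rfl⟩
  have hUif : ∀ p g, U p g = if c g = p then Real.exp (F g - lo g) else 0 := fun p g => by
    rw [hU, Set.indicator_apply]
    rfl
  have hsum : ∀ (w : π → ℝ) g, ∑ p ∈ P, U p g * w p = Real.exp (F g - lo g) * w (c g) := by
    intro w g
    rw [Finset.sum_eq_single (c g)]
    · rw [hUif, if_pos rfl]
    · intro p _ hp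
      rw [hUif, if_neg (Ne.symm hp), zero_mul]
    · intro h
      exact absurd (hcP g) h
  have hsum1 : ∀ g, ∑ p ∈ P, U p g = Real.exp (F g - lo g) := fun g => by
    have := hsum (fun _ => 1) g
    simpa using this
  have hlog : ∀ g, Real.log (∑ p ∈ P, U p g) = F g - lo g := fun g => by
    rw [hsum1, Real.log_exp]
  have hν' : ∀ g, ν g = (∑ z ∈ Zs, ∑ p ∈ I z, U p g) / ∑ p ∈ P, U p g := by
    intro g
    rw [hsum1, hν, Finset.sum_div]
    refine Finset.sum_congr rfl fun z _ => ?_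
    rw [Finset.sum_div]
    refine Finset.sum_congr rfl fun p _ => ?_
    rw [hUif, Set.indicator_apply]
    by_cases h : c g = p
    · rw [if_pos h, if_pos (show g ∈ {g | c g = p} from h), div_self (Real.exp_pos _).ne']
    · rw [if_neg h, if_neg (show ¬ g ∈ {g | c g = p} from h), zero_div]
  have hΛi : Integrable (fun g => Real.log (∑ p ∈ P, U p g)) (lw ι μ) := by
    simp only [hlog]
    exact hFi.sub hli
  have key := ins_abs (μ := μ) P Zs hZs I hI hId (U := U) (R := R) (Q := Q) (L := L) (Φ := Φ) hΦ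
    (fun p hp => by
      have e : U p = Set.indicator {g | c g = p} (fun g => Real.exp (F g - lo g)) := by
        funext g
        exact hU p g
      rw [e]
      exact (Real.measurable_exp.comp (hFm.sub hlm)).indicator (hcm p hp))
    (fun p _ g => by
      rw [hUif]
      split_ifs
      · exact (Real.exp_pos _).le
      · exact le_rfl)
    (fun g => by
      rw [hsum1]
      exact Real.exp_pos _) hRm hR0 hRi hQm hQ0 hQi O
    (fun p _ g g' hg => by
      rw [hUif, hUif, hcO hg, hFO hg, hlO hg]) hRO hQO D hDO hQD hG hG0 hG1 hGm hGd hGp hLm hLmo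
    hLi hΛi (Y := Y) (a := a) (x := x)
    (fun g => by
      rw [hsum (fun p => Real.exp (-R p g)) g, ← Real.exp_add]
      refine Real.exp_le_exp.2 ?_
      linarith [h1 g])
    (fun z hz g hg => by
      by_cases hcz : c g ∈ I z
      · rw [Finset.sum_eq_single (c g)]
        · rw [hUif, if_pos rfl, ← Real.exp_add]
          refine Real.exp_le_exp.2 ?_
          linarith [h2 z hz g hg hcz]
        · intro p _ hp
          rw [hUif, if_neg (Ne.symm hp), zero_mul]
        · intro h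
          exact absurd hcz h
      · rw [Finset.sum_eq_zero fun p hp => ?_]
        · exact (Real.exp_pos _).le
        · rw [hUif, if_neg, zero_mul]
          intro h
          rw [← h] at hp
          exact hcz hp) ha hx (Λ := fun g => F g - lo g) (ν := ν) (fun g => (hlog g).symm) hν'
  -- the loss
  have hνm : Measurable ν := by
    have e : ν = fun g => ∑ z ∈ Zs, ∑ p ∈ I z, Set.indicator {g | c g = p} (fun _ => (1 : ℝ)) g :=
      funext hν
    rw [e]
    exact Finset.measurable_sum _ fun z hz => Finset.measurable_sum _ fun p hp =>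
      measurable_const.indicator (hcm p (hI z hz hp))
  have hν0 : ∀ g, 0 ≤ ν g := fun g => by
    rw [hν]
    exact Finset.sum_nonneg fun z _ => Finset.sum_nonneg fun p _ =>
      Set.indicator_nonneg (fun _ _ => zero_le_one) g
  have hν1 : ∀ g, ν g ≤ 1 := fun g => by
    rw [hν', div_le_one (by rw [hsum1]; exact Real.exp_pos _), ← Finset.sum_biUnion]
    · refine Finset.sum_le_sum_of_subset_of_nonneg (fun p hp => ?_) fun p _ _ => ?_
      · rw [Finset.mem_biUnion] at hp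
        obtain ⟨z, hz, hp⟩ := hp
        exact hI z hz hp
      · rw [hUif]
        split_ifs
        · exact (Real.exp_pos _).le
        · exact le_rfl
    · intro z hz z' hz' h
      exact hId z hz z' hz' h
  have hosc0 : 0 ≤ osc := by
    have := hosc 0 0
    linarith
  have hΦm : Measurable Φ := hΦ.mono.measurable
  have i1 : Integrable (fun g => Φ (F g)) (lw ι μ) := hΦ.integrable hFm hFi
  have i2 : Integrable (fun g => Φ (F g + Y)) (lw ι μ) :=
    hΦ.integrable (hFm.add_const Y) (hFi.add (integrable_const Y))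
  have hΛm : Measurable fun g => F g - lo g := hFm.sub hlm
  have hΛi' : Integrable (fun g => F g - lo g) (lw ι μ) := hFi.sub hli
  have i3 : Integrable (fun g => Φ (F g - lo g)) (lw ι μ) := hΦ.integrable hΛm hΛi'
  have i4 : Integrable (fun g => Φ (F g - lo g + Y)) (lw ι μ) :=
    hΦ.integrable (hΛm.add_const Y) (hΛi'.add (integrable_const Y))
  have i5 : Integrable (fun g => ν g * (Φ (F g + Y) - Φ (F g))) (lw ι μ) :=
    bdmul hνm hν0 hν1 ((hΦm.comp (hFm.add_const Y)).sub (hΦm.comp hFm)) (i2.sub i1)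
  have i6 : Integrable (fun g => ν g * (Φ (F g - lo g + Y) - Φ (F g - lo g))) (lw ι μ) :=
    bdmul hνm hν0 hν1 ((hΦm.comp (hΛm.add_const Y)).sub (hΦm.comp hΛm)) (i4.sub i3)
  have i7 : Integrable (fun g => min (lo g) osc) (lw ι μ) :=
    bint (hlm.min measurable_const) (a := osc) fun g => by
      rw [abs_of_nonneg (le_min (hl0 g) hosc0)]
      exact min_le_right _ _
  have hpt : ∀ g, ν g * (Φ (F g + Y) - Φ (F g)) + Φ (F g) ≤
      ν g * (Φ (F g - lo g + Y) - Φ (F g - lo g)) + Φ (F g - lo g) + min (lo g) osc := by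
    intro g
    have a1 : Φ (F g + Y) ≤ Φ (F g - lo g + Y) + min (lo g) osc := by
      have b1 := hΦ.lip (F g - lo g + Y) (lo g) (hl0 g)
      have b2 : F g - lo g + Y + lo g = F g + Y := by ring
      rw [b2] at b1
      rcases le_total (lo g) osc with h | h
      · rw [min_eq_left h]
        exact b1
      · rw [min_eq_right h]
        exact hosc _ _
    have a2 : Φ (F g) ≤ Φ (F g - lo g) + min (lo g) osc := by
      have b1 := hΦ.lip (F g - lo g) (lo g) (hl0 g)
      rw [sub_add_cancel] at b1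
      rcases le_total (lo g) osc with h | h
      · rw [min_eq_left h]
        exact b1
      · rw [min_eq_right h]
        exact hosc _ _
    have c1 := mul_le_mul_of_nonneg_left a1 (hν0 g)
    have c2 := mul_le_mul_of_nonneg_left a2 (sub_nonneg.2 (hν1 g))
    nlinarith
  have hint := integral_mono (i5.add i1) ((i6.add i3).add i7) hpt
  have e1 : ∫ g, ((fun g => ν g * (Φ (F g + Y) - Φ (F g))) + fun g => Φ (F g)) g ∂(lw ι μ) =
      ∫ g, ν g * (Φ (F g + Y) - Φ (F g)) ∂(lw ι μ) + ∫ g, Φ (F g) ∂(lw ι μ) :=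
    integral_add i5 i1
  have e2 : ∫ g, (((fun g => ν g * (Φ (F g - lo g + Y) - Φ (F g - lo g))) +
      fun g => Φ (F g - lo g)) + fun g => min (lo g) osc) g ∂(lw ι μ) =
      ∫ g, ν g * (Φ (F g - lo g + Y) - Φ (F g - lo g)) ∂(lw ι μ) +
        ∫ g, Φ (F g - lo g) ∂(lw ι μ) + ∫ g, min (lo g) osc ∂(lw ι μ) := by
    have e3 := integral_add (i6.add i3) i7
    have e4 := integral_add i6 i3
    simp only [Pi.add_apply] at e3 e4 ⊢
    rw [e3, e4]
  rw [e1, e2] at hint
  linarith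

end

end Pool.Agent.W_1b8d5d_h48
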