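import Pool.Agent.W_1b8d5d_p.FrX
import Pool.Agent.W_1b8d5d_h48.InsP

/-!
# Track P, section B: the slab insertion for the slab passage times (helper48)
-/

namespace Pool.Agent.W_1b8d5d_h48

open MeasureTheory ProbabilityTheory Finset
open Pool.Agent.W_1b8d5d_h85 (V nm dir Edge Env grid ke wedges cost Bd sh rf)
open Pool.Agent.W_1b8d5d_p
open Pool.Agent.W_7d29a1_f21 (lw mp_integral mp_reindex)
open Pool.Agent.W_7d29a1_h48 (Lip bint bmul bdmul MonoOn monoOn_of_monotone)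

noncomputable section

/-- The reindexing of the edges which cuts the rows `[t, t + l)` out and shifts the rows above
them by `(l, k)`. -/
def phiE (c : Co) (t l k : ℤ) (e : Edge) : Edge :=
  if c.tm e.1 < c.L * t then e else (e.1 + c.vt (l, k), e.2)

lemma phiE_lt {c : Co} {t l k : ℤ} {e : Edge} (h : c.tm e.1 < c.L * t) : phiE c t l k e = e :=
  if_pos h

lemma phiE_ge {c : Co} {t l k : ℤ} {e : Edge} (h : c.L * t ≤ c.tm e.1) :
    phiE c t l k e = (e.1 + c.vt (l, k), e.2) := if_neg (not_lt.2 h)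

lemma tm_shift (c : Co) (x : V) (l k : ℤ) : c.tm (x + c.vt (l, k)) = c.tm x + c.L * l := by
  rw [Co.tm_add, Co.tm_vt]

lemma phiE_inj {c : Co} {t l k : ℤ} (hl : 0 ≤ l) : Function.Injective (phiE c t l k) := by
  have hL : 0 ≤ c.L * l := mul_nonneg (by have := c.L_pos; omega) hl
  intro p q h
  rcases lt_or_ge (c.tm p.1) (c.L * t) with h1 | h1 <;>
    rcases lt_or_ge (c.tm q.1) (c.L * t) with h2 | h2
  · rwa [phiE_lt h1, phiE_lt h2] at h
  · rw [phiE_lt h1, phiE_ge h2] at h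
    rw [h] at h1
    simp only [tm_shift] at h1
    omega
  · rw [phiE_ge h1, phiE_lt h2] at h
    rw [← h] at h2
    simp only [tm_shift] at h2
    omega
  · rw [phiE_ge h1, phiE_ge h2, Prod.mk.injEq] at h
    exact Prod.ext (add_right_cancel h.1) h.2

/-- The outer environment, glued together. -/
def gl (c : Co) (t l k : ℤ) (η : Env) : Env := fun e => η (phiE c t l k e)

lemma gl_mp (F : Fm) {t l k : ℤ} (hl : 0 ≤ l) :
    MeasurePreserving (gl F.co t l k) (law F) (law F) :=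
  mp_reindex (μ := F.nu) (phiE_inj hl)

lemma gl_dep {c : Co} {t l k : ℤ} (hl : 0 ≤ l) : DependsOn (gl c t l k) (c.rows t (t + l))ᶜ := by
  intro η η' h
  funext e
  refine h _ fun he => ?_
  have hL : 0 ≤ c.L * l := mul_nonneg (by have := c.L_pos; omega) hl
  obtain ⟨h1, h2⟩ := he
  rcases lt_or_ge (c.tm e.1) (c.L * t) with h3 | h3
  · rw [phiE_lt h3] at h1
    omega
  · rw [phiE_ge h3] at h2
    simp only [tm_shift, mul_add] at h2
    omega

variable {F : Fm} {d : Dr}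

lemma gl_X1 (η : Env) {l k : ℤ} (t : ℕ) (p : ℤ) :
    X F d (gl F.co t l k η) 0 t p = X F d η 0 t p := by
  refine X_dep F d 0 t p fun e he => ?_
  have h1 : F.co.tm e.1 < F.co.L * t := by
    have := he.2.2.1
    simpa using this
  show η (phiE F.co t l k e) = η e
  rw [phiE_lt h1]

lemma gl_X2 (η : Env) {l k : ℤ} (t : ℕ) (p : ℤ) (m : ℕ) (y : ℤ) :
    X F d (gl F.co t l k η) ((t : ℤ), p) m y = X F d η ((t : ℤ) + l, p + k) m y := by
  have h1 : X F d (gl F.co t l k η) ((t : ℤ), p) m y = X F d (F.shp (l, k) η) ((t : ℤ), p) m y := by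
    refine X_dep F d ((t : ℤ), p) m y fun e he => ?_
    have h2 : F.co.L * t ≤ F.co.tm e.1 := he.1
    show η (phiE F.co t l k e) = η (e.1 + F.co.vt (l, k), e.2)
    rw [phiE_ge h2]
  rw [h1, X_shp]
  rfl

/-- The luck is nondecreasing in the environment if the weights are nonincreasing. -/
lemma negX_mono (hg : Antitone F.g) (a : Pt) (n : ℕ) (y : ℤ) :
    Monotone fun η : Env => -X F d η a n y := by
  intro η η' h
  show -X F d η a n y ≤ -X F d η' a n y
  unfold X
  have h1 : TT F.co (F.tau η') a n y ≤ TT F.co (F.tau η) a n y :=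
    TR_mono (bd_tau F η') F.a0.le (fun e _ => hg (h e)) _ _
  linarith

lemma integral_Xp (a : Pt) (n : ℕ) (y : ℤ) :
    ∫ η, max (X F d η a n y) 0 ∂(law F) = ∫ η, max (X F d η 0 n y) 0 ∂(law F) := by
  have h := shp_int (F := F) (g := fun η => max (X F d η 0 n y) 0)
    ((X_meas F d 0 n y).max measurable_const) a
  rw [← h]
  refine integral_congr_ae (Filter.Eventually.of_forall fun η => ?_)
  show max (X F d η a n y) 0 = max (X F d (F.shp a η) 0 n y) 0
  rw [X_shp, zero_add]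

variable {κ0 : ℝ}

/-- **The slab insertion lemma.** The slab has the times `l1`, `l2`, `l3` (entrance, core, exit);
the block `z` has its core between `(t + l1, z1 z)` and `(t + l1 + l2, z2 z)` and is used if the
outer minimal walk has its position `c` in `I z` at the time `t`. -/
theorem insT (hd : Adm F κ0 d) (hg : Antitone F.g) {κ : Type*}
    {t l1 l2 l3 m : ℕ} (ht : 1 ≤ t) (hl1 : 1 ≤ l1) (hl2 : 1 ≤ l2) (hl3 : 1 ≤ l3) (hm : 1 ≤ m)
    (k y : ℤ) (P : Finset ℤ) (Zs : Finset κ) (hZs : Zs.Nonempty) (I : κ → Finset ℤ)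
    (hI : ∀ z ∈ Zs, I z ⊆ P)
    (hId : ∀ z ∈ Zs, ∀ z' ∈ Zs, z ≠ z' → Disjoint (I z) (I z')) (z1 z2 : κ → ℤ)
    {c : Env → ℤ} (hcP : ∀ η, c η ∈ P) (hcm : Measurable c)
    {lo : Env → ℝ} (hlm : Measurable lo) (hli : Integrable lo (law F)) (hl0 : ∀ η, 0 ≤ lo η)
    (hlo : ∀ η, X F d η 0 t (c η) + X F d η ((t : ℤ), c η) m (y - c η) ≤
      X F d η 0 (t + m) y + lo η)
    (D : κ → Finset Edge)
    (hD : ∀ z ∈ Zs, (D z : Set Edge) ⊆ F.co.rows ((t : ℤ) + l1) ((t : ℤ) + l1 + l2))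
    {G : κ → Env → ℝ} (hG : ∀ z ∈ Zs, Measurable (G z)) (hG0 : ∀ z ∈ Zs, ∀ η, 0 ≤ G z η)
    (hG1 : ∀ z ∈ Zs, ∀ η, G z η ≤ 1) (hGm : ∀ z ∈ Zs, Monotone (G z))
    (hGd : ∀ z ∈ Zs, DependsOn (G z) (D z : Set Edge))
    (hGp : ∀ z ∈ Zs, 0 < ∫ η, G z η ∂(law F)) {Y a x : ℝ}
    (hGY : ∀ z ∈ Zs, ∀ η, G z η ≠ 0 →
      Y ≤ -X F d η ((t : ℤ) + l1, z1 z) l2 (z2 z - z1 z))
    (ha : ∀ z ∈ Zs, ∀ p ∈ I z, ∫ η, max (X F d η 0 l1 (z1 z - p)) 0 ∂(law F) +
      ∫ η, max (X F d η 0 l3 (p + k - z2 z)) 0 ∂(law F) ≤ a)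
    (hx : ∫ η, max (X F d η 0 (l1 + l2 + l3) k) 0 ∂(law F) ≤ x) {Φ : ℝ → ℝ} (hΦ : Lip Φ)
    {osc : ℝ} (hosc : ∀ u v, Φ u ≤ Φ v + osc) {N : ℕ} (hN : N = t + (l1 + l2 + l3) + m)
    {ν : Env → ℝ}
    (hν : ∀ η, ν η = ∑ z ∈ Zs, ∑ p ∈ I z, Set.indicator {η | c η = p} (fun _ => (1 : ℝ)) η) :
    ∫ η, ν η * (Φ (-X F d η 0 (t + m) y + Y) - Φ (-X F d η 0 (t + m) y)) ∂(law F) +
      ∫ η, Φ (-X F d η 0 (t + m) y) ∂(law F) - ∫ η, Φ (-X F d η 0 N (y + k)) ∂(law F) -
      Real.log Zs.card - 1 - a * ∫ η, ν η ∂(law F) - x * (1 - ∫ η, ν η ∂(law F)) -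
      ∫ η, min (lo η) osc ∂(law F) ≤
    ∑ z ∈ Zs, ((∫ η, G z η * Φ (-X F d η 0 N (y + k)) ∂(law F)) / (∫ η, G z η ∂(law F)) -
      ∫ η, Φ (-X F d η 0 N (y + k)) ∂(law F)) := by
  obtain ⟨l, hl⟩ : ∃ l : ℕ, l = l1 + l2 + l3 := ⟨_, rfl⟩
  rw [← hl] at hx hN
  have hlz : (l : ℤ) = l1 + l2 + l3 := by rw [hl]; push_cast; ring
  have hNl : N = t + (l + m) := by rw [hN, Nat.add_assoc]
  have hl0' : (0 : ℤ) ≤ (l : ℤ) := by positivity
  have hmp := gl_mp F (t := t) (l := l) (k := k) hl0'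
  have hXm : ∀ (a : Pt) (n : ℕ) (y : ℤ), Measurable fun η : Env => max (X F d η a n y) 0 :=
    fun a n y => (X_meas F d a n y).max measurable_const
  have hXi : ∀ (a : Pt) {n : ℕ} (y : ℤ), 1 ≤ n →
      Integrable (fun η => max (X F d η a n y) 0) (law F) := fun a n y h =>
    (X_integrable hd a h y).pos_part
  have hrow : ∀ {s s' : ℤ} {e : Edge}, s ≤ s' → F.co.L * s' ≤ F.co.tm e.1 →
      F.co.L * s ≤ F.co.tm e.1 := fun h1 h2 =>
    (mul_le_mul_of_nonneg_left h1 (by have := F.co.L_pos; omega)).trans h2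
  have hrow' : ∀ {s s' : ℤ} {e : Edge}, s ≤ s' → F.co.tm e.1 < F.co.L * s →
      F.co.tm e.1 < F.co.L * s' := fun h1 h2 =>
    h2.trans_le (mul_le_mul_of_nonneg_left h1 (by have := F.co.L_pos; omega))
  obtain ⟨R, hR⟩ : ∃ R : ℤ → Env → ℝ, ∀ p η, R p η = max (X F d η ((t : ℤ), p) l k) 0 :=
    ⟨_, fun _ _ => rfl⟩
  obtain ⟨Q, hQ⟩ : ∃ Q : κ → ℤ → Env → ℝ, ∀ z p η, Q z p η =
    max (X F d η ((t : ℤ), p) l1 (z1 z - p)) 0 +
      max (X F d η ((t : ℤ) + l1 + l2, z2 z) l3 (p + k - z2 z)) 0 := ⟨_, fun _ _ _ => rfl⟩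
  have hRe : ∀ p, R p = fun η => max (X F d η ((t : ℤ), p) l k) 0 := fun p => funext (hR p)
  have hQe : ∀ z p, Q z p = fun η => max (X F d η ((t : ℤ), p) l1 (z1 z - p)) 0 +
      max (X F d η ((t : ℤ) + l1 + l2, z2 z) l3 (p + k - z2 z)) 0 := fun z p => funext (hQ z p)
  have hgd : DependsOn (gl F.co t l k) (F.co.rows (t : ℤ) ((t : ℤ) + l))ᶜ := gl_dep hl0'
  -- the three parts of the walk
  have hsplit : ∀ η : Env, X F d η 0 N (y + k) ≤ X F d (gl F.co t l k η) 0 (t + m) y +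
      lo (gl F.co t l k η) + X F d η ((t : ℤ), c (gl F.co t l k η)) l k := by
    intro η
    obtain ⟨p, hp⟩ : ∃ p, p = c (gl F.co t l k η) := ⟨_, rfl⟩
    rw [← hp]
    have a1 := X_tri F d η 0 (m := t) (n := l + m) ht (by omega) p (k + (y - p))
    have a2 := X_tri F d η ((t : ℤ), p) (m := l) (n := m) (by omega) hm k (y - p)
    have e1 : (0 : Pt) + ((t : ℤ), p) = ((t : ℤ), p) := zero_add _
    have e2 : p + (k + (y - p)) = y + k := by ring
    have e3 : (((t : ℤ), p) : Pt) + ((l : ℤ), k) = ((t : ℤ) + l, p + k) := rfl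
    rw [e1, e2, ← hNl] at a1
    rw [e3] at a2
    have a3 := hlo (gl F.co t l k η)
    rw [← hp, gl_X1, gl_X2] at a3
    linarith
  have key := ins0 (μ := F.nu) P Zs hZs I hI hId (c := fun η => c (gl F.co t l k η))
    (fun η => hcP _) (fun p _ => (hcm.comp hmp.measurable) (measurableSet_singleton p))
    (F.co.rows (t : ℤ) ((t : ℤ) + l))ᶜ (fun η η' h => by
      show c (gl F.co t l k η) = c (gl F.co t l k η')
      rw [hgd h])
    (F := fun η => -X F d (gl F.co t l k η) 0 (t + m) y) (lo := fun η => lo (gl F.co t l k η))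
    (L := fun η => -X F d η 0 N (y + k)) (R := R) (Q := Q) (Φ := Φ)
    ((X_meas F d 0 (t + m) y).comp hmp.measurable).neg
    (hmp.integrable_comp_of_integrable (X_integrable hd 0 (by omega) y)).neg
    (fun η η' h => by
      show -X F d (gl F.co t l k η) 0 (t + m) y = -X F d (gl F.co t l k η') 0 (t + m) y
      rw [hgd h])
    (hlm.comp hmp.measurable) (hmp.integrable_comp_of_integrable hli) (fun η => hl0 _)
    (fun η η' h => by
      show lo (gl F.co t l k η) = lo (gl F.co t l k η')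
      rw [hgd h])
    hΦ hosc
    (fun p _ => by rw [hRe]; exact hXm _ _ _)
    (fun p _ η => by rw [hR]; exact le_max_right _ _)
    (fun p _ => by rw [hRe]; exact hXi _ _ (by omega))
    (fun z _ p _ => by rw [hQe]; exact (hXm _ _ _).add (hXm _ _ _))
    (fun z _ p _ η => by rw [hQ]; exact add_nonneg (le_max_right _ _) (le_max_right _ _))
    (fun z _ p _ => by rw [hQe]; exact (hXi _ _ hl1).add (hXi _ _ hl3))
    (fun p _ η η' h => by
      rw [compl_compl] at h
      have h1 : X F d η ((t : ℤ), p) l k = X F d η' ((t : ℤ), p) l k :=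
        X_dep F d _ l k fun e he => h e (Co.slab_subset_rows _ _ he)
      rw [hR, hR, h1])
    (fun z _ p _ η η' h => by
      rw [compl_compl] at h
      have h1 : X F d η ((t : ℤ), p) l1 (z1 z - p) = X F d η' ((t : ℤ), p) l1 (z1 z - p) :=
        X_dep F d _ l1 _ fun e he => h e (Co.rows_mono le_rfl (by simp only; omega)
          (Co.slab_subset_rows _ _ he))
      have h2 : X F d η ((t : ℤ) + l1 + l2, z2 z) l3 (p + k - z2 z) =
          X F d η' ((t : ℤ) + l1 + l2, z2 z) l3 (p + k - z2 z) :=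
        X_dep F d _ l3 _ fun e he => h e (Co.rows_mono (by simp only; omega)
          (by simp only; omega) (Co.slab_subset_rows _ _ he))
      rw [hQ, hQ, h1, h2])
    D
    (fun z hzz => by
      rw [compl_compl]
      exact (hD z hzz).trans (Co.rows_mono (by omega) (by omega)))
    (fun z hzz p hp η η' h => by
      have h1 : X F d η ((t : ℤ), p) l1 (z1 z - p) = X F d η' ((t : ℤ), p) l1 (z1 z - p) :=
        X_dep F d _ l1 _ fun e he => h e fun he' =>
          Set.disjoint_left.1 (Co.rows_disjoint (c := F.co) (s := (t : ℤ)) (t := (t : ℤ) + l1)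
            le_rfl) (Co.slab_subset_rows _ _ he) (hD z hzz he')
      have h2 : X F d η ((t : ℤ) + l1 + l2, z2 z) l3 (p + k - z2 z) =
          X F d η' ((t : ℤ) + l1 + l2, z2 z) l3 (p + k - z2 z) :=
        X_dep F d _ l3 _ fun e he => h e fun he' =>
          Set.disjoint_left.1 (Co.rows_disjoint (c := F.co) (s := (t : ℤ) + l1)
            (t := (t : ℤ) + l1 + l2) le_rfl) (hD z hzz he') (Co.slab_subset_rows _ _ he)
      rw [hQ, hQ, h1, h2])
    hG hG0 hG1 (fun z hzz => monoOn_of_monotone (hGm z hzz) _) hGd hGp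
    (X_meas F d _ _ _).neg (fun z _ => monoOn_of_monotone (negX_mono hg 0 N (y + k)) _)
    (X_integrable hd 0 (by omega) _).neg (Y := Y) (a := a) (x := x)
    (fun η => by
      have a1 := hsplit η
      have a2 := le_max_left (X F d η ((t : ℤ), c (gl F.co t l k η)) l k) 0
      rw [hR]
      linarith)
    (fun z hzz η hGz hcz => by
      have a1 := hsplit η
      obtain ⟨p, hp⟩ : ∃ p, p = c (gl F.co t l k η) := ⟨_, rfl⟩
      rw [← hp] at a1
      have b1 := X_tri F d η ((t : ℤ), p) (m := l1) (n := l2) hl1 hl2 (z1 z - p) (z2 z - z1 z)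
      have b2 := X_tri F d η ((t : ℤ), p) (m := l1 + l2) (n := l3) (by omega) hl3
        (z1 z - p + (z2 z - z1 z)) (p + k - z2 z)
      have e1 : (((t : ℤ), p) : Pt) + ((l1 : ℤ), z1 z - p) = ((t : ℤ) + l1, z1 z) := by
        refine Prod.ext rfl ?_
        show p + (z1 z - p) = z1 z
        ring
      have e2 : (((t : ℤ), p) : Pt) + (((l1 + l2 : ℕ) : ℤ), z1 z - p + (z2 z - z1 z)) =
          ((t : ℤ) + l1 + l2, z2 z) := by
        refine Prod.ext ?_ ?_
        · show (t : ℤ) + ((l1 + l2 : ℕ) : ℤ) = (t : ℤ) + l1 + l2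
          push_cast
          ring
        · show p + (z1 z - p + (z2 z - z1 z)) = z2 z
          ring
      have e3 : z1 z - p + (z2 z - z1 z) + (p + k - z2 z) = k := by ring
      rw [e1] at b1
      rw [e2, e3, ← hl] at b2
      have b3 := hGY z hzz η hGz
      have b4 := le_max_left (X F d η ((t : ℤ), p) l1 (z1 z - p)) 0
      have b5 := le_max_left (X F d η ((t : ℤ) + l1 + l2, z2 z) l3 (p + k - z2 z)) 0
      simp only [← hp]
      rw [hQ]
      linarith)
    (fun z hzz p hp => by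
      rw [hQe]
      have e1 : ∫ η, (max (X F d η ((t : ℤ), p) l1 (z1 z - p)) 0 +
          max (X F d η ((t : ℤ) + l1 + l2, z2 z) l3 (p + k - z2 z)) 0) ∂(law F) =
          ∫ η, max (X F d η 0 l1 (z1 z - p)) 0 ∂(law F) +
            ∫ η, max (X F d η 0 l3 (p + k - z2 z)) 0 ∂(law F) := by
        rw [integral_add (hXi _ _ hl1) (hXi _ _ hl3), integral_Xp,
          integral_Xp ((t : ℤ) + l1 + l2, z2 z)]
      exact e1.le.trans (ha z hzz p hp))
    (fun p _ => by
      rw [hRe]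
      have e1 : ∫ η, max (X F d η ((t : ℤ), p) l k) 0 ∂(law F) =
          ∫ η, max (X F d η 0 l k) 0 ∂(law F) := integral_Xp _ _ _
      exact e1.le.trans hx)
    (ν := fun η => ν (gl F.co t l k η)) (fun η => by
      show ν (gl F.co t l k η) = _
      rw [hν]
      rfl)
  -- back to the environment of time `t + m`
  have hνm : Measurable ν := by
    have e : ν = fun η => ∑ z ∈ Zs, ∑ p ∈ I z,
      Set.indicator {η | c η = p} (fun _ => (1 : ℝ)) η := funext hν
    rw [e]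
    exact Finset.measurable_sum _ fun z _ => Finset.measurable_sum _ fun p _ =>
      measurable_const.indicator (hcm (measurableSet_singleton p))
  have hΦm : Measurable Φ := hΦ.mono.measurable
  have hXm0 : Measurable fun η : Env => -X F d η 0 (t + m) y := (X_meas F d _ _ _).neg
  have t1 : ∫ η, ν (gl F.co t l k η) * (Φ (-X F d (gl F.co t l k η) 0 (t + m) y + Y) -
      Φ (-X F d (gl F.co t l k η) 0 (t + m) y)) ∂(law F) =
      ∫ η, ν η * (Φ (-X F d η 0 (t + m) y + Y) - Φ (-X F d η 0 (t + m) y)) ∂(law F) :=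
    mp_integral hmp (F := fun η => ν η * (Φ (-X F d η 0 (t + m) y + Y) -
      Φ (-X F d η 0 (t + m) y))) (hνm.mul ((hΦm.comp (hXm0.add_const Y)).sub
        (hΦm.comp hXm0))).aestronglyMeasurable
  have t2 : ∫ η, Φ (-X F d (gl F.co t l k η) 0 (t + m) y) ∂(law F) =
      ∫ η, Φ (-X F d η 0 (t + m) y) ∂(law F) :=
    mp_integral hmp (F := fun η => Φ (-X F d η 0 (t + m) y)) (hΦm.comp hXm0).aestronglyMeasurable
  have t3 : ∫ η, ν (gl F.co t l k η) ∂(law F) = ∫ η, ν η ∂(law F) :=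
    mp_integral hmp (F := ν) hνm.aestronglyMeasurable
  have t4 : ∫ η, min (lo (gl F.co t l k η)) osc ∂(law F) = ∫ η, min (lo η) osc ∂(law F) :=
    mp_integral hmp (F := fun η => min (lo η) osc) (hlm.min measurable_const).aestronglyMeasurable
  rw [← t1, ← t2, ← t3, ← t4]
  exact key

end

end Pool.Agent.W_1b8d5d_h48
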