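import Pool.Agent.W_1b8d5d_h48.SelOf83
import Pool.Agent.W_1b8d5d_h48.BtM43
import Pool.Agent.W_1b8d5d_p.FrameF

/-!
# Track P, section B: the selection of insertion points, from the law and the directions only (helper83)
-/

namespace Pool.Agent.W_1b8d5d_p

open Pool.Agent.W_1b8d5d_h4p (LawH)
open Pool.Agent.W_1b8d5d_h48 (selP83 bt_main43)

variable {F : Fm} {κ K a c0 C0 : ℝ} {A : Set Dr}

/-- **SelP** for every family of directions. -/
theorem selP_all83 (hL : LawH F c0 C0) (hD : Dirs F κ K A) (ha : 0 < a) : SelP F a A :=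
  selP83 hD ha (hD.rate hL) (hD.grow_law hL) (lstarP_all hL hD ha) (bt_main43 hD (hD.rate hL))

end Pool.Agent.W_1b8d5d_p
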