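import Pool.Agent.W_1b8d5d_h48.BtM83
import Pool.Agent.W_1b8d5d_p.CoreP

/-!
# Track P, section B: the selection of insertion points from (BT) and (L*) (helper83)
-/

namespace Pool.Agent.W_1b8d5d_h48

open MeasureTheory ProbabilityTheory Finset
open Pool.Agent.W_1b8d5d_h85 (V nm dir Edge Env grid ke wedges cost Bd sh rf)
open Pool.Agent.W_1b8d5d_p

noncomputable section

/-- The choice of levels at mutual distances `≥ M` (pure counting). -/
theorem levels83 {m0 M N : ℕ} (h0 : 1 ≤ m0) (hM : 4 * m0 ≤ M) (hN : 8 * M ≤ N) {q : ℕ → ℝ} (hq : ∀ j, 0 ≤ q j) {ε : ℝ}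
    (hε : 0 < ε) (hs : ∑ j ∈ range ((N - 1) / m0), q j ≤ ε / 16 * (N / m0)) :
    ∃ Js : Finset ℕ, (N : ℝ) / (8 * M) ≤ Js.card ∧ (∀ t ∈ Js, 1 ≤ t ∧ t < N ∧ ∃ j, t = (j + 1) * m0 ∧ q j ≤ ε) ∧
      ∀ t ∈ Js, ∀ t' ∈ Js, t < t' → t + M ≤ t' := by
  classical
  have hM1 : 1 ≤ M := by omega
  have hN1 : 1 ≤ N := by omega
  obtain ⟨I, hI⟩ : ∃ I : ℕ, I = (N - 1) / (2 * M) := ⟨_, rfl⟩
  obtain ⟨K, hK⟩ : ∃ K : ℕ, K = M / m0 - 1 := ⟨_, rfl⟩
  obtain ⟨b, hb⟩ : ∃ b : ℕ → ℕ, ∀ i, b i = 2 * i * M / m0 := ⟨_, fun _ => rfl⟩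
  have hMd : 4 ≤ M / m0 := (Nat.le_div_iff_mul_le h0).2 hM
  have hK1 : 1 ≤ K := by omega
  -- the levels of the window `i`
  have hwin : ∀ i k : ℕ, k < K → 2 * i * M < (b i + k + 1) * m0 ∧ (b i + k + 1) * m0 < (2 * i + 1) * M := by
    intro i k hk
    have h1 : 2 * i * M < (b i + 1) * m0 := by
      rw [hb, Nat.add_mul, one_mul]
      exact Nat.lt_div_mul_add (by omega)
    have h2 : b i * m0 ≤ 2 * i * M := by
      rw [hb]
      exact Nat.div_mul_le_self _ _
    have h3 : (k + 2) * m0 ≤ M := by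
      have h4 : (k + 2) * m0 ≤ M / m0 * m0 := Nat.mul_le_mul_right _ (by omega)
      exact h4.trans (Nat.div_mul_le_self _ _)
    constructor
    · have : (b i + 1) * m0 ≤ (b i + k + 1) * m0 := Nat.mul_le_mul_right _ (by omega)
      omega
    · have e1 : (b i + k + 1) * m0 = b i * m0 + (k + 1) * m0 := by ring
      have e2 : (k + 2) * m0 = (k + 1) * m0 + m0 := by ring
      have e3 : (2 * i + 1) * M = 2 * i * M + M := by ring
      omega
  have hlev : ∀ i k : ℕ, i < I → k < K → b i + k < (N - 1) / m0 := by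
    intro i k hi hk
    have h1 := (hwin i k hk).2
    have h2 : (2 * i + 1) * M ≤ I * (2 * M) := by
      have : (2 * i + 1) * M ≤ (2 * I) * M := Nat.mul_le_mul_right _ (by omega)
      calc (2 * i + 1) * M ≤ (2 * I) * M := this
        _ = I * (2 * M) := by ring
    have h3 : I * (2 * M) ≤ N - 1 := by rw [hI]; exact Nat.div_mul_le_self _ _
    rw [Nat.lt_iff_add_one_le, Nat.le_div_iff_mul_le h0]
    omega
  have hinj : Set.InjOn (fun w : ℕ × ℕ => b w.1 + w.2) (range I ×ˢ range K : Finset (ℕ × ℕ)) := by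
    rintro ⟨i, k⟩ h1 ⟨i', k'⟩ h2 h3
    simp only [Finset.coe_product, Finset.coe_range, Set.mem_prod, Set.mem_Iio] at h1 h2
    have h3' : b i + k = b i' + k' := h3
    obtain ⟨a1, a2⟩ := hwin i k h1.2
    obtain ⟨a3, a4⟩ := hwin i' k' h2.2
    rw [h3'] at a1 a2
    have h4 : 2 * i * M < (2 * i' + 1) * M := a1.trans a4
    have h5 : 2 * i' * M < (2 * i + 1) * M := a3.trans a2
    have h6 := Nat.lt_of_mul_lt_mul_right h4
    have h7 := Nat.lt_of_mul_lt_mul_right h5
    have h8 : i = i' := by omega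
    subst h8
    have : k = k' := by omega
    rw [this]
  have hsum : ∑ i ∈ range I, ∑ k ∈ range K, q (b i + k) ≤ ε / 16 * (N / m0) := by
    rw [← Finset.sum_product' (range I) (range K) fun i k => q (b i + k)]
    rw [← Finset.sum_image (f := q) (g := fun w : ℕ × ℕ => b w.1 + w.2) hinj]
    refine le_trans (Finset.sum_le_sum_of_subset_of_nonneg ?_ fun j _ _ => hq j) hs
    intro j hj
    rw [Finset.mem_image] at hj
    obtain ⟨⟨i, k⟩, hik, rfl⟩ := hj
    rw [Finset.mem_product, Finset.mem_range, Finset.mem_range] at hik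
    exact Finset.mem_range.2 (hlev i k hik.1 hik.2)
  have hmin : ∀ i : ℕ, ∃ k, k < K ∧ K * q (b i + k) ≤ ∑ k ∈ range K, q (b i + k) := by
    intro i
    obtain ⟨k, hk, hk2⟩ := (range K).exists_min_image (fun k => q (b i + k)) ⟨0, Finset.mem_range.2 (by omega)⟩
    refine ⟨k, Finset.mem_range.1 hk, ?_⟩
    have := Finset.card_nsmul_le_sum (range K) (fun k => q (b i + k)) (q (b i + k)) hk2
    rwa [Finset.card_range, nsmul_eq_mul] at this
  choose kk hkk1 hkk2 using hmin
  obtain ⟨G, hG⟩ : ∃ G : Finset ℕ, G = (range I).filter fun i => q (b i + kk i) ≤ ε := ⟨_, rfl⟩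
  obtain ⟨G', hG'⟩ : ∃ G' : Finset ℕ, G' = (range I).filter fun i => ¬ q (b i + kk i) ≤ ε := ⟨_, rfl⟩
  have hcard : G.card + G'.card = I := by
    rw [hG, hG', Finset.card_filter_add_card_filter_not, Finset.card_range]
  have hm0 : (0 : ℝ) < m0 := by exact_mod_cast h0
  have hM0 : (0 : ℝ) < M := by exact_mod_cast hM1
  have hKr : (M : ℝ) / (2 * m0) ≤ K := by
    have h1 : (M : ℝ) < (M / m0 : ℕ) * m0 + m0 := by exact_mod_cast Nat.lt_div_mul_add (a := M) h0
    have h2 : ((M / m0 : ℕ) : ℝ) = K + 1 := by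
      have : M / m0 = K + 1 := by omega
      rw [this]
      push_cast
      ring
    have h3 : 4 * (m0 : ℝ) ≤ M := by exact_mod_cast hM
    rw [h2] at h1
    rw [div_le_iff₀ (by positivity)]
    nlinarith
  have hG'c : (G'.card : ℝ) ≤ N / (8 * M) := by
    have h1 : (G'.card : ℝ) * (K * ε) ≤ ε / 16 * (N / m0) := by
      refine le_trans ?_ hsum
      have h2 : ∑ i ∈ G', ∑ k ∈ range K, q (b i + k) ≤ ∑ i ∈ range I, ∑ k ∈ range K, q (b i + k) :=
        Finset.sum_le_sum_of_subset_of_nonneg (by rw [hG']; exact Finset.filter_subset _ _)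
          fun i _ _ => Finset.sum_nonneg fun k _ => hq _
      refine le_trans ?_ h2
      rw [← nsmul_eq_mul]
      refine Finset.card_nsmul_le_sum _ _ _ fun i hi => ?_
      rw [hG', Finset.mem_filter, not_le] at hi
      exact (mul_le_mul_of_nonneg_left hi.2.le (Nat.cast_nonneg _)).trans (hkk2 i)
    have h3 : (G'.card : ℝ) * (M / (2 * m0) * ε) ≤ ε / 16 * (N / m0) :=
      (mul_le_mul_of_nonneg_left (mul_le_mul_of_nonneg_right hKr hε.le) (Nat.cast_nonneg _)).trans h1
    rw [le_div_iff₀ (by positivity)]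
    have h4 : (G'.card : ℝ) * (M / (2 * m0) * ε) = (G'.card * (8 * M)) * (ε / (16 * m0)) := by
      field_simp
      ring
    have h5 : ε / 16 * ((N : ℝ) / m0) = N * (ε / (16 * m0)) := by
      field_simp
    rw [h4, h5] at h3
    exact le_of_mul_le_mul_right h3 (by positivity)
  have hGc : (N : ℝ) / (8 * M) ≤ G.card := by
    have h1 : (N : ℝ) / (4 * M) ≤ I := by
      have h2 : (N : ℝ) - 1 < (I : ℝ) * (2 * M) + 2 * M := by
        have h3 := Nat.lt_div_mul_add (a := N - 1) (b := 2 * M) (by omega)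
        rw [← hI] at h3
        have h4 : ((N - 1 : ℕ) : ℝ) < ((I * (2 * M) + 2 * M : ℕ) : ℝ) := by exact_mod_cast h3
        rw [Nat.cast_sub hN1] at h4
        push_cast at h4
        exact h4
      have h5 : (N : ℝ) ≤ (I : ℝ) * (2 * M) + 2 * M := by
        have h3 := Nat.lt_div_mul_add (a := N - 1) (b := 2 * M) (by omega)
        rw [← hI] at h3
        have h4 : N ≤ I * (2 * M) + 2 * M := by omega
        exact_mod_cast h4
      have h6 : 8 * (M : ℝ) ≤ N := by exact_mod_cast hN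
      rw [div_le_iff₀ (by positivity)]
      nlinarith
    have h2 : (G.card : ℝ) + G'.card = I := by exact_mod_cast hcard
    have h3 : (N : ℝ) / (4 * M) = N / (8 * M) + N / (8 * M) := by
      field_simp
      ring
    linarith
  have hGm : ∀ i ∈ G, i < I ∧ q (b i + kk i) ≤ ε := by
    intro i hi
    rw [hG, Finset.mem_filter, Finset.mem_range] at hi
    exact hi
  have hdist : ∀ i i' : ℕ, i < i' → (b i + kk i + 1) * m0 + M ≤ (b i' + kk i' + 1) * m0 := by
    intro i i' h
    have h1 := (hwin i _ (hkk1 i)).2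
    have h2 := (hwin i' _ (hkk1 i')).1
    have h3 : (2 * i + 2) * M ≤ 2 * i' * M := Nat.mul_le_mul_right _ (by omega)
    have e1 : (2 * i + 1) * M = 2 * i * M + M := by ring
    have e2 : (2 * i + 2) * M = 2 * i * M + 2 * M := by ring
    omega
  refine ⟨G.image fun i => (b i + kk i + 1) * m0, ?_, ?_, ?_⟩
  · rw [Finset.card_image_of_injOn]
    · exact hGc
    · intro i _ i' _ h
      have h' : (b i + kk i + 1) * m0 = (b i' + kk i' + 1) * m0 := h
      rcases lt_trichotomy i i' with h1 | h1 | h1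
      · have := hdist i i' h1
        omega
      · exact h1
      · have := hdist i' i h1
        omega
  · intro t ht
    rw [Finset.mem_image] at ht
    obtain ⟨i, hi, rfl⟩ := ht
    obtain ⟨h1, h2⟩ := hGm i hi
    refine ⟨Nat.mul_pos (by omega) h0, ?_, b i + kk i, rfl, h2⟩
    have h3 := hlev i (kk i) h1 (hkk1 i)
    rw [Nat.lt_iff_add_one_le, Nat.le_div_iff_mul_le h0] at h3
    omega
  · intro t ht t' ht' htt
    rw [Finset.mem_image] at ht ht'
    obtain ⟨i, hi, rfl⟩ := ht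
    obtain ⟨i', hi', rfl⟩ := ht'
    rcases lt_trichotomy i i' with h1 | h1 | h1
    · exact hdist i i' h1
    · subst h1
      omega
    · have := hdist i' i h1
      omega

variable {F : Fm} {κ K : ℝ} {Ds : Set Dr} {d : Dr}

/-- Measurability at a measurable position. -/
theorem meas_at83 {f : ℤ → Env → ℝ} (hf : ∀ z, Measurable (f z)) {c : Env → ℤ} (hc : Measurable c) :
    Measurable fun η => f (c η) η := by
  have h : Measurable fun p : ℤ × Env => f p.1 p.2 := measurable_from_prod_countable_right fun z => hf z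
  exact h.comp (hc.prodMk measurable_id)

/-- **THE SELECTION OF INSERTION POINTS** from (BT) and (L*). -/
theorem selP83 {a : ℝ} (h : Dirs F κ K Ds) (ha : 0 < a) (hR : Rate F Ds) (hG : Grow F Ds) (hLS : LStarP a F Ds)
    (hBt : BtMain F Ds) : SelP F a Ds := by
  classical
  intro H Cz
  rcases Ds.eq_empty_or_nonempty with h0 | ⟨d0, hd0⟩
  · refine ⟨0, 1, le_rfl, one_pos, fun ε _ => ⟨0, 0, fun d hd => ?_⟩⟩
    rw [h0] at hd
    exact absurd hd (Set.notMem_empty _)
  have hκ := (h.adm d0 hd0).κ0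
  have hK0 : 0 ≤ K := (abs_nonneg _).trans (h.slope d0 hd0)
  have hR1 : (1 : ℝ) ≤ F.co.R := by exact_mod_cast F.co.R_pos
  have hb := b_pos F
  have hCBt := CBt_nonneg F
  obtain ⟨Hn, hHn⟩ : ∃ Hn : ℕ, Hn = ⌈H⌉₊ + 1 := ⟨_, rfl⟩
  have hHn1 : H ≤ Hn := by
    have := Nat.le_ceil H
    rw [hHn]
    push_cast
    linarith
  have hHn2 : (1 : ℝ) ≤ Hn := by
    rw [hHn]
    push_cast
    have : (0 : ℝ) ≤ (⌈H⌉₊ : ℝ) := Nat.cast_nonneg _
    linarith
  obtain ⟨c, C, hc, hC, n1, h1⟩ := lstar83 hLS Hn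
  obtain ⟨Kx, hKx⟩ : ∃ Kx : ℝ, Kx = 16 * (|Cz| + Hn) + max 0 (Real.log (160 * C) / c) := ⟨_, rfl⟩
  have hCz := abs_nonneg Cz
  have hmx := le_max_left 0 (Real.log (160 * C) / c)
  have hKx1 : 16 * (|Cz| + Hn) ≤ Kx := by rw [hKx]; linarith
  have hKx0 : 0 < Kx := by linarith
  have hKx2 : Real.log (160 * C) / c ≤ Kx := by
    have := le_max_right 0 (Real.log (160 * C) / c)
    rw [hKx]
    linarith
  have hexp : 10 * C * Real.exp (-(c * Kx)) ≤ 1 / 16 := by
    rw [div_le_iff₀ hc] at hKx2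
    have h5 : 160 * C ≤ Real.exp (c * Kx) := by
      rw [← Real.exp_log (show 0 < 160 * C by positivity)]
      exact Real.exp_le_exp.2 (by linarith)
    rw [Real.exp_neg, ← div_eq_mul_inv, div_le_iff₀ (Real.exp_pos _)]
    linarith
  obtain ⟨R', hR'⟩ : ∃ R' : ℝ, R' = (3 * Kx + 2) / c := ⟨_, rfl⟩
  have hR'0 : 0 ≤ R' := by rw [hR']; positivity
  refine ⟨R' + (K + 1), 1 / 8, by linarith, by norm_num, fun ε hε => ?_⟩
  obtain ⟨m0, R0, N0, ε1, hm0, hR0, hε1, hbt⟩ := hBt (ε / 16) (by positivity)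
  obtain ⟨K1, hK1⟩ : ∃ K1 : ℝ, K1 = F.co.R + K := ⟨_, rfl⟩
  have hK10 : 1 ≤ K1 := by rw [hK1]; linarith
  obtain ⟨kk, hkk⟩ : ∃ kk : ℝ, kk = κ / K1 := ⟨_, rfl⟩
  have hkk0 : 0 < kk := by rw [hkk]; positivity
  obtain ⟨n2, h2⟩ := hR (ε1 / (|Cz| + 1)) (by positivity)
  obtain ⟨n3, h3⟩ := hG (CP F)
  obtain ⟨n4, hn41, h4⟩ := h.w_large hR ha (max (max (2 * c / kk) (2 / (c * kk))) (1 / Cr F))
  have hΛ0 : 0 ≤ CLs F + 2 * F.b * R0 := by
    unfold CLs
    positivity
  refine ⟨CLs F + 2 * F.b * R0, max (max n1 n2) (max (max n3 n4) (max N0 (4 * m0))), ?_⟩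
  intro d hd n N M y hn hM h8 hnN hNH hey hyl wc J Z osc hwc hosc hJ hZ
  have hadm := h.adm d hd
  have htch := h.touch d hd
  have hnn1 : n1 ≤ n := ((le_max_left _ _).trans (le_max_left _ _)).trans hn
  have hnn2 : n2 ≤ n := ((le_max_right _ _).trans (le_max_left _ _)).trans hn
  have hnn3 : n3 ≤ n := (((le_max_left _ _).trans (le_max_left _ _)).trans (le_max_right _ _)).trans hn
  have hnn4 : n4 ≤ n := (((le_max_right _ _).trans (le_max_left _ _)).trans (le_max_right _ _)).trans hn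
  have hnN0 : N0 ≤ n := (((le_max_left _ _).trans (le_max_right _ _)).trans (le_max_right _ _)).trans hn
  have hMm : 4 * m0 ≤ M := (((le_max_right _ _).trans (le_max_right _ _)).trans (le_max_right _ _)).trans hM
  have hn1 : 1 ≤ n := hn41.trans hnn4
  have hN1 : 1 ≤ N := hn1.trans hnN
  have hn0r : (0 : ℝ) < n := by exact_mod_cast hn1
  have hnNr : (n : ℝ) ≤ N := by exact_mod_cast hnN
  obtain ⟨E, hE⟩ : ∃ E : ℝ, E = EE F d n := ⟨_, rfl⟩
  obtain ⟨w, hw⟩ : ∃ w : ℝ, w = n * vA a F d n := ⟨_, rfl⟩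
  have hE0 : 0 < E := by rw [hE]; exact EE_pos F d n
  have hECr : Cr F ≤ E := by rw [hE]; exact Cr_le_EE F d n
  have hCr := Cr_pos F
  have hErate := h2 d hd n hnn2
  have hECP := h3 d hd n hnn3
  have hwE := h4 d hd n hnn4
  rw [← hE] at hErate hECP hwE hey
  rw [← hw] at hwE hyl hZ
  have hw_of : ∀ t : ℝ, t ≤ max (max (2 * c / kk) (2 / (c * kk))) (1 / Cr F) → t * E ≤ w :=
    fun t ht => (mul_le_mul_of_nonneg_right ht hE0.le).trans hwE
  have hw1 : 2 * c / kk * E ≤ w := hw_of _ ((le_max_left _ _).trans (le_max_left _ _))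
  have hw2 : 2 / (c * kk) * E ≤ w := hw_of _ ((le_max_right _ _).trans (le_max_left _ _))
  have hw6 : 1 ≤ w := by
    have h5 := hw_of _ (le_max_right _ _)
    have h6 : 1 / Cr F * Cr F ≤ 1 / Cr F * E := mul_le_mul_of_nonneg_left hECr (by positivity)
    rw [one_div_mul_cancel hCr.ne'] at h6
    linarith
  have hw0 : 0 < w := by linarith
  -- (BT)
  have heN : e F d N y ≤ ε1 * N := by
    have h5 : Cz * E ≤ |Cz| * E := mul_le_mul_of_nonneg_right (le_abs_self _) hE0.le
    have h6 : |Cz| * E ≤ (|Cz| + 1) * (ε1 / (|Cz| + 1) * n) := by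
      have h7 := mul_le_mul_of_nonneg_left hErate (show 0 ≤ |Cz| + 1 by linarith)
      have h8 : |Cz| * E ≤ (|Cz| + 1) * E := mul_le_mul_of_nonneg_right (by linarith) hE0.le
      linarith only [h7, h8]
    have h7 : (|Cz| + 1) * (ε1 / (|Cz| + 1) * n) = ε1 * n := by
      field_simp
    have h8 : ε1 * n ≤ ε1 * N := mul_le_mul_of_nonneg_left hnNr hε1.le
    linarith only [h5, h6, h7, h8, hey]
  obtain ⟨Bd, cp, bad, hcm, hcb, hbm, hgood, hwalk, hsum⟩ := hbt d hd N y (hnN0.trans hnN) heN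
  obtain ⟨Js, hJs1, hJs2, hJs3⟩ := levels83 (M := M) (N := N) hm0 hMm (by omega) (q := fun j => (law F).real (bad ((j + 1) * m0)))
    (fun _ => measureReal_nonneg) hε hsum
  -- the tube
  have hNHn : N ≤ Hn * n := by
    have h5 : (N : ℝ) ≤ ((Hn * n : ℕ) : ℝ) := by
      push_cast
      exact hNH.trans (mul_le_mul_of_nonneg_right hHn1 hn0r.le)
    exact_mod_cast h5
  obtain ⟨B, hBm, hBP, hBt'⟩ := tube_scale (F := F) (κ := κ) (d := d) (k1 := kk) (K1 := K1) hadm
    ⟨hkk0, by have := h.slope d hd; rw [hK1]; linarith, le_of_eq (by rw [hkk]; field_simp)⟩ hE0 hw0 hc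
    (by
      rw [div_le_iff₀ hw0]
      have h4 := mul_le_mul_of_nonneg_left hw1 hkk0.le
      rw [show kk * (2 * c / kk * E) = 2 * (c * E) by field_simp] at h4
      linarith only [h4])
    (by
      have h4 := mul_le_mul_of_nonneg_left hw2 (show 0 ≤ c * kk by positivity)
      rw [show c * kk * (2 / (c * kk) * E) = 2 * E by field_simp] at h4
      rw [show c / E * (kk / 2 * w) = c * kk * w / (2 * E) by field_simp, le_div_iff₀ (by positivity)]
      linarith only [h4])
    hECP (N := N) (C := C)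
    (fun o => by
      have h4 := h1 d hd n hnn1 N hNHn o
      rw [← hE, ← hw] at h4
      exact h4) Kx y
  have hBP' : (law F).real B ≤ 1 / 16 := hBP.trans hexp
  -- the cost
  have hXP : (law F).real {η | Kx * E < X F d η 0 N y} ≤ 1 / 16 := by
    have h5 : ep F d N y ≤ (|Cz| + Hn) * E := by
      have h6 := ep_le_e_add hadm htch hN1 y
      obtain ⟨y', hy'⟩ := es_attained hadm N
      have h7 := h6 y'
      rw [hy'] at h7
      have h8 : es F d N + Cr F ≤ EE F d (Hn * n) := le_EE F d hNHn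
      have h9 := EE_mul F d n (k := Hn) (by omega)
      rw [← hE] at h9
      have h10 : Cz * E ≤ |Cz| * E := mul_le_mul_of_nonneg_right (le_abs_self _) hE0.le
      rw [add_mul]
      linarith only [h7, h8, h9, h10, hey, hCr]
    have h6 := mul_meas_ge_le_integral_of_nonneg (μ := law F) (f := fun η => max (X F d η 0 N y) 0)
      (Filter.Eventually.of_forall fun _ => le_max_right _ _) ((X_integrable hadm 0 hN1 y).pos_part) (Kx * E)
    have h7 : ∫ η, max (X F d η 0 N y) 0 ∂(law F) = ep F d N y := rfl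
    rw [h7] at h6
    have h8 : (law F).real {η | Kx * E < X F d η 0 N y} ≤ (law F).real {η | Kx * E ≤ max (X F d η 0 N y) 0} := by
      refine measureReal_mono fun η hη => ?_
      have hη' : Kx * E < X F d η 0 N y := hη
      exact le_trans hη'.le (le_max_left _ _)
    have h9 : 16 * (|Cz| + Hn) * E ≤ Kx * E := mul_le_mul_of_nonneg_right hKx1 hE0.le
    have h10 : Kx * E * (law F).real {η | Kx * E ≤ max (X F d η 0 N y) 0} ≤ Kx * E * (1 / 16) := by
      linarith only [h6, h5, h9]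
    exact h8.trans (le_of_mul_le_mul_left h10 (by positivity))
  -- the selection
  have hXm : ∀ t : ℕ, Measurable fun η => X F d η 0 t (cp t η) := fun t =>
    meas_at83 (f := fun z η => X F d η 0 t z) (fun z => X_meas F d 0 t z) (hcm t)
  have hXm2 : ∀ t : ℕ, Measurable fun η => X F d η ((t : ℤ), cp t η) (N - t) (y - cp t η) := fun t =>
    meas_at83 (f := fun z η => X F d η ((t : ℤ), z) (N - t) (y - z)) (fun z => X_meas F d _ _ _) (hcm t)
  obtain ⟨df, hdf⟩ : ∃ df : ℕ → Env → ℝ, ∀ t η, df t η = X F d η 0 t (cp t η) +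
    X F d η ((t : ℤ), cp t η) (N - t) (y - cp t η) - X F d η 0 N y := ⟨_, fun _ _ => rfl⟩
  have hdfm : ∀ t, Measurable (df t) := fun t => by
    have : df t = fun η => X F d η 0 t (cp t η) + X F d η ((t : ℤ), cp t η) (N - t) (y - cp t η) - X F d η 0 N y :=
      funext fun η => hdf t η
    rw [this]
    exact ((hXm t).add (hXm2 t)).sub (X_meas F d 0 N y)
  have hdfb : ∀ t : ℕ, 1 ≤ t → t < N → ∃ Q : ℝ, ∀ η, |df t η| ≤ Q := by
    intro t ht htN
    refine ⟨(C1 F * t + 2 * F.b * (F.co.M * Bd) + 4 * F.b) +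
      (C1 F * (N - t : ℕ) + 2 * F.b * (F.co.M * (|(y : ℝ)| + Bd)) + 4 * F.b) +
      (C1 F * N + 2 * F.b * (F.co.M * |(y : ℝ)|) + 4 * F.b), fun η => ?_⟩
    have hM0 : (0 : ℝ) ≤ F.co.M := by
      have : (1 : ℝ) ≤ F.co.M := by exact_mod_cast F.co.M_pos
      linarith
    have h5 := abs_X_le hadm η 0 ht (cp t η)
    have h6 := abs_X_le hadm η ((t : ℤ), cp t η) (n := N - t) (by omega) (y - cp t η)
    have h7 := abs_X_le hadm η 0 hN1 y
    have h8 : |(cp t η : ℝ)| ≤ Bd := by
      have := hcb t η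
      have h9 : ((|cp t η| : ℤ) : ℝ) ≤ Bd := by exact_mod_cast this
      rwa [Int.cast_abs] at h9
    have h9 : |((y - cp t η : ℤ) : ℝ)| ≤ |(y : ℝ)| + Bd := by
      push_cast
      exact (abs_sub _ _).trans (by linarith)
    have h10 : 2 * F.b * (F.co.M * |(cp t η : ℝ)|) ≤ 2 * F.b * (F.co.M * Bd) :=
      mul_le_mul_of_nonneg_left (mul_le_mul_of_nonneg_left h8 hM0) (by positivity)
    have h11 : 2 * F.b * (F.co.M * |((y - cp t η : ℤ) : ℝ)|) ≤ 2 * F.b * (F.co.M * (|(y : ℝ)| + Bd)) :=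
      mul_le_mul_of_nonneg_left (mul_le_mul_of_nonneg_left h9 hM0) (by positivity)
    rw [hdf]
    have h12 := abs_sub (X F d η 0 t (cp t η) + X F d η ((t : ℤ), cp t η) (N - t) (y - cp t η)) (X F d η 0 N y)
    have h13 := abs_add_le (X F d η 0 t (cp t η)) (X F d η ((t : ℤ), cp t η) (N - t) (y - cp t η))
    linarith only [h5, h6, h7, h10, h11, h12, h13]
  refine ⟨Js, fun t => ⌊d.v * t⌋, Bd, cp, fun t η => max 0 (df t η), ?_⟩
  refine { card := ?_, mem := fun t ht => ⟨(hJs2 t ht).1, (hJs2 t ht).2.1⟩, dist := hJs3, cmeas := fun t _ => hcm t,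
           cbd := fun t _ η => hcb t η, lmeas := fun t _ => measurable_const.max (hdfm t), lint := ?_,
           lnn := fun _ _ _ => le_max_left _ _, sel := ?_, conf := ?_, loss := ?_ }
  · have h5 : (J : ℝ) ≤ Js.card := by
      refine hJ.trans (le_trans ?_ hJs1)
      have hM0 : (0 : ℝ) < M := by
        have : 1 ≤ M := by omega
        exact_mod_cast this
      rw [one_div_mul_eq_div, div_div, mul_comm (M : ℝ) 8]
      exact div_le_div_of_nonneg_right hnNr (by positivity)
    exact_mod_cast h5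
  · intro t ht
    obtain ⟨Q, hQ⟩ := hdfb t (hJs2 t ht).1 (hJs2 t ht).2.1
    refine Integrable.of_bound (measurable_const.max (hdfm t)).aestronglyMeasurable Q
      (Filter.Eventually.of_forall fun η => ?_)
    rw [Real.norm_eq_abs, abs_of_nonneg (le_max_left _ _)]
    exact max_le ((abs_nonneg _).trans (hQ η)) ((le_abs_self _).trans (hQ η))
  · intro t _ η
    have h5 := le_max_right 0 (df t η)
    have h6 := hdf t η
    linarith only [h5, h6]
  · intro t ht
    obtain ⟨ht1, htN, -⟩ := hJs2 t ht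
    have hmeas : MeasurableSet {η | -(Z : ℤ) ≤ (cp t η - ⌊d.v * t⌋) / wc ∧ (cp t η - ⌊d.v * t⌋) / wc < Z} :=
      (hcm t) (MeasurableSet.of_discrete (s := {z : ℤ | -(Z : ℤ) ≤ (z - ⌊d.v * t⌋) / wc ∧ (z - ⌊d.v * t⌋) / wc < Z}))
    have h5 : (law F).real {η | -(Z : ℤ) ≤ (cp t η - ⌊d.v * t⌋) / wc ∧ (cp t η - ⌊d.v * t⌋) / wc < Z}ᶜ ≤ 1 / 8 := by
      refine le_trans (measureReal_mono (s₂ := B ∪ {η | Kx * E < X F d η 0 N y}) fun η hη => ?_)
        ((measureReal_union_le _ _).trans (by linarith))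
      by_contra hcon
      rw [Set.mem_union, not_or] at hcon
      obtain ⟨hc1, hc2⟩ := hcon
      have hc3 : X F d η 0 N y ≤ Kx * E := not_lt.1 hc2
      apply hη
      obtain ⟨g, hg1, hg2, u, hu1, hu2, hu3, hu4⟩ := hwalk t η ht1 htN
      have h6 := hBt' η hc1 g hg1 (by rw [exc_min F d η hg2]; exact hc3) u hu1
      rw [← hR'] at h6
      unfold latV at h6
      rw [hu2] at h6
      have hL : (0 : ℝ) < F.co.L := by
        have := F.co.L_pos
        exact_mod_cast (by omega : 0 < F.co.L)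
      have hLM : (F.co.L : ℝ) = F.co.M + 1 := by
        have := F.co.L_eq
        exact_mod_cast this
      have h7 : |(F.co.tm u : ℝ) / F.co.L - t| ≤ 1 := by
        have e1 : (F.co.tm u : ℝ) / F.co.L - t = (F.co.tm u - F.co.L * t) / F.co.L := by field_simp
        rw [e1, abs_div, abs_of_pos hL, div_le_one hL, abs_le]
        have h8 : (F.co.L : ℝ) * t ≤ F.co.tm u + F.co.M := by exact_mod_cast hu3
        have h9 : (F.co.tm u : ℝ) < F.co.L * t := by exact_mod_cast hu4
        constructor <;> linarith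
      have h8 : |(cp t η : ℝ) - d.v * t| ≤ R' * w + K := by
        have e1 : (cp t η : ℝ) - d.v * t = (cp t η - d.v * ((F.co.tm u : ℝ) / F.co.L)) +
          d.v * ((F.co.tm u : ℝ) / F.co.L - t) := by ring
        rw [e1]
        refine (abs_add_le _ _).trans (add_le_add h6 ?_)
        rw [abs_mul]
        have h9 := mul_le_mul (h.slope d hd) h7 (abs_nonneg _) hK0
        rwa [mul_one] at h9
      have h9 : |((cp t η - ⌊d.v * t⌋ : ℤ) : ℝ)| ≤ R' * w + (K + 1) := by
        have h10 := Int.floor_le (d.v * t)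
        have h11 := Int.lt_floor_add_one (d.v * t)
        have h12 := abs_le.1 h8
        push_cast
        rw [abs_le]
        constructor <;> linarith [h12.1, h12.2]
      have h10 : R' * w + (K + 1) ≤ (R' + (K + 1)) * w := by
        rw [add_mul]
        have : (K + 1) * 1 ≤ (K + 1) * w := mul_le_mul_of_nonneg_left hw6 (by linarith)
        linarith
      have h11 : |((cp t η - ⌊d.v * t⌋ : ℤ) : ℝ)| + wc ≤ Z * wc := by linarith
      have h12 : |cp t η - ⌊d.v * t⌋| + wc ≤ Z * wc := by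
        rw [← Int.cast_abs] at h11
        exact_mod_cast h11
      have h13 := abs_le.1 (show |cp t η - ⌊d.v * t⌋| ≤ Z * wc - wc by linarith)
      refine ⟨?_, ?_⟩
      · rw [Int.le_ediv_iff_mul_le hwc]
        linarith [h13.1]
      · rw [Int.ediv_lt_iff_lt_mul hwc]
        linarith [h13.2]
    have h6 := probReal_compl_eq_one_sub (μ := law F) hmeas
    linarith
  · intro t ht
    obtain ⟨ht1, htN, j, hj, hjq⟩ := hJs2 t ht
    have hjq' : (law F).real (bad t) ≤ ε := by rw [hj]; exact hjq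
    have h5 : ∫ η, min (max 0 (df t η)) osc ∂(law F) ≤
        ∫ η, ((CLs F + 2 * F.b * R0) + (bad t).indicator (fun _ => osc) η) ∂(law F) := by
      refine integral_mono_of_nonneg (Filter.Eventually.of_forall fun η => le_min (le_max_left _ _) hosc)
        ((integrable_const _).add ((integrable_const _).indicator (hbm t)))
        (Filter.Eventually.of_forall fun η => ?_)
      by_cases hη : η ∈ bad t
      · show min (max 0 (df t η)) osc ≤ (CLs F + 2 * F.b * R0) + (bad t).indicator (fun _ => osc) η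
        rw [Set.indicator_of_mem hη]
        have := min_le_right (max 0 (df t η)) osc
        linarith
      · show min (max 0 (df t η)) osc ≤ (CLs F + 2 * F.b * R0) + (bad t).indicator (fun _ => osc) η
        rw [Set.indicator_of_notMem hη, add_zero]
        refine (min_le_left _ _).trans (max_le hΛ0 ?_)
        have h6 := hgood t η ht1 htN hη
        have h7 := hdf t η
        linarith only [h6, h7]
    rw [integral_add (integrable_const _) ((integrable_const _).indicator (hbm t)), integral_const, probReal_univ,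
      one_smul, integral_indicator_const _ (hbm t), smul_eq_mul] at h5
    have h6 := mul_le_mul_of_nonneg_right hjq' hosc
    linarith

end

end Pool.Agent.W_1b8d5d_h48
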