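import Pool.Agent.W_1b8d5d_h48.InsT
import Pool.Agent.W_1b8d5d_h48.EndP

/-!
# Track P, section B: blocks and one step (helper48)
-/

namespace Pool.Agent.W_1b8d5d_h48

open MeasureTheory ProbabilityTheory Finset
open Pool.Agent.W_1b8d5d_h85 (V nm dir Edge Env grid ke wedges cost Bd sh rf)
open Pool.Agent.W_1b8d5d_p
open Pool.Agent.W_7d29a1_f21 (lw mp_integral mp_reindex)
open Pool.Agent.W_7d29a1_h48 (Lip bint bmul bdmul MonoOn monoOn_of_monotone var_phase)

noncomputable section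

/-- A core event: `E` is increasing in `η` (decreasing in the weights), depends on the finite set
`D` of edges of the rows `[0, M)` at the distance `≤ b` of a line, and on `E` the displacement
`(M, k)` is lucky by `Y`. -/
structure CoreEv (F : Fm) (d : Dr) (sl b Y : ℝ) (M : ℕ) (k : ℤ) (E : Set Env)
    (D : Finset Edge) : Prop where
  meas : MeasurableSet E
  up : ∀ η η' : Env, (∀ e, η e ≤ η' e) → η ∈ E → η' ∈ E
  dep : ∀ η η' : Env, (∀ e ∈ D, η e = η' e) → (η ∈ E ↔ η' ∈ E)
  rows : ∀ e ∈ D, e ∈ F.co.rows 0 M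
  lat : ∀ e ∈ D, |(F.co.ps e.1 : ℝ) - sl * F.co.tm e.1| ≤ b
  luck : ∀ η ∈ E, Y ≤ -X F d η 0 M k

variable {F : Fm} {d : Dr}

/-- The indicator of the core event started at `a`. -/
def GE (F : Fm) (E : Set Env) (a : Pt) (η : Env) : ℝ := E.indicator (fun _ => (1 : ℝ)) (F.shp a η)

/-- The edges of the block started at `a`. -/
def DE (F : Fm) (D : Finset Edge) (a : Pt) : Finset Edge := by
  classical exact D.image fun e => (e.1 + F.co.vt a, e.2)

lemma mem_DE {D : Finset Edge} {a : Pt} {e : Edge} :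
    e ∈ DE F D a ↔ ∃ e' ∈ D, (e'.1 + F.co.vt a, e'.2) = e := by
  classical
  unfold DE
  rw [Finset.mem_image]

variable {sl b Y : ℝ} {M : ℕ} {k : ℤ} {E : Set Env} {D : Finset Edge}

lemma GE_meas (h : CoreEv F d sl b Y M k E D) (a : Pt) : Measurable (GE F E a) :=
  (measurable_const.indicator h.meas).comp (mp_shp F a).measurable

lemma GE_nonneg (a : Pt) (η : Env) : 0 ≤ GE F E a η :=
  Set.indicator_nonneg (fun _ _ => zero_le_one) _

lemma GE_le_one (a : Pt) (η : Env) : GE F E a η ≤ 1 :=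
  Set.indicator_le_self' (fun _ _ => zero_le_one) _

lemma GE_mono (h : CoreEv F d sl b Y M k E D) (a : Pt) : Monotone (GE F E a) := by
  intro η η' hη
  unfold GE
  by_cases h1 : F.shp a η ∈ E
  · have h2 : F.shp a η' ∈ E := h.up _ _ (fun e => hη _) h1
    rw [Set.indicator_of_mem h1, Set.indicator_of_mem h2]
  · rw [Set.indicator_of_notMem h1]
    exact Set.indicator_nonneg (fun _ _ => zero_le_one) _

lemma GE_dep (h : CoreEv F d sl b Y M k E D) (a : Pt) :
    DependsOn (GE F E a) (DE F D a : Set Edge) := by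
  intro η η' hη
  have h1 := h.dep (F.shp a η) (F.shp a η') fun e he => hη _ (by
    rw [Finset.mem_coe, mem_DE]
    exact ⟨e, he, rfl⟩)
  unfold GE
  by_cases h2 : F.shp a η ∈ E
  · rw [Set.indicator_of_mem h2, Set.indicator_of_mem (h1.1 h2)]
  · rw [Set.indicator_of_notMem h2, Set.indicator_of_notMem fun h3 => h2 (h1.2 h3)]

lemma GE_luck (h : CoreEv F d sl b Y M k E D) {a : Pt} {η : Env} (hη : GE F E a η ≠ 0) :
    Y ≤ -X F d η a M k := by
  have h1 : F.shp a η ∈ E := by
    by_contra h1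
    exact hη (Set.indicator_of_notMem h1 _)
  have h2 := h.luck _ h1
  rwa [X_shp, zero_add] at h2

lemma GE_int (h : CoreEv F d sl b Y M k E D) (a : Pt) :
    ∫ η, GE F E a η ∂(law F) = (law F).real E := by
  have h1 := shp_int (F := F) (g := E.indicator fun _ => (1 : ℝ))
    (measurable_const.indicator h.meas) a
  rw [integral_indicator_const _ h.meas] at h1
  show ∫ η, E.indicator (fun _ => (1 : ℝ)) (F.shp a η) ∂(law F) = (law F).real E
  simpa using h1

lemma GE_indep (h : CoreEv F d sl b Y M k E D) {a a' : Pt}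
    (hd : Disjoint (DE F D a : Set Edge) (DE F D a' : Set Edge)) :
    ∫ η, GE F E a η * GE F E a' η ∂(law F) =
      (∫ η, GE F E a η ∂(law F)) * ∫ η, GE F E a' η ∂(law F) :=
  integral_indep (GE_meas h a) (GE_meas h a') (GE_dep h a) (GE_dep h a') hd

lemma DE_rows (h : CoreEv F d sl b Y M k E D) (a : Pt) :
    (DE F D a : Set Edge) ⊆ F.co.rows a.1 (a.1 + M) := by
  intro e he
  rw [Finset.mem_coe, mem_DE] at he
  obtain ⟨e', he', rfl⟩ := he
  obtain ⟨h1, h2⟩ := h.rows e' he'
  have h3 : F.co.tm (e'.1 + F.co.vt a) = F.co.tm e'.1 + F.co.L * a.1 := by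
    rw [Co.tm_add, Co.tm_vt]
  refine ⟨?_, ?_⟩
  · show F.co.L * a.1 ≤ F.co.tm (e'.1 + F.co.vt a)
    rw [h3]
    linarith
  · show F.co.tm (e'.1 + F.co.vt a) < F.co.L * (a.1 + M)
    rw [h3, mul_add]
    linarith

lemma DE_disj_rows (h : CoreEv F d sl b Y M k E D) {a a' : Pt} (ha : a.1 + M ≤ a'.1) :
    Disjoint (DE F D a : Set Edge) (DE F D a' : Set Edge) :=
  (Co.rows_disjoint ha).mono (DE_rows h a) (DE_rows h a')

lemma DE_disj_cols (h : CoreEv F d sl b Y M k E D) {a a' : Pt} (h1 : a.1 = a'.1)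
    (h2 : 2 * b < |((a.2 - a'.2 : ℤ) : ℝ)|) :
    Disjoint (DE F D a : Set Edge) (DE F D a' : Set Edge) := by
  rw [Set.disjoint_left]
  intro e he he'
  rw [Finset.mem_coe, mem_DE] at he he'
  obtain ⟨e1, he1, hh1⟩ := he
  obtain ⟨e2, he2, hh2⟩ := he'
  have h3 := h.lat e1 he1
  have h4 := h.lat e2 he2
  have h5 : e1.1 + F.co.vt a = e2.1 + F.co.vt a' := by
    have := hh1.trans hh2.symm
    rw [Prod.mk.injEq] at this
    exact this.1
  have h6 : F.co.tm e1.1 = F.co.tm e2.1 := by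
    have := congrArg F.co.tm h5
    rw [Co.tm_add, Co.tm_add, Co.tm_vt, Co.tm_vt, h1] at this
    linarith
  have h7 : a.2 - a'.2 = F.co.ps e2.1 - F.co.ps e1.1 := by
    have := congrArg F.co.ps h5
    rw [Co.ps_add, Co.ps_add, Co.ps_vt, Co.ps_vt] at this
    linarith
  rw [h7] at h2
  rw [h6] at h3
  have h8 : ((F.co.ps e2.1 - F.co.ps e1.1 : ℤ) : ℝ) =
      ((F.co.ps e2.1 : ℝ) - sl * F.co.tm e2.1) - ((F.co.ps e1.1 : ℝ) - sl * F.co.tm e2.1) := by
    push_cast
    ring
  rw [h8] at h2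
  have h9 := abs_sub ((F.co.ps e2.1 : ℝ) - sl * F.co.tm e2.1)
    ((F.co.ps e1.1 : ℝ) - sl * F.co.tm e2.1)
  linarith

variable {κ0 : ℝ}

/-- **One step.** `N`, `y`: time and end of the walk; blocks at the times `t ∈ Js`; `c t`: position
of the minimal walk at the time `t`, `lo t`: loss at the time `t`. -/
theorem stepT (hd : Adm F κ0 d) (hg : Antitone F.g) (hE : CoreEv F d sl b Y M k E D)
    {m N Z q : ℕ} {wc uo y Bd : ℤ} (hm : 1 ≤ m) (hM : 1 ≤ M) (hwc : 0 < wc) (hq1 : 0 < q)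
    (hq : 2 * b < q * wc) (hZ : 1 ≤ Z) (hY : 0 < Y) {p A x δ lam osc : ℝ} (hp0 : 0 < p)
    (hp : p ≤ (law F).real E)
    (hA : ∀ u : ℤ, |u - uo| ≤ wc → ∫ η, max (X F d η 0 m u) 0 ∂(law F) ≤ A)
    (hx : ∫ η, max (X F d η 0 (m + M + m) (uo + k + uo)) 0 ∂(law F) ≤ x)
    (Js : Finset ℕ) (hJ1 : ∀ t ∈ Js, 1 ≤ t ∧ t < N)
    (hJ2 : ∀ t ∈ Js, ∀ t' ∈ Js, t < t' → t + M ≤ t')
    (cen : ℕ → ℤ) (c : ℕ → Env → ℤ) (hcm : ∀ t ∈ Js, Measurable (c t))
    (hcb : ∀ t ∈ Js, ∀ η, |c t η| ≤ Bd)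
    (lo : ℕ → Env → ℝ) (hlm : ∀ t ∈ Js, Measurable (lo t))
    (hli : ∀ t ∈ Js, Integrable (lo t) (law F)) (hl0 : ∀ t ∈ Js, ∀ η, 0 ≤ lo t η)
    (hlo : ∀ t ∈ Js, ∀ η, X F d η 0 t (c t η) + X F d η ((t : ℤ), c t η) (N - t) (y - c t η) ≤
      X F d η 0 N y + lo t η)
    (hδ : ∀ t ∈ Js, 1 - δ ≤
      (law F).real {η | -(Z : ℤ) ≤ (c t η - cen t) / wc ∧ (c t η - cen t) / wc < Z})
    (hlam : ∀ t ∈ Js, ∫ η, min (lo t η) osc ∂(law F) ≤ lam)
    {Φ : ℝ → ℝ} (hΦ : Lip Φ) (hosc : ∀ u v, Φ u ≤ Φ v + osc) {g K : ℝ}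
    (hg1 : g ≤ max 0 (∫ η, (Φ (-X F d η 0 N y + Y) - Φ (-X F d η 0 N y)) ∂(law F) - Y * δ))
    (hK0 : 0 ≤ K)
    (hK : K ≤ g + ∫ η, Φ (-X F d η 0 N y) ∂(law F) -
      ∫ η, Φ (-X F d η 0 (N + (m + M + m)) (y + (uo + k + uo))) ∂(law F) -
      Real.log (2 * Z) - 1 - 2 * A - x * δ - lam) :
    p * Js.card * K ^ 2 / (2 * Z) ≤
      q * (∫ η, Φ (-X F d η 0 (N + (m + M + m)) (y + (uo + k + uo))) ^ 2 ∂(law F) -
      (∫ η, Φ (-X F d η 0 (N + (m + M + m)) (y + (uo + k + uo))) ∂(law F)) ^ 2) := by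
  classical
  obtain ⟨l, hl⟩ : ∃ l : ℕ, l = m + M + m := ⟨_, rfl⟩
  obtain ⟨kk, hkk⟩ : ∃ kk : ℤ, kk = uo + k + uo := ⟨_, rfl⟩
  rw [← hl, ← hkk] at hK hx ⊢
  have hZ0 : (0 : ℝ) < Z := by exact_mod_cast (lt_of_lt_of_le one_pos hZ)
  have hcard : ((Finset.Ico (-(Z : ℤ)) Z).card : ℝ) = 2 * Z := by
    rw [Int.card_Ico]
    have : ((Z : ℤ) - -(Z : ℤ)).toNat = 2 * Z := by omega
    rw [this]
    push_cast
    ring
  have hZs : (Finset.Ico (-(Z : ℤ)) Z).Nonempty := ⟨0, by rw [Finset.mem_Ico]; omega⟩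
  obtain ⟨a, ha⟩ : ∃ a : ℕ → ℤ → Pt, ∀ t z, a t z =
    ((t : ℤ) + m, cen t + z * wc + uo) := ⟨_, fun _ _ => rfl⟩
  have hGi : ∀ t z, ∫ η, GE F E (a t z) η ∂(law F) = (law F).real E := fun t z => GE_int hE _
  have hTm : Measurable fun η : Env => -X F d η 0 (N + l) (y + kk) := (X_meas F d _ _ _).neg
  have hTb : ∃ C : ℝ, ∀ η, |-X F d η 0 (N + l) (y + kk)| ≤ C := by
    refine ⟨C1 F * ((N + l : ℕ) : ℝ) + 2 * F.b * (F.co.M * |((y + kk : ℤ) : ℝ)|) + 4 * F.b,
      fun η => ?_⟩
    rw [abs_neg]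
    exact abs_X_le hd η 0 (by omega) _
  obtain ⟨CT, hCT⟩ := hTb
  have hΦm : Measurable Φ := hΦ.mono.measurable
  have hT2 : Integrable (fun η => Φ (-X F d η 0 (N + l) (y + kk)) ^ 2) (law F) := by
    have hb : ∀ η, |Φ (-X F d η 0 (N + l) (y + kk))| ≤ |Φ 0| + CT := fun η =>
      (hΦ.abs_le _).trans (by linarith [hCT η])
    have := bint (P := law F) ((hΦm.comp hTm).mul (hΦm.comp hTm)) (bmul hb hb)
    refine this.congr (Filter.Eventually.of_forall fun η => ?_)
    show Φ (-X F d η 0 (N + l) (y + kk)) * Φ (-X F d η 0 (N + l) (y + kk)) = _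
    ring
  have hins : ∀ t ∈ Js, K ≤ ∑ z ∈ Finset.Ico (-(Z : ℤ)) Z,
      ((∫ η, GE F E (a t z) η * Φ (-X F d η 0 (N + l) (y + kk)) ∂(law F)) /
        (∫ η, GE F E (a t z) η ∂(law F)) -
          ∫ η, Φ (-X F d η 0 (N + l) (y + kk)) ∂(law F)) := by
    intro t ht
    obtain ⟨ht1, htN⟩ := hJ1 t ht
    obtain ⟨m', hm'⟩ : ∃ m' : ℕ, N = t + m' := ⟨N - t, by omega⟩
    have hm1 : 1 ≤ m' := by omega
    obtain ⟨I, hI⟩ : ∃ I : ℤ → Finset ℤ, ∀ z, I z =
      (Finset.Icc (-Bd) Bd).filter fun p => (p - cen t) / wc = z := ⟨_, fun _ => rfl⟩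
    have hmemI : ∀ z p, p ∈ I z → z * wc ≤ p - cen t ∧ p - cen t < z * wc + wc := by
      intro z p hp
      rw [hI, Finset.mem_filter] at hp
      have h1 := Int.ediv_mul_le (p - cen t) hwc.ne'
      have h2 := Int.lt_ediv_add_one_mul_self (p - cen t) hwc
      rw [hp.2] at h1 h2
      have h3 : (z + 1) * wc = z * wc + wc := by ring
      rw [h3] at h2
      exact ⟨h1, h2⟩
    obtain ⟨ν, hν⟩ : ∃ ν : Env → ℝ, ∀ η, ν η = ∑ z ∈ Finset.Ico (-(Z : ℤ)) Z, ∑ p ∈ I z,
      Set.indicator {η | c t η = p} (fun _ => (1 : ℝ)) η := ⟨_, fun _ => rfl⟩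
    obtain ⟨Wn, hWn⟩ : ∃ Wn : Set Env, Wn =
      {η | -(Z : ℤ) ≤ (c t η - cen t) / wc ∧ (c t η - cen t) / wc < Z} := ⟨_, rfl⟩
    have hνW : ∀ η, ν η = Wn.indicator (fun _ => (1 : ℝ)) η := by
      intro η
      rw [hν]
      have h1 : ∀ z ∈ Finset.Ico (-(Z : ℤ)) Z, ∑ p ∈ I z,
          Set.indicator {η | c t η = p} (fun _ => (1 : ℝ)) η =
          if (c t η - cen t) / wc = z then 1 else 0 := by
        intro z _
        by_cases h : (c t η - cen t) / wc = z
        · rw [if_pos h, Finset.sum_eq_single (c t η)]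
          · exact Set.indicator_of_mem (show η ∈ {η' | c t η' = c t η} from rfl) _
          · intro p _ hp
            exact Set.indicator_of_notMem
              (show η ∉ {η | c t η = p} from fun h' : c t η = p => hp h'.symm) _
          · intro h'
            refine absurd ?_ h'
            rw [hI, Finset.mem_filter, Finset.mem_Icc]
            exact ⟨abs_le.1 (hcb t ht η), h⟩
        · rw [if_neg h]
          refine Finset.sum_eq_zero fun p hp => ?_
          refine Set.indicator_of_notMem (show η ∉ {η | c t η = p} from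
            fun h' : c t η = p => h ?_) _
          rw [hI, Finset.mem_filter] at hp
          rw [h']
          exact hp.2
      rw [Finset.sum_congr rfl h1, Finset.sum_ite_eq]
      by_cases h : η ∈ Wn
      · rw [Set.indicator_of_mem h, if_pos]
        rw [hWn] at h
        rw [Finset.mem_Ico]
        exact h
      · rw [Set.indicator_of_notMem h, if_neg]
        intro h'
        rw [Finset.mem_Ico] at h'
        exact h (by rw [hWn]; exact h')
    have hWm : MeasurableSet Wn := by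
      have : Wn = c t ⁻¹' {p | -(Z : ℤ) ≤ (p - cen t) / wc ∧ (p - cen t) / wc < Z} := by
        rw [hWn]
        rfl
      rw [this]
      exact hcm t ht (MeasurableSet.of_discrete)
    have key := insT (F := F) (d := d) hd hg (κ := ℤ) (t := t) (l1 := m) (l2 := M) (l3 := m)
      (m := m') ht1 hm hM hm hm1 kk y (Finset.Icc (-Bd) Bd) (Finset.Ico (-(Z : ℤ)) Z) hZs I
      (fun z _ => by rw [hI]; exact Finset.filter_subset _ _)
      (fun z _ z' _ hzz => by
        rw [Finset.disjoint_left]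
        intro p hp1 hp2
        rw [hI, Finset.mem_filter] at hp1 hp2
        exact hzz (hp1.2.symm.trans hp2.2))
      (fun z => cen t + z * wc + uo) (fun z => cen t + z * wc + uo + k)
      (c := c t) (fun η => by
        rw [Finset.mem_Icc]
        exact abs_le.1 (hcb t ht η)) (hcm t ht) (lo := lo t) (hlm t ht) (hli t ht) (hl0 t ht)
      (fun η => by
        have h1 := hlo t ht η
        rw [show N - t = m' by omega, hm'] at h1
        exact h1)
      (fun z => DE F D (a t z))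
      (fun z _ => by
        refine (DE_rows hE (a t z)).trans ?_
        rw [ha])
      (G := fun z => GE F E (a t z)) (fun z _ => GE_meas hE _) (fun z _ => GE_nonneg _)
      (fun z _ => GE_le_one _) (fun z _ => GE_mono hE _) (fun z _ => GE_dep hE _)
      (fun z _ => by
        rw [hGi]
        exact lt_of_lt_of_le hp0 hp)
      (Y := Y) (a := 2 * A) (x := x)
      (fun z _ η hη => by
        have h1 := GE_luck hE hη
        rw [ha] at h1
        have e : cen t + z * wc + uo + k - (cen t + z * wc + uo) = k := by ring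
        simp only [e]
        exact h1)
      (fun z _ p hp => by
        obtain ⟨h3, h4⟩ := hmemI z p hp
        have a1 := hA (cen t + z * wc + uo - p) (by rw [abs_le]; constructor <;> omega)
        have a2 := hA (p + kk - (cen t + z * wc + uo + k))
          (by rw [abs_le]; constructor <;> omega)
        linarith)
      (by rw [← hl]; exact hx) hΦ hosc (N := N + l) (by rw [← hl, hm']; ring) (ν := ν) hν
    rw [← hm'] at key
    have hν0 : ∀ η, 0 ≤ ν η := fun η => by
      rw [hνW]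
      exact Set.indicator_nonneg (fun _ _ => zero_le_one) _
    have hν1 : ∀ η, ν η ≤ 1 := fun η => by
      rw [hνW]
      exact Set.indicator_le_self' (fun _ _ => zero_le_one) _
    have hνm : Measurable ν := by
      have : ν = Wn.indicator (fun _ => (1 : ℝ)) := funext hνW
      rw [this]
      exact measurable_const.indicator hWm
    have hνi : Integrable ν (law F) := bint hνm (a := 1) fun η => by
      rw [abs_of_nonneg (hν0 η)]
      exact hν1 η
    have hνint : ∫ η, ν η ∂(law F) = (law F).real Wn := by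
      simp only [hνW]
      rw [integral_indicator_const _ hWm]
      simp
    have hδt : 1 - δ ≤ ∫ η, ν η ∂(law F) := by
      rw [hνint, hWn]
      exact hδ t ht
    have hν1i : ∫ η, ν η ∂(law F) ≤ 1 := by
      rw [hνint]
      exact measureReal_le_one
    have hx0 : 0 ≤ x := le_trans (integral_nonneg fun η => le_max_right _ _) hx
    have hA0 : 0 ≤ A := le_trans (integral_nonneg fun η => le_max_right _ _)
      (hA uo (by rw [sub_self, abs_zero]; exact hwc.le))
    have hFm : Measurable fun η : Env => -X F d η 0 N y := (X_meas F d _ _ _).neg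
    have hFi : Integrable (fun η : Env => -X F d η 0 N y) (law F) :=
      (X_integrable hd 0 (by omega) y).neg
    -- the gain
    have hD0 : ∀ η, 0 ≤ Φ (-X F d η 0 N y + Y) - Φ (-X F d η 0 N y) := fun η =>
      sub_nonneg.2 (hΦ.mono (by linarith))
    have hD1 : ∀ η, Φ (-X F d η 0 N y + Y) - Φ (-X F d η 0 N y) ≤ Y := fun η => by
      have := hΦ.lip (-X F d η 0 N y) Y hY.le
      linarith
    have hDm : Measurable fun η => Φ (-X F d η 0 N y + Y) - Φ (-X F d η 0 N y) :=
      (hΦm.comp (hFm.add_const Y)).sub (hΦm.comp hFm)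
    have hDi : Integrable (fun η => Φ (-X F d η 0 N y + Y) - Φ (-X F d η 0 N y)) (law F) :=
      bint hDm (a := Y) fun η => by
        rw [abs_of_nonneg (hD0 η)]
        exact hD1 η
    have hνDi : Integrable (fun η => ν η * (Φ (-X F d η 0 N y + Y) - Φ (-X F d η 0 N y)))
        (law F) := bdmul hνm hν0 hν1 hDm hDi
    have hgain : g ≤ ∫ η, ν η * (Φ (-X F d η 0 N y + Y) - Φ (-X F d η 0 N y)) ∂(law F) := by
      refine hg1.trans (max_le (integral_nonneg fun η => mul_nonneg (hν0 η) (hD0 η)) ?_)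
      have h1 : ∫ η, (Φ (-X F d η 0 N y + Y) - Φ (-X F d η 0 N y)) ∂(law F) ≤
          ∫ η, (ν η * (Φ (-X F d η 0 N y + Y) - Φ (-X F d η 0 N y)) + (Y - Y * ν η))
            ∂(law F) := by
        refine integral_mono hDi (hνDi.add ((integrable_const Y).sub (hνi.const_mul Y)))
          fun η => ?_
        have h2 := mul_le_mul_of_nonneg_left (hD1 η) (sub_nonneg.2 (hν1 η))
        show Φ (-X F d η 0 N y + Y) - Φ (-X F d η 0 N y) ≤
          ν η * (Φ (-X F d η 0 N y + Y) - Φ (-X F d η 0 N y)) + (Y - Y * ν η)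
        nlinarith
      have h2 : ∫ η, (ν η * (Φ (-X F d η 0 N y + Y) - Φ (-X F d η 0 N y)) + (Y - Y * ν η))
            ∂(law F) =
          ∫ η, ν η * (Φ (-X F d η 0 N y + Y) - Φ (-X F d η 0 N y)) ∂(law F) +
            (Y - Y * ∫ η, ν η ∂(law F)) := by
        have h3 : Integrable (fun η => Y - Y * ν η) (law F) :=
          (integrable_const Y).sub (hνi.const_mul Y)
        rw [integral_add hνDi h3, integral_sub (integrable_const Y) (hνi.const_mul Y),
          integral_const_mul, integral_const, probReal_univ, one_smul]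
      rw [h2] at h1
      have h3 := mul_le_mul_of_nonneg_left hδt hY.le
      linarith
    refine le_trans ?_ key
    rw [hcard]
    have h1 : 2 * A * ∫ η, ν η ∂(law F) ≤ 2 * A :=
      mul_le_of_le_one_right (by linarith) hν1i
    have h2 : x * (1 - ∫ η, ν η ∂(law F)) ≤ x * δ := mul_le_mul_of_nonneg_left (by linarith) hx0
    have h3 := hlam t ht
    linarith
  have hvar := var_phase (P := law F) Js (Finset.Ico (-(Z : ℤ)) Z) (q := q)
    (fun z => (z + Z).toNat % q) (fun z _ => Nat.mod_lt _ hq1)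
    (G := fun t z => GE F E (a t z)) (T := fun η => Φ (-X F d η 0 (N + l) (y + kk))) hp0
    (fun t _ z _ => GE_meas hE _) (fun t _ z _ => GE_nonneg _)
    (fun t _ z _ => GE_le_one _) (fun t _ z _ => by rw [hGi]; exact hp)
    (fun t ht z hz t' ht' z' hz' hc hne => by
      refine GE_indep hE ?_
      rcases lt_trichotomy t t' with h | h | h
      · refine DE_disj_rows hE ?_
        rw [ha, ha]
        have h1 := hJ2 t ht t' ht' h
        show (t : ℤ) + m + M ≤ (t' : ℤ) + m
        omega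
      · subst h
        have hzz : z ≠ z' := fun h => hne (by rw [h])
        refine DE_disj_cols hE (by rw [ha, ha]) ?_
        rw [ha, ha]
        have e : cen t + z * wc + uo - (cen t + z' * wc + uo) = (z - z') * wc := by ring
        simp only [e]
        rw [Finset.mem_Ico] at hz hz'
        have h1 : (q : ℤ) ≤ |z - z'| := by
          have hc' : (z + Z).toNat % q = (z' + Z).toNat % q := hc
          have h2 : ((z + Z).toNat : ℤ) = z + Z := Int.toNat_of_nonneg (by omega)
          have h3 : ((z' + Z).toNat : ℤ) = z' + Z := Int.toNat_of_nonneg (by omega)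
          have h4 : (q : ℤ) ∣ z - z' := by
            have h5 : ((z + Z).toNat : ℤ) % q = ((z' + Z).toNat : ℤ) % q := by
              exact_mod_cast hc'
            rw [h2, h3] at h5
            have h8 : (q : ℤ) ∣ (z + Z) - (z' + Z) := Int.ModEq.dvd h5.symm
            have h9 : (z + (Z : ℤ)) - (z' + Z) = z - z' := by ring
            rwa [h9] at h8
          have h5 : z - z' ≠ 0 := sub_ne_zero.2 hzz
          exact Int.le_of_dvd (abs_pos.2 h5) ((dvd_abs _ _).2 h4)
        push_cast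
        rw [abs_mul, abs_of_pos (show (0 : ℝ) < (wc : ℝ) by exact_mod_cast hwc)]
        refine lt_of_lt_of_le hq (mul_le_mul_of_nonneg_right ?_ (by exact_mod_cast hwc.le))
        have h2 : ((q : ℤ) : ℝ) ≤ ((|z - z'| : ℤ) : ℝ) := by exact_mod_cast h1
        push_cast at h2
        exact h2
      · refine (DE_disj_rows hE ?_).symm
        rw [ha, ha]
        have h1 := hJ2 t' ht' t ht h
        show (t' : ℤ) + m + M ≤ (t : ℤ) + m
        omega)
    (hΦm.comp hTm) hT2 hK0 (w := 2 * Z) (by linarith) (le_of_eq hcard) hins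
  exact hvar

end

end Pool.Agent.W_1b8d5d_h48
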